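import Mathlib
import Pool.Agent.R384.Z.Gen

/-!
# Project SG: parity of Selmer groups and the sign conjecture at ODD primes (MP_b4b3cb_nt)

Template: the starting result `MP_b4b3cb_nt.ParityEveryDimension` (`p = 2`; files
`Pool/Agent/H76/PS/*`, `Pool/Agent/K7/H*/PS/*`). Here `p` is ANY ODD prime.

`K = ℚ(s)`, `s² = -d`, `d > 0`, is imaginary quadratic and `-d` is a square in `ℚ_p` (`p` splits);
`ι₀ : QB → PadicAlgCl p` gives a place `v` above `p`; `DDs ι₀` is the decomposition group.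
`𝓛 ≤ G_K = GK s` is the Galois group of a finite Galois extension `L / K` (`Lev p 𝓛 ι₀`):
`μ_p ⊆ L`, `p ∤ [L : K]`, `L / K` unramified outside `p`, one place of `L` above `v` and

(reg) `L` has no cyclic extension of degree `p` unramified outside `p` in which the place `v` splits.

`Nf p 𝓛` = the intersection of the `TE p 𝓛 N`, `Γ = Gs p 𝓛 = G_K / Nf p 𝓛`, `P = Pg p 𝓛 = 𝓛 / Nf p 𝓛`
(a pro-`p` group, open in `Γ`). THEOREM: `P` is a Demushkin group 'equal' to its local counterpart: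
every homomorphism of `DDs ι₀` to a finite group which is a `p`-group on `𝓛 ∩ DDs ι₀` factors through
`Γ`; `H²(P, F_p)` has dimension one.

All cochains of part A are functions on a FIXED group `G`, the subgroup is a parameter.
-/

set_option autoImplicit false

namespace Pool.Agent.L7h48.SG

open Pool.Agent.Y715.Gi (QB KK GK)
open Pool.Agent.Y715.Nr Pool.Agent.W237.RK
open Pool.Agent.Y715.Df (Cmp)
open Pool.Agent.Z384 (II DD DDs)
open Matrix IsLocalRing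

/-! ## Part A: relative cochains with coefficients in `ZMod p` -/

section rel

variable (p : ℕ) [Fact p.Prime] {G : Type} [Group G] [TopologicalSpace G]

/-- the locally constant homomorphisms `U → ZMod p`, extended by zero to `G` -/
def HP (U : Subgroup G) : Submodule (ZMod p) (G → ZMod p) where
  carrier := {φ | IsLocallyConstant φ ∧ (∀ x ∈ U, ∀ y ∈ U, φ (x * y) = φ x + φ y) ∧
    ∀ x, x ∉ U → φ x = 0}
  add_mem' := by
    rintro φ φ' ⟨h1, h2, h3⟩ ⟨h4, h5, h6⟩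
    exact ⟨h1.add h4, fun x hx y hy => by simp only [Pi.add_apply, h2 x hx y hy, h5 x hx y hy]; abel,
      fun x hx => by simp only [Pi.add_apply, h3 x hx, h6 x hx, add_zero]⟩
  zero_mem' := ⟨IsLocallyConstant.const 0, fun x _ y _ => by simp, fun x _ => rfl⟩
  smul_mem' := by
    rintro a φ ⟨h1, h2, h3⟩
    exact ⟨h1.comp (fun z => a * z), fun x hx y hy => by
      simp only [Pi.smul_apply, h2 x hx y hy, smul_add], fun x hx => by
      simp only [Pi.smul_apply, h3 x hx, smul_zero]⟩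

/-- locally constant cochains which are `2`-cocycles on `U` (trivial action) -/
def IsZ (U : Subgroup G) (e : G → G → ZMod p) : Prop :=
  IsLocallyConstant (fun v : G × G => e v.1 v.2) ∧
    ∀ x ∈ U, ∀ y ∈ U, ∀ z ∈ U, e y z - e (x * y) z + e x (y * z) - e x y = 0

/-- cochains which are coboundaries on `U` -/
def IsB (U : Subgroup G) (e : G → G → ZMod p) : Prop :=
  ∃ a : G → ZMod p, IsLocallyConstant a ∧ ∀ x ∈ U, ∀ y ∈ U, e x y = a x + a y - a (x * y)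

/-- the cup product -/
def cup (χ b : G → ZMod p) : G → G → ZMod p := fun x y => χ x * b y

/-- locally constant `1`-cocycles of `U` with values in the functions on `ZMod p`, on which `U` acts
through the homomorphism `χ : U → ZMod p` by translations `(g f)(t) = f (t + χ g)` -/
def IsX (U : Subgroup G) (χ : G → ZMod p) (x : G → ZMod p → ZMod p) : Prop :=
  IsLocallyConstant x ∧ ∀ g ∈ U, ∀ h ∈ U, ∀ t, x (g * h) t = x g t + x h (t + χ g)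

/-- the kernel of `χ : U → ZMod p` is `Q` -/
def IsKer (U Q : Subgroup G) (χ : G → ZMod p) : Prop := ∀ x, x ∈ Q ↔ x ∈ U ∧ χ x = 0

/-- **The norm property** of `U`: if `χ ∪ b = 0` then `b` is a corestriction (a 'norm') from the
kernel of `χ`, in the form: `b` is the trace of a cocycle with values in the induced module. -/
def NR (U : Subgroup G) : Prop :=
  ∀ χ ∈ HP p U, ∀ b ∈ HP p U, (∃ σ ∈ U, χ σ = 1) → IsB p U (cup p χ b) →
    ∃ x : G → ZMod p → ZMod p, IsX p U χ x ∧ ∀ g ∈ U, ∑ t, x g t = b g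

/-- the hypotheses on the open subgroup `P` of `G` -/
structure Dem (P : Subgroup G) : Prop where
  cnt : ∀ U : Subgroup G, IsOpen (U : Set G) → U ≤ P →
    Module.Finite (ZMod p) (HP p U) ∧ Module.finrank (ZMod p) (HP p U) = U.index + 2
  nr : ∀ U : Subgroup G, IsOpen (U : Set G) → U ≤ P → NR p U
  pow : ∀ U : Subgroup G, IsOpen (U : Set G) → U ≤ P → ∃ k : ℕ, U.relIndex P = p ^ k

/-- the homomorphisms `b` with `χ ∪ b = 0` -/
def Ann (U : Subgroup G) (χ : G → ZMod p) : Submodule (ZMod p) (G → ZMod p) where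
  carrier := {b | b ∈ HP p U ∧ IsB p U (cup p χ b)}
  add_mem' := by
    rintro b b' ⟨h1, a, h2, h3⟩ ⟨h4, a', h5, h6⟩
    refine ⟨(HP p U).add_mem h1 h4, a + a', h2.add h5, fun x hx y hy => ?_⟩
    have e1 := h3 x hx y hy
    have e2 := h6 x hx y hy
    simp only [cup, Pi.add_apply] at e1 e2 ⊢
    rw [mul_add, e1, e2]
    ring
  zero_mem' := ⟨(HP p U).zero_mem, 0, IsLocallyConstant.const 0, fun x _ y _ => by simp [cup]⟩
  smul_mem' := by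
    rintro c b ⟨h1, a, h2, h3⟩
    refine ⟨(HP p U).smul_mem c h1, c • a, h2.comp (fun z => c * z), fun x hx y hy => ?_⟩
    have e1 := h3 x hx y hy
    simp only [cup, Pi.smul_apply, smul_eq_mul] at e1 ⊢
    linear_combination c * e1

end rel

/-- **[HEI]** Heisenberg lemma. `χ ∪ b` is trivial on `U` iff `b|Q = ψ^σ - ψ` for a homomorphism
`ψ : Q → ZMod p` with `ψ(σ^p) = 0` (`Q` = kernel of `χ`, `χ σ = 1`, `p` odd).
Proof. (⇒) if `χ(x) b(y) = a(x) + a(y) - a(xy)` let `ψ = a|Q`; `a(uσ) = a(u) + a(σ)` and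
`a(σ · σ⁻¹uσ) = a(σ) + a(σ⁻¹uσ) - b(σ⁻¹uσ)`, `b(σ⁻¹uσ) = b(u)`, so `ψ(σ⁻¹uσ) = ψ(u) + b(u)`; by
induction `a(σ^i) = i a(σ) - binom(i,2) b(σ)`, so `a(σ^p) = 0` as `p` is odd.
(⇐) put `a(g) = ψ(σ^{-i} g) - i b(σ^{-i} g) - binom(i,2) b(σ)`, `i = (χ g).val`, for `g ∈ U` (zero
outside of `U`). About 120 lines. -/
def S_HEI : Prop :=
  ∀ (p : ℕ) [Fact p.Prime], p ≠ 2 → ∀ (G : Type) [Group G] [TopologicalSpace G]
    [IsTopologicalGroup G] (U Q : Subgroup G), IsOpen (U : Set G) → ∀ χ ∈ HP p U, IsKer p U Q χ →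
    ∀ σ ∈ U, χ σ = 1 → ∀ b ∈ HP p U,
      (IsB p U (cup p χ b) ↔ ∃ ψ ∈ HP p Q, (∀ u ∈ Q, ψ (σ⁻¹ * u * σ) = ψ u + b u) ∧ ψ (σ ^ p) = 0)

/-- **[SHO]** Shapiro's lemma in degree one. Every homomorphism `φ : Q → ZMod p` is `x(·)(0)` for a
cocycle `x` of `U` with values in the functions on `ZMod p`; for every such `x` one has
`∑ t, x(u)(t) = ∑_{i<p} φ(σ^i u σ^{-i})` for `u ∈ Q` and `∑ t, x(σ)(t) = φ(σ^p)`; and `∑ t, x(·)(t)`,
extended by zero, is a homomorphism of `U`.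
Proof. `x(g)(i) := φ(σ^i g σ^{-j})`, `j ≡ i + χ(g)`, `0 ≤ i, j < p`, satisfies the cocycle relation and
`x(g)(0) = φ(g)` on `Q` (normalise with `σ^p ∈ Q`: `x(g)(i) = φ(σ^i g σ^{-j})` for the representatives
`i, j ∈ [0, p)`, check `x(gh)(i) = x(g)(i) + x(h)(j)`); in general
`x(h)(χ g) = x(gh)(0) - x(g)(0)`. About 120 lines. -/
def S_SHO : Prop :=
  ∀ (p : ℕ) [Fact p.Prime] (G : Type) [Group G] [TopologicalSpace G]
    [IsTopologicalGroup G] (U Q : Subgroup G), IsOpen (U : Set G) → ∀ χ ∈ HP p U, IsKer p U Q χ →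
    ∀ σ ∈ U, χ σ = 1 →
      (∀ φ ∈ HP p Q, ∃ x, IsX p U χ x ∧ ∀ u ∈ Q, x u 0 = φ u) ∧
      (∀ x, IsX p U χ x → ∀ φ ∈ HP p Q, (∀ u ∈ Q, x u 0 = φ u) →
        (∀ u ∈ Q, ∑ t, x u t = ∑ i ∈ Finset.range p, φ (σ ^ i * u * (σ ^ i)⁻¹)) ∧
        ∑ t, x σ t = φ (σ ^ p)) ∧
      (∀ x, IsX p U χ x → (∃ φ ∈ HP p Q, ∀ u ∈ Q, x u 0 = φ u) ∧
        ∃ b ∈ HP p U, ∀ g ∈ U, ∑ t, x g t = b g)

/-- **[SHT]** Shapiro's lemma in degree two (injectivity). `E` is a locally constant cocycle of `U` with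
values in the functions on `ZMod p` (translations through `χ`, `χ σ = 1` for some `σ ∈ U`); if
`E(·,·)(0)` is a coboundary on `Q = ker χ` then `E` is a coboundary.
Proof. Homogeneous cochains: `Φ(a,b,c) := E(a⁻¹b, b⁻¹c)(χ a)` on `U³` satisfies
`Φ(ua,ub,uc) = Φ(a,b,c)` for `u ∈ Q`, and `Φ(b,c,d) - Φ(a,c,d) + Φ(a,b,d) - Φ(a,b,c) = 0`; on `Q`
it is `Ψ(b,c) - Ψ(a,c) + Ψ(a,b)`, `Ψ(a,b) = f(a⁻¹b)`. Let `ρ(a) = a σ^{-i}`, `i = (χ a).val`, a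
`Q`-equivariant map `U → Q`, and `H(a,b) = Φ(ρa, a, b) - Φ(ρa, ρb, b)`. Then
`Φ(a,b,c) = Φ(ρa,ρb,ρc) + H(b,c) - H(a,c) + H(a,b)`. So `Φ = ∂Ψ'`, `Ψ' = H + Ψ∘ρ`, and
`F(g)(t) := Ψ'(s, s g)` for `s = σ^i`, `i = t.val`. About 200 lines. -/
def S_SHT : Prop :=
  ∀ (p : ℕ) [Fact p.Prime] (G : Type) [Group G] [TopologicalSpace G]
    [IsTopologicalGroup G] (U Q : Subgroup G), IsOpen (U : Set G) → ∀ χ ∈ HP p U, IsKer p U Q χ →
    (∃ σ ∈ U, χ σ = 1) → ∀ E : G → G → ZMod p → ZMod p,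
      IsLocallyConstant (fun v : G × G => E v.1 v.2) →
      (∀ x ∈ U, ∀ y ∈ U, ∀ z ∈ U, ∀ t,
        E y z (t + χ x) - E (x * y) z t + E x (y * z) t - E x y t = 0) →
      IsB p Q (fun x y => E x y 0) →
      ∃ F : G → ZMod p → ZMod p, IsLocallyConstant F ∧
        ∀ x ∈ U, ∀ y ∈ U, ∀ t, E x y t = F x t + F y (t + χ x) - F (x * y) t

/-- **[CNT]** (assume HEI, SHO) counting: `χ ∪ ·` has rank one. Here `c ≥ 1`,
`dim HP U = c + 2`, `dim HP Q = p c + 2`, and `U` has the norm property.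
Proof. Let `X = HP Q`, `D φ = φ^σ - φ`, `(φ^σ)(u) = φ(σ⁻¹uσ)`; `(D + 1)^p = 1` as `σ^p ∈ Q`, so
`D^p = 0` and `D^(p-1) = ∑_{i<p} (D+1)^i`. So `dim X = ∑_{k<p} dim (ker D ∩ D^k X)` (rank-nullity for
`D : D^k X → D^(k+1) X`). Let `A = HP U`, `i : A → X` the restriction (kernel `F_p χ`),
`ev φ = φ(σ^p)`, `ev ∘ D = 0`, `ker D ∩ ker ev = i(A)` (extend an invariant `φ` with `φ(σ^p) = 0` to
`U` by `σ^i u ↦ φ(u)`), `ε = 0` or `1` the rank of `ev` on `ker D`; `N = Ann χ ∋ χ`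
(`χ ∪ χ` is trivial for odd `p`), `r = dim A - dim N`. By HEI `N = {b : i b = D ψ, ev ψ = 0}`, so for
`k ≥ 1`: `ker D ∩ D^k X ⊆ i(A) ∩ D X`, and `dim (i(A) ∩ DX) ≤ dim i(N) + (1 - ε)`: the map
`i b = D ψ ↦ ev ψ mod ev(ker D)` has kernel `i(N)`. By the norm property and SHO every `b ∈ N` is
`b|Q = D^(p-1) φ` so `i(N) ⊆ D^(p-1) X ⊆ D^k X`, and `D^(p-1) X = i(N)`: if `b|Q = D^(p-1) φ = D ψ`,
`ψ = D^(p-2) φ`, then `ev ψ = 0` as `p ≥ 3` (elements of `D^(p-1) X ⊆ ker D ∩ ker ev` are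
restrictions). Therefore `p c + 2 = (c + 1 + ε) + ∑_{k=1}^{p-1} d_k`, `d_{p-1} = c + 1 - r`,
`c + 1 - r ≤ d_k ≤ c + 1 - r + (1 - ε)`; so `(p-1)(1-r) + ε + η = 1` with `0 ≤ η ≤ (p-2)(1-ε)`, which
forces `r = 1`. About 350 lines. -/
def S_CNT : Prop :=
  ∀ (p : ℕ) [Fact p.Prime], p ≠ 2 → ∀ (G : Type) [Group G] [TopologicalSpace G]
    [IsTopologicalGroup G] (U Q : Subgroup G), IsOpen (U : Set G) → ∀ χ ∈ HP p U, IsKer p U Q χ →
    ∀ σ ∈ U, χ σ = 1 → ∀ c : ℕ, 1 ≤ c →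
    Module.Finite (ZMod p) (HP p U) → Module.finrank (ZMod p) (HP p U) = c + 2 →
    Module.Finite (ZMod p) (HP p Q) → Module.finrank (ZMod p) (HP p Q) = p * c + 2 →
    NR p U → Module.finrank (ZMod p) (Ann p U χ) = c + 1

/-- **[KRS]** (assume HEI, SHT) the kernel of the restriction `H²(U) → H²(Q)` is `χ ∪ H¹(U)`, if `U` has
the norm property, `p` odd.
Proof. By SHT for `E(x,y)(t) = e(x,y)` there is `F : G → (ZMod p → ZMod p)` with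
`e(x,y) = F(x)(t) + F(y)(t + χ x) - F(xy)(t)` on `U`. Let `Δ f (t) = f(t+1) - f(t)`; `Δ^p = 0` and
`Δ^(p-1) f = ∑ t, f t` (constant). Claim: if `Δ^k F = 0` on `U` for some `3 ≤ k ≤ p` one can change `F`
such that `Δ^(k-1) F = 0`: `Δ^(k-1) F(g)` is constant in `t`, `= b(g)`, `b` is a homomorphism of `U`
(apply `Δ^(k-1)` to the relation) and with `a(g) = -(Δ^(k-2) F)(g)(0)` one gets
`a x + a y - a (xy) = χ(x) b(y)`, so by the norm property there is a cocycle `x` with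
`Δ^(p-1) x = b`; replace `F` by `F - Δ^(p-k) x`. In the end `Δ² F = 0`:
`F(g)(t) = F(g)(0) + t b(g)`, `e(x,y) = F(x)(0) + F(y)(0) + χ(x) b(y) - F(xy)(0)`.
About 200 lines. -/
def S_KRS : Prop :=
  ∀ (p : ℕ) [Fact p.Prime], p ≠ 2 → ∀ (G : Type) [Group G] [TopologicalSpace G]
    [IsTopologicalGroup G] (U Q : Subgroup G), IsOpen (U : Set G) → ∀ χ ∈ HP p U, IsKer p U Q χ →
    (∃ σ ∈ U, χ σ = 1) → NR p U → ∀ e, IsZ p U e → IsB p Q e →
      ∃ b ∈ HP p U, IsB p U (fun x y => e x y - cup p χ b x y)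

/-- **[TRF]** (assume SHT) the transfer. If `e - ψ ∪ x(·)(0)` is a coboundary on `Q = ker χ` then
`ψ ∪ (∑ t, x(·)(t))` is a coboundary on `U`.
Proof. Apply SHT to `E(g,h)(t) = e(g,h) - ψ(g) x(h)(t + χ g)` and sum over `t`: `∑ t, e(g,h) = 0`.
About 60 lines. -/
def S_TRF : Prop :=
  ∀ (p : ℕ) [Fact p.Prime] (G : Type) [Group G] [TopologicalSpace G]
    [IsTopologicalGroup G] (U Q : Subgroup G), IsOpen (U : Set G) → ∀ χ ∈ HP p U, IsKer p U Q χ →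
    (∃ σ ∈ U, χ σ = 1) → ∀ e, IsZ p U e → ∀ ψ ∈ HP p U, ∀ x, IsX p U χ x →
      IsB p Q (fun g h => e g h - ψ g * x h 0) → IsB p U (fun g h => ψ g * ∑ t, x h t)

/-- **[MAIN]** (assume CNT, KRS, TRF, SHO, HEI) the result of part A.
Proof. `Dem p P` is inherited by the open subgroups. (1) For `U ≤ P` open and `χ ∈ HP U`, `χ ≠ 0`,
`dim Ann U χ = dim HP U - 1` by CNT (`c = U.index`, `Q = ker χ`, `Q.index = p * U.index`; scale `χ` such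
that `χ σ = 1`). This gives the last statement. `ψ ∪ b + b ∪ ψ` is a coboundary. All lines `χ ∪ HP U`
in `H²(U)` are equal: given `χ, χ' ≠ 0` choose `b ∉ Ann χ ∪ Ann χ'`; `b ∪ χ` and `b ∪ χ'` are in the
line `b ∪ HP U`. (2) Claim: for `U ≤ P` open, `e` a cocycle on `U`, `W ≤ U` open such that `e` is a
coboundary on `W`, `e` is cohomologous on `U` to an element of the line. Induction on `U.relIndex`-type
data `[U : W] = p^n`: `n = 0` is clear. Let `W ≤ U₁ < U`, `U₁ = ker χ₁` (maximal subgroups of finite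
`p`-groups are normal of index `p`). If `e` is a coboundary on `U₁` use KRS. Otherwise, by induction
and (1) for `U₁`, for every `ψ ∈ HP U₁`, `ψ ≠ 0`, `e ~ ψ ∪ b'` on `U₁`, `b' ∈ HP U₁`. Take for `ψ` the
restriction of a `ψ₀ ∈ HP U` that is not a multiple of `χ₁`. By TRF (`x` from SHO for `b'`, `N b'` its
trace) `ψ₀ ∪ N b' ~ 0` on `U`; also by TRF with `e = 0`: `ψ ∪ b'' ~ 0` on `U₁` implies
`ψ₀ ∪ N b'' ~ 0` on `U`. The image of `N` is `Ann χ₁` (norm property `⊇`; both have codimension one,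
or HEI). `Ann ψ₀ ≠ Ann χ₁`: otherwise for `b₀ ∉ Ann ψ₀` some `a χ₁ + a' ψ₀ ≠ 0` kills `b₀` (line
`b₀ ∪ HP U`) and so everything, contradicting (1). So `b'' ↦ ψ₀ ∪ N b''` is not zero, its kernel has
codimension one (line `ψ₀ ∪ HP U`) and contains `Ann_{U₁} ψ`, of codimension one, so is equal to it;
`b'` is in it, so `e ~ ψ ∪ b' ~ 0` on `U₁`, contradiction. (3) Every locally constant cocycle on the
compact group is a coboundary on a small open subgroup. About 400 lines. -/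
def S_MAIN : Prop :=
  ∀ (p : ℕ) [Fact p.Prime], p ≠ 2 → ∀ (G : Type) [Group G] [TopologicalSpace G]
    [IsTopologicalGroup G] [CompactSpace G] (P : Subgroup G), IsOpen (P : Set G) → Dem p P →
      (∀ e₁ e₂, IsZ p P e₁ → IsZ p P e₂ → ¬ IsB p P e₁ →
        ∃ a : ZMod p, IsB p P (fun x y => e₂ x y - a * e₁ x y)) ∧
      ∀ ψ ∈ HP p P, ψ ≠ 0 → ∃ b ∈ HP p P, ¬ IsB p P (cup p ψ b)

/-! ## Part B: coefficients `ℤ_p(χ)` -/

section tw

variable (p : ℕ) [Fact p.Prime] {G : Type} [Group G] [TopologicalSpace G]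

/-- continuous `2`-cocycles with values in `ℤ_p(χ)` -/
def Zp (χ : G → ℤ_[p]) : Set (G → G → ℤ_[p]) :=
  {z | Continuous (fun v : G × G => z v.1 v.2) ∧
    ∀ x y w, χ x * z y w - z (x * y) w + z x (y * w) - z x y = 0}

/-- coboundaries of continuous functions with values in `ℤ_p` -/
def Bp (χ : G → ℤ_[p]) : Set (G → G → ℤ_[p]) :=
  {z | ∃ f : G → ℤ_[p], Continuous f ∧ ∀ x y, z x y = f x + χ x * f y - f (x * y)}

/-- coboundaries of continuous functions with values in `ℚ_p` -/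
def Bq (χ : G → ℤ_[p]) : Set (G → G → ℚ_[p]) :=
  {z | ∃ f : G → ℚ_[p], Continuous f ∧ ∀ x y, z x y = f x + χ x * f y - f (x * y)}

/-- `χ` is a continuous character -/
structure IsChar (χ : G → ℤ_[p]) : Prop where
  cont : Continuous χ
  one : χ 1 = 1
  mul : ∀ x y, χ (x * y) = χ x * χ y

end tw

/-- **[B]** the result of part B. PORT of `K7/H57/PS/B1, B2` (`stB1`, `stB2`, statement `StB` in
`H76/PS/Defs`) from `2` to odd `p`; the class modulo `4` is replaced by a class `w` modulo `p` (easier: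
`H²(G, ℤ_p(χ))` is generated by one class `z₀` whose reduction generates `H²(G, F_p)`, `c z₀ = ± z₀`
and `w = a z₀ mod p`, `c w = w`, `w ≠ 0`, `p` odd, so `c z₀ = z₀`). `G` here is the type of the group `P`.
The third hypothesis says `dim H²(G, F_p) ≤ 1`. About 500 lines, mostly copies. -/
def S_B : Prop :=
  ∀ (p : ℕ) [Fact p.Prime], p ≠ 2 → ∀ (G : Type) [Group G] [TopologicalSpace G]
    [IsTopologicalGroup G] [CompactSpace G] (χ : G → ℤ_[p]), IsChar p χ →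
    (∀ x, PadicInt.toZMod (χ x) = 1) →
    (∀ e₁ e₂, IsZ p (⊤ : Subgroup G) e₁ → IsZ p (⊤ : Subgroup G) e₂ → ¬ IsB p (⊤ : Subgroup G) e₁ →
      ∃ a : ZMod p, IsB p (⊤ : Subgroup G) (fun x y => e₂ x y - a * e₁ x y)) →
    (∀ φ ∈ HP p (⊤ : Subgroup G), ∃ κ : G → ℤ_[p], Continuous κ ∧
      (∀ x y, κ (x * y) = κ x + χ x * κ y) ∧ ∀ x, PadicInt.toZMod (κ x) = φ x) →
    ∀ c : G → G, Continuous c → (∀ x y, c (x * y) = c x * c y) → (∀ x, c (c x) = x) →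
    (∀ x, χ (c x) = χ x) →
    (∃ w, IsZ p (⊤ : Subgroup G) w ∧ ¬ IsB p (⊤ : Subgroup G) w ∧
      IsB p (⊤ : Subgroup G) (fun x y => w (c x) (c y) - w x y)) →
      (∃ z₀ ∈ Zp p χ, ∀ z ∈ Zp p χ, ∃ a : ℚ_[p],
        (fun x y => ((z x y : ℤ_[p]) : ℚ_[p]) - a * (z₀ x y : ℤ_[p])) ∈ Bq p χ) ∧
      (∀ z ∈ Zp p χ, (fun x y => ((z (c x) (c y) : ℤ_[p]) : ℚ_[p]) - (z x y : ℤ_[p])) ∈ Bq p χ)

/-- **[AV]** averaging over an open normal subgroup `Q` of finite index `m` (corestriction after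
restriction is `m`). `V` is a topological abelian group with a continuous action `act` of `G`.
Proof. Homogeneous cochains: `Φ(a,b,c) = act a (z (a⁻¹b) (b⁻¹c))` is `G`-equivariant,
`Ψ(a,b) = act a (f (a⁻¹b))` on `Q`; choose a section `g ↦ ρ(g) ∈ Q` with `ρ(ug) = u ρ(g)` for `u ∈ Q`,
`H(a,b) = Φ(ρa, a, b) - Φ(ρa, ρb, b)`, so `Φ = ∂Ψ'`, `Ψ' = H + Ψ∘ρ`, `Q`-equivariant; then
`m Φ = ∂ ∑_{t ∈ G/Q} act t Ψ'(t⁻¹ ·, t⁻¹ ·)`, and `F(g) = ∑_t act t Ψ'(t⁻¹, t⁻¹ g)`.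
About 200 lines. -/
def S_AV : Prop :=
  ∀ (G : Type) [Group G] [TopologicalSpace G] [IsTopologicalGroup G] (V : Type) [AddCommGroup V]
    [TopologicalSpace V] [IsTopologicalAddGroup V] (act : G → V → V),
    (∀ g v w, act g (v + w) = act g v + act g w) → (∀ v, act 1 v = v) →
    (∀ g h v, act (g * h) v = act g (act h v)) → Continuous (fun q : G × V => act q.1 q.2) →
    ∀ Q : Subgroup G, IsOpen (Q : Set G) → Q.Normal → Q.FiniteIndex → ∀ z : G → G → V,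
      Continuous (fun v : G × G => z v.1 v.2) →
      (∀ x y w, act x (z y w) - z (x * y) w + z x (y * w) - z x y = 0) →
      (∃ f : G → V, Continuous f ∧ ∀ x ∈ Q, ∀ y ∈ Q, z x y = f x + act x (f y) - f (x * y)) →
      ∃ F : G → V, Continuous F ∧ ∀ x y, Q.index • z x y = F x + act x (F y) - F (x * y)

/-! ## Part C: local fields -/

/-- **[C1]** PORT of `K7/H35/PS/C1` (`stC1`): a finite extension of degree `m` of `ℚ_p` has at most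
`p ^ (m + 2)` classes modulo `p`-th powers. (For `p = 2` the proof uses the indices of the maps
`x ↦ 2 x` on the integers and `x ↦ x²` on the units; the same for `p`.) -/
def S_C1 : Prop :=
  ∀ (p : ℕ) [Fact p.Prime], p ≠ 2 →
  ∀ L : IntermediateField ℚ_[p] (PadicAlgCl p), FiniteDimensional ℚ_[p] L →
    ∃ R : Finset (PadicAlgCl p), R.card ≤ p ^ (Module.finrank ℚ_[p] L + 2) ∧
      ∀ x ∈ L, x ≠ 0 → ∃ r ∈ R, ∃ y ∈ L, r ∈ L ∧ r ≠ 0 ∧ x = r * y ^ p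

/-- **[C2]** (assume C1) PORT of `K7/H81/PS/C2`: for `V` open in `G_{ℚ_p}`, fixing `μ_p`,
`dim Hom(V, ZMod p) ≤ [G_{ℚ_p} : V] + 2` (Kummer theory). -/
def S_C2 : Prop :=
  ∀ (p : ℕ) [Fact p.Prime], p ≠ 2 → ∀ V : Subgroup (Au p), IsOpen (V : Set (Au p)) →
    (∀ τ ∈ V, ∀ ζ : PadicAlgCl p, ζ ^ p = 1 → τ ζ = ζ) →
    Module.Finite (ZMod p) (HP p V) ∧ Module.finrank (ZMod p) (HP p V) ≤ V.index + 2

/-- **[NA]** the norm lemma over a local field, part a. `V` open in `G_{ℚ_p}` fixes `ζ`, a primitive `p`-th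
root of unity; `χ, b ∈ Hom(V, ZMod p)`, `χ σ = 1`, `τ β = ζ^{b(τ)} β` for `τ ∈ V`. If `χ ∪ b` is a
coboundary then `β^p` is a norm: `β^p = ∏_{i<p} σ^i z`, `z` fixed by `ker χ`.
Proof. Let `χ(x) b(y) = a(x) + a(y) - a(xy)`, `f = -a`. `f` is a homomorphism on `Q = ker χ`; by Kummer
theory (`Pool.Agent.W309.TD.exists_root`-type lemma, Hilbert 90) there is `g ≠ 0` with
`u g = ζ^{f(u)} g` for `u ∈ Q`. `f(στ) = f(σ) + f(τ) + χ(σ) b(τ)` gives `f(σ⁻¹uσ) = f(u) - b(u)`, so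
`z := σ(g) β / g` is fixed by `Q`. `σ g = g β⁻¹ z`, so `σ^p g = g ∏ σ^i(z) ∏ σ^i(β)⁻¹ =
g (∏ σ^i z) β^{-p} ζ^{-b(σ) p(p-1)/2}`, and `σ^p g = ζ^{f(σ^p)} g`, `f(σ^p) = p f(σ) + binom(p,2) b(σ) = 0`.
About 150 lines. -/
def S_NA : Prop :=
  ∀ (p : ℕ) [Fact p.Prime], p ≠ 2 → ∀ V : Subgroup (Au p), IsOpen (V : Set (Au p)) →
    ∀ ζ : PadicAlgCl p, IsPrimitiveRoot ζ p → (∀ τ ∈ V, τ ζ = ζ) →
    ∀ χ ∈ HP p V, ∀ b ∈ HP p V, ∀ σ ∈ V, χ σ = 1 → ∀ β : PadicAlgCl p, β ≠ 0 →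
    (∀ τ ∈ V, τ β = ζ ^ (b τ).val * β) → IsB p V (cup p χ b) →
      ∃ z : PadicAlgCl p, z ≠ 0 ∧ (∀ τ ∈ V, χ τ = 0 → τ z = z) ∧
        ∏ i ∈ Finset.range p, (σ ^ i) z = β ^ p

/-- **[NB]** (assume NA) the norm property of the local groups.
Proof. Kummer theory gives `β` for `b`; NA gives `z`. Let `w^p = z`, `w_t = σ^{t.val} w` (`t : ZMod p`);
`w_t^p = z_t := σ^{t.val} z`, and `g z_t = z_{t + χ g}` for `g ∈ V`. So
`g w_t = ζ^{y(g)(t)} w_{t + χ g}`, `y(gh)(t) = y(h)(t) + y(g)(t + χ h)`; put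
`x(g)(t) = y(g)(-t - χ g)`; `∏ w_t = ζ^j β`, so `∑ t, x g t = b g`. About 200 lines. -/
def S_NB : Prop :=
  ∀ (p : ℕ) [Fact p.Prime], p ≠ 2 → ∀ V : Subgroup (Au p), IsOpen (V : Set (Au p)) →
    (∀ τ ∈ V, ∀ ζ : PadicAlgCl p, ζ ^ p = 1 → τ ζ = ζ) → NR p V

/-- **[H1]** norms from a local field that contains a primitive `p²`-th root of unity are
`p^k (1 + p² n)`.
Proof. By transitivity of the norm `L = ℚ_p(ζ)`. `X ↦ Φ_{p²}(X + 1)` is Eisenstein, so `1 - ζ` is a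
uniformizer with norm `p`, `ℤ_p[ζ]` is the valuation ring and the residue field is `F_p`: `z =
(1-ζ)^k g(ζ)`, `g ∈ ℤ_p[X]`, `g(1)` a unit. Take `g₀ ∈ ℤ[X]`, `g₀ ≡ g` modulo `p²`: the norm is the
resultant with `Φ_{p²}`, so it is enough that `N(g₀(ζ)) ≡ 1` modulo `p²` in `ℤ`: it is positive (complex
embeddings come in pairs) and it is the index of the ideal `(g₀(ζ))` of `ℤ[ζ]`, a product of norms of
prime ideals `𝔮 ∤ p`, and `N𝔮 ≡ 1` modulo `p²` as `(ℤ[ζ]/𝔮)^×` has an element of order `p²`. (Any other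
proof is fine.) About 300 lines. -/
def S_H1 : Prop :=
  ∀ (p : ℕ) [Fact p.Prime], p ≠ 2 → ∀ L : IntermediateField ℚ_[p] (PadicAlgCl p),
    FiniteDimensional ℚ_[p] L → (∃ ζ ∈ L, IsPrimitiveRoot ζ (p ^ 2)) → ∀ z : L, z ≠ 0 →
      ∃ (k : ℤ) (n : ℤ_[p]), Algebra.norm ℚ_[p] z = (p : ℚ_[p]) ^ k * (1 + (p : ℚ_[p]) ^ 2 * (n : ℚ_[p]))

/-! ## The global group -/

/-- `x` is a `p`-unit -/
def PUnit (p : ℕ) (x : QB) : Prop := x ≠ 0 ∧ ∃ k : ℕ, IsIntegral ℤ (p ^ k * x) ∧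
  IsIntegral ℤ (p ^ k * x⁻¹)

/-- `K = ℚ(√-d)` is imaginary quadratic and `p` splits in it. -/
structure Spl (p : ℕ) [Fact p.Prime] (s : QB) (d : ℕ) : Prop where
  odd : p ≠ 2
  pos : 0 < d
  sq : s ^ 2 = -(d : QB)
  loc : ∃ r : ℚ_[p], r ^ 2 = -(d : ℚ_[p])

/-- **[D1]** PORT of `K7/H5/PS/D1`: the `p`-units of a totally complex number field of degree `2 m`
containing `μ_p` with two primes above `p`: `m + 2` elements which are independent modulo `p`-th powers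
(Dirichlet: rank `≥ m - 1 + 2`, plus `ζ`). -/
def S_D1 : Prop :=
  ∀ (p : ℕ) [Fact p.Prime], p ≠ 2 →
  ∀ (N : Type) [Field N] [NumberField N] (m : ℕ), Module.finrank ℚ N = 2 * m →
    NumberField.InfinitePlace.nrRealPlaces N = 0 → (∃ ζ : N, IsPrimitiveRoot ζ p) →
    ∀ P₁ P₂ : Ideal (NumberField.RingOfIntegers N), P₁.IsPrime → P₂.IsPrime → P₁ ≠ P₂ →
      (p : NumberField.RingOfIntegers N) ∈ P₁ → (p : NumberField.RingOfIntegers N) ∈ P₂ →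
      ∃ u : Fin (m + 2) → N, (∀ i, u i ≠ 0) ∧
        (∀ i, ∃ k : ℕ, IsIntegral ℤ (p ^ k * u i) ∧ IsIntegral ℤ (p ^ k * (u i)⁻¹)) ∧
        ∀ e : Fin (m + 2) → ℕ, (∃ y : N, y ^ p = ∏ i, u i ^ e i) → ∀ i, p ∣ e i

/-- **[D2]** (assume D1) PORT of `K7/H15/PS/D2`. -/
def S_D2 : Prop :=
  ∀ (p : ℕ) [Fact p.Prime] (s : QB) (d : ℕ), Spl p s d → ∀ U : Subgroup (GK s),
    IsOpen (U : Set (GK s)) → (∀ σ ∈ U, ∀ ζ : QB, ζ ^ p = 1 → σ ζ = ζ) →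
    ∃ u : Fin (U.index + 2) → QB, (∀ i, ∀ σ ∈ U, σ (u i) = u i) ∧ (∀ i, PUnit p (u i)) ∧
      ∀ e : Fin (U.index + 2) → ℕ, (∃ y : QB, (∀ σ ∈ U, σ y = y) ∧ y ^ p = ∏ i, u i ^ e i) →
        ∀ i, p ∣ e i

/-- **[D3]** PORT of `K7/H34/PS/D3`: the `p ^ k`-th roots of the `p`-units are unramified at the other
primes. -/
def S_D3 : Prop :=
  ∀ (p : ℕ) [Fact p.Prime] (s : QB) (q : ℕ) [Fact q.Prime] (ι : QB →ₐ[ℚ] PadicAlgCl q), q ≠ p →
    ∀ σ ∈ (II ι : Set (GK s)), ∀ (x : QB) (k : ℕ), PUnit p (x ^ p ^ k) →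
      σ (x ^ p ^ k) = x ^ p ^ k → σ x = x

section glob

variable (p : ℕ) [Fact p.Prime] {s : QB}

/-- `σ` is in an inertia group at a prime number other than `p` -/
def Ram (σ : GK s) : Prop :=
  ∃ (q : ℕ) (_ : Fact q.Prime) (ι : QB →ₐ[ℚ] PadicAlgCl q), q ≠ p ∧ σ ∈ (II ι : Set (GK s))

/-- the level `𝓛 = G_L` (see the introduction) -/
structure Lev (𝓛 : Subgroup (GK s)) (ι₀ : QB →ₐ[ℚ] PadicAlgCl p) : Prop where
  isOpen : IsOpen (𝓛 : Set (GK s))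
  normal : 𝓛.Normal
  cop : ¬ p ∣ 𝓛.index
  mu : ∀ σ ∈ 𝓛, ∀ ζ : QB, ζ ^ p = 1 → σ ζ = ζ
  unr : ∀ σ : GK s, Ram p σ → σ ∈ 𝓛
  dec : ∀ g : GK s, ∃ δ ∈ DDs ι₀, δ⁻¹ * g ∈ 𝓛
  reg : ∀ φ ∈ HP p 𝓛, (∀ σ, Ram p σ → φ σ = 0) → (∀ σ ∈ DDs ι₀, σ ∈ 𝓛 → φ σ = 0) → φ = 0

/-- `N` is the Galois group of a finite extension `M ⊇ L`, Galois over `K`, of `p`-power degree over `L`
and unramified outside `p` -/
structure TE (𝓛 N : Subgroup (GK s)) : Prop where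
  isOpen : IsOpen (N : Set (GK s))
  normal : N.Normal
  le : N ≤ 𝓛
  index : ∃ a : ℕ, N.relIndex 𝓛 = p ^ a
  unramified : ∀ σ : GK s, Ram p σ → σ ∈ N

/-- the intersection of these subgroups -/
noncomputable def Nf (𝓛 : Subgroup (GK s)) : Subgroup (GK s) := sInf {N | TE p 𝓛 N}

instance normal_Nf (𝓛 : Subgroup (GK s)) : (Nf p 𝓛).Normal := by
  constructor
  intro n hn g
  rw [Nf, Subgroup.mem_sInf] at hn ⊢
  intro N hN
  exact hN.normal.conj_mem n (hn N hN) g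

/-- the quotient `Γ` -/
abbrev Gs (𝓛 : Subgroup (GK s)) : Type := GK s ⧸ Nf p 𝓛

/-- the subgroup `P` of `Γ` -/
noncomputable def Pg (𝓛 : Subgroup (GK s)) : Subgroup (Gs p 𝓛) := 𝓛.map (QuotientGroup.mk' (Nf p 𝓛))

end glob

/-- **[E0]** PORT of `K7/H34/PS/E0`: elementary facts. Γ is compact and totally disconnected; `P` is open;
indices in `P` are powers of `p`; cofinality of the `TE`; homomorphisms unramified outside `p` are
trivial on `Nf`; density of the decomposition group (here `reg` is used: a proper subgroup of a finite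
`p`-group is contained in a normal subgroup of index `p`, use `N` with `TE N` and the image of
`DDs ∩ 𝓛` in `𝓛 / N`). -/
def S_E0 : Prop :=
  ∀ (p : ℕ) [Fact p.Prime] (s : QB) (d : ℕ), Spl p s d → ∀ (ι₀ : QB →ₐ[ℚ] PadicAlgCl p)
    (𝓛 : Subgroup (GK s)), Lev p 𝓛 ι₀ →
    CompactSpace (Gs p 𝓛) ∧ T2Space (Gs p 𝓛) ∧ Nf p 𝓛 ≤ 𝓛 ∧
    IsOpen (Pg p 𝓛 : Set (Gs p 𝓛)) ∧ (Pg p 𝓛).Normal ∧ (Pg p 𝓛).index = 𝓛.index ∧
    (∀ σ : GK s, (QuotientGroup.mk σ : Gs p 𝓛) ∈ Pg p 𝓛 ↔ σ ∈ 𝓛) ∧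
    (∀ U : Subgroup (Gs p 𝓛), IsOpen (U : Set (Gs p 𝓛)) → U ≤ Pg p 𝓛 →
      ∃ k : ℕ, U.relIndex (Pg p 𝓛) = p ^ k) ∧
    (∀ U : Subgroup (GK s), IsOpen (U : Set (GK s)) → Nf p 𝓛 ≤ U → ∃ N, TE p 𝓛 N ∧ N ≤ U) ∧
    (∀ U : Subgroup (GK s), IsOpen (U : Set (GK s)) → Nf p 𝓛 ≤ U → U ≤ 𝓛 → ∀ φ ∈ HP p U,
      (∀ σ ∈ U, Ram p σ → φ σ = 0) → ∀ σ ∈ Nf p 𝓛, φ σ = 0) ∧
    (∀ U : Subgroup (GK s), IsOpen (U : Set (GK s)) → Nf p 𝓛 ≤ U → ∀ g : GK s,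
      ∃ δ ∈ DDs ι₀, δ⁻¹ * g ∈ U) ∧
    (∀ g : GK s, ∃ δ ∈ DDs ι₀, δ⁻¹ * g ∈ Nf p 𝓛)

/-- **[E1]** PORT of `K7/H15/PS/E1`: the restriction homomorphism of the local Galois group. -/
def S_E1 : Prop :=
  ∀ (p : ℕ) [Fact p.Prime] (s : QB) (d : ℕ), Spl p s d → ∀ ι₀ : QB →ₐ[ℚ] PadicAlgCl p,
    ∃ r : Au p →* GK s, Continuous r ∧ (∀ τ, Cmp ι₀ τ (r τ)) ∧ r.range = DDs ι₀

/-- **[E2]** (assume C2, D2, D3, E0, E1) PORT of `K7/H82/PS/E2`: counting; `dim = [G_K : U] + 2`, extension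
of the characters of `U ∩ DDs`, Kummer theory with `p`-units.
Proof. `{φ ∈ HP U, φ = 0 on Nf} → HP (U ∩ DDs) → HP (r⁻¹ U)` are injective, the last has dimension at
most `[Au p : r⁻¹ U] + 2 = [GK : U] + 2` (`DDs · U = GK`) and the Kummer characters of the `p`-units of
D2 give at least `U.index + 2` in the first. -/
def S_E2 : Prop :=
  ∀ (p : ℕ) [Fact p.Prime] (s : QB) (d : ℕ), Spl p s d → ∀ (ι₀ : QB →ₐ[ℚ] PadicAlgCl p)
    (𝓛 : Subgroup (GK s)), Lev p 𝓛 ι₀ →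
    (∀ U : Subgroup (Gs p 𝓛), IsOpen (U : Set (Gs p 𝓛)) → U ≤ Pg p 𝓛 →
      Module.Finite (ZMod p) (HP p U) ∧ Module.finrank (ZMod p) (HP p U) = U.index + 2) ∧
    (∀ U : Subgroup (GK s), IsOpen (U : Set (GK s)) → Nf p 𝓛 ≤ U → U ≤ 𝓛 →
      ∀ φ : GK s → ZMod p, (∃ W : Subgroup (GK s), IsOpen (W : Set (GK s)) ∧
          ∀ δ ∈ DDs ι₀, ∀ w ∈ DDs ι₀, w ∈ W → δ ∈ U → φ (δ * w) = φ δ) →
        (∀ x ∈ DDs ι₀, x ∈ U → ∀ y ∈ DDs ι₀, y ∈ U → φ (x * y) = φ x + φ y) →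
        ∃ φ' ∈ HP p U, (∀ σ ∈ Nf p 𝓛, φ' σ = 0) ∧ ∀ δ ∈ DDs ι₀, δ ∈ U → φ' δ = φ δ) ∧
    (∀ ζ : QB, IsPrimitiveRoot ζ p → ∀ U : Subgroup (GK s), IsOpen (U : Set (GK s)) →
      Nf p 𝓛 ≤ U → U ≤ 𝓛 → ∀ φ ∈ HP p U, (∀ σ ∈ Nf p 𝓛, φ σ = 0) →
        ∃ x : QB, PUnit p (x ^ p) ∧ ∀ σ ∈ U, σ x = ζ ^ (φ σ).val * x)

/-- **[F1]** (assume E0, E2) homomorphisms of the decomposition group to finite groups which are
`p`-groups on `𝓛` are trivial on `Nf`.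
Proof. Let `W = {δ ∈ DDs ∩ 𝓛 : r δ = 1}`. The finite `p`-group `r (DDs ∩ 𝓛)` has a chain of subgroups
`S_0 > S_1 > ... > 1`, each normal of index `p` in the previous one; by induction `{δ ∈ DDs ∩ 𝓛 : r δ ∈ S_i} =
DDs ∩ U_i` for an open `U_i`, `Nf ≤ U_i ≤ 𝓛`: extend the homomorphism
`DDs ∩ U_i → S_i / S_{i+1} = ZMod p` to `U_i` by the second part of E2 and take the kernel. So
`DDs ∩ Nf ≤ W`. (See also `K7/H22/PS/F1`.) About 150 lines. -/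
def S_F1 : Prop :=
  ∀ (p : ℕ) [Fact p.Prime] (s : QB) (d : ℕ), Spl p s d → ∀ (ι₀ : QB →ₐ[ℚ] PadicAlgCl p)
    (𝓛 : Subgroup (GK s)), Lev p 𝓛 ι₀ →
    ∀ (H : Type) [Group H] [Finite H] (r : DDs (s := s) ι₀ →* H), IsLocallyConstant (fun δ => r δ) →
      (∀ δ : DDs (s := s) ι₀, (δ : GK s) ∈ 𝓛 → ∃ k : ℕ, r δ ^ p ^ k = 1) →
      ∀ δ : DDs (s := s) ι₀, (δ : GK s) ∈ Nf p 𝓛 → r δ = 1

/-- a continuous representation, residually unipotent on `𝓛`, unramified outside `p` -/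
structure Rp (p : ℕ) [Fact p.Prime] {s : QB} (𝓛 : Subgroup (GK s)) {A : Type} [CommRing A]
    [IsLocalRing A] [TopologicalSpace A] {n : ℕ} (ρ : GK s →* GL (Fin n) A) : Prop where
  cont : ∀ i j, Continuous fun σ => (ρ σ : Matrix (Fin n) (Fin n) A) i j
  unipotent : ∀ σ ∈ 𝓛, ∃ m : ℕ, ∀ i j,
    (((ρ σ : Matrix (Fin n) (Fin n) A) - 1) ^ m) i j ∈ maximalIdeal A
  unramified : ∀ σ : GK s, Ram p σ → ρ σ = 1

/-- **[F2]** (assume E0, F1) representations are trivial on `Nf`, and the cocycles of the decomposition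
group extend.
Proof. (1) `ρ = 1` on `Nf`: the kernel of `ρ mod 𝔪^k`, intersected with `𝓛`, is a `TE` (as `te_cong`,
`rp_Nf` in `H76/PS/I1`). (2) For every `k` the pair `(ρ mod 𝔪^k, l mod 𝔪^k)` is a homomorphism of
`DDs` to the finite group `GL_{n+1}(A/𝔪^k)` (block matrices), a `p`-group on `𝓛`; F1: `l = 0` on
`DDs ∩ Nf`. (3) `x(σ) := l(δ)` for `δ ∈ σ Nf ∩ DDs` (exists by E0) is well defined, a cocycle, continuous
(`DDs → GK / Nf` is a closed surjection of compact spaces). About 250 lines (`K7/H60/PS/F2` has the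
finite groups). -/
def S_F2 : Prop :=
  ∀ (p : ℕ) [Fact p.Prime] (s : QB) (d : ℕ), Spl p s d → ∀ (ι₀ : QB →ₐ[ℚ] PadicAlgCl p)
    (𝓛 : Subgroup (GK s)), Lev p 𝓛 ι₀ →
    ∀ (A : Type) [CommRing A] [IsLocalRing A] [IsNoetherianRing A] [TopologicalSpace A]
    [IsTopologicalRing A], IsAdic (maximalIdeal A) → IsAdicComplete (maximalIdeal A) A →
    Finite (ResidueField A) → (p : A) ∈ maximalIdeal A →
    ∀ (n : ℕ) (ρ : GK s →* GL (Fin n) A), Rp p 𝓛 ρ →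
      (∀ σ ∈ Nf p 𝓛, ρ σ = 1) ∧
      ∀ l : DDs (s := s) ι₀ → Fin n → A, Continuous l → (∀ δ δ', l (δ * δ') = l δ +
        (ρ (δ : GK s) : Matrix (Fin n) (Fin n) A) *ᵥ l δ') →
      ∃ x : GK s → Fin n → A, Continuous x ∧
        (∀ σ τ, x (σ * τ) = x σ + (ρ σ : Matrix (Fin n) (Fin n) A) *ᵥ x τ) ∧
        (∀ σ ∈ Nf p 𝓛, x σ = 0) ∧ ∀ δ : DDs (s := s) ι₀, x (δ : GK s) = l δ

/-- `χ` is the `p`-adic cyclotomic character -/
def IsCyc (p : ℕ) [Fact p.Prime] {s : QB} (χ : GK s → ℤ_[p]) : Prop :=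
  ∀ (σ : GK s) (m : ℕ) (ζ : QB), ζ ^ p ^ m = 1 → σ ζ = ζ ^ (PadicInt.toZModPow m (χ σ)).val

/-- **[G1]** (assume D3) PORT of `K7/H79/PS/G1`. -/
def S_G1 : Prop :=
  ∀ (p : ℕ) [Fact p.Prime] (s : QB) (χ : GK s → ℤ_[p]), IsCyc p χ → IsChar p χ ∧
    ∀ (ι₀ : QB →ₐ[ℚ] PadicAlgCl p) (𝓛 : Subgroup (GK s)), Lev p 𝓛 ι₀ →
      (∀ σ ∈ 𝓛, PadicInt.toZMod (χ σ) = 1) ∧ ∀ τ ∈ Nf p 𝓛, χ τ = 1

/-- **[G2]** (assume E0, E2, D3, G1) PORT of `K7/H79/PS/G2`: the characters of `𝓛` lift to Kummer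
cocycles with values in `ℤ_p(χ)`. Proof: `φ` is the Kummer character of a `p`-unit `x^p`; take a
compatible system of `p^k`-th roots of `x^p`, all unramified outside `p` by D3. -/
def S_G2 : Prop :=
  ∀ (p : ℕ) [Fact p.Prime] (s : QB) (d : ℕ), Spl p s d → ∀ (ι₀ : QB →ₐ[ℚ] PadicAlgCl p)
    (𝓛 : Subgroup (GK s)), Lev p 𝓛 ι₀ → ∀ χ : GK s → ℤ_[p], IsCyc p χ →
    ∀ φ ∈ HP p 𝓛, (∀ σ ∈ Nf p 𝓛, φ σ = 0) →
      ∃ κ : GK s → ℤ_[p], Continuous κ ∧ (∀ x ∈ 𝓛, ∀ y ∈ 𝓛, κ (x * y) = κ x + χ x * κ y) ∧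
        (∀ σ ∈ 𝓛, PadicInt.toZMod (κ σ) = φ σ) ∧
        ∀ σ, ∀ τ ∈ Nf p 𝓛, κ (σ * τ) = κ σ

/-- **[NG]** (assume E0, E1, E2, NB) the norm property of the open subgroups `U` of `P`.
Proof. Let `V = {τ : r τ ∈ U}` (`r : Au p → GK → Γ` is surjective with kernel `κ ≤ V`), pull `χ`, `b` and
the cochain back to `V` and apply NB: `x : Au p → (ZMod p → ZMod p)`. Every locally constant
homomorphism of `{τ ∈ V : χ (r τ) = 0}` to `ZMod p` is trivial on `κ` (second part of E2), so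
`x(k)(0) = 0` for `k ∈ κ`, `x(k)(χ g) = x(g k g⁻¹)(0) = 0`, so `x(gk) = x(g)` and `x` descends to `U`
(locally constant as `Au p → Γ` is a quotient map). About 200 lines. -/
def S_NG : Prop :=
  ∀ (p : ℕ) [Fact p.Prime] (s : QB) (d : ℕ), Spl p s d → ∀ (ι₀ : QB →ₐ[ℚ] PadicAlgCl p)
    (𝓛 : Subgroup (GK s)), Lev p 𝓛 ι₀ →
    ∀ U : Subgroup (Gs p 𝓛), IsOpen (U : Set (Gs p 𝓛)) → U ≤ Pg p 𝓛 → NR p U

/-- `c` is a complex conjugation -/
def IsConj (c : QB ≃ₐ[ℚ] QB) : Prop := ∃ j : QB →+* ℂ, ∀ x, j (c x) = (starRingEnd ℂ) (j x)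

/-- **[H2]** (assume E0, E1, D3, G1, NA, H1) a class of `P` which is invariant under the conjugation.
`h(σ) = (χ(σ) - 1)/p mod p` on `𝓛`, `w = h ∪ κ(u)`, `u = α / c(α)`.
Proof. Let `𝔭` be the prime of `O_K` below the place `ι₀`, `𝔭^n = (c α)` with `n ≥ 1` minimal (finiteness
of the class group), so `α` is a `v`-unit: `a = ι₀(α) ∈ ℤ_p^×`, `α c(α) = p^n` (up to a unit of `ℤ`; the
units of `O_K` are roots of unity; adjust). `u` is a `p`-unit, `κ(u)` is its Kummer character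
(`σ β = ζ^{κ(σ)} β`, `β^p = u`) on `𝓛`, zero on `Nf` by D3, E0; `c β` is a `p`-th root of `u⁻¹` and
`c ζ = ζ⁻¹`, so `κ(c σ c) = κ(σ)`; also `h(c σ c) = h(σ)`. If `w` were a coboundary on `P`: pull back
to `V = r⁻¹(𝓛) ≤ Au p`; `h ≠ 0` on `V` (`p ∤ [L_v : ℚ_p]` but `p` divides `[ℚ_p(μ_{p²}) : ℚ_p]`), so
by NA `ι₀(u) = ∏ σ^i z` is the norm of an element `z` of `L_v(μ_{p²})`; taking norms to `ℚ_p` and
H1: `ι₀(u)^m = p^k (1 + p² n)`, `m = 𝓛.index`, `ι₀(u) = p^{-n} a²` so `a^{2m} ≡ 1` modulo `p²`; `p ∤ 2m`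
so `a^{p-1} ≡ 1` modulo `p²` and `a` is a `p`-th power in `ℚ_p` (Hensel). So the Kummer character of
`α` on `𝓛` is trivial on `DDs ∩ 𝓛`, hence zero by `reg`: `α` is a `p`-th power in `L`, hence in `K`
(`p ∤ [L : K]`), contradicting the minimality of `n`. Any other proof is fine. About 500 lines; can be
split: (a) the existence of `α`, (b) the rest. -/
def S_H2 : Prop :=
  ∀ (p : ℕ) [Fact p.Prime] (s : QB) (d : ℕ), Spl p s d → ∀ (ι₀ : QB →ₐ[ℚ] PadicAlgCl p)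
    (𝓛 : Subgroup (GK s)), Lev p 𝓛 ι₀ → ∀ χ : GK s → ℤ_[p], IsCyc p χ →
    ∀ c : QB ≃ₐ[ℚ] QB, IsConj c → ∀ cj : GK s → GK s, (∀ σ x, cj σ x = c (σ (c x))) →
    (∀ σ ∈ 𝓛, cj σ ∈ 𝓛) →
    ∃ h k : GK s → ZMod p, h ∈ HP p 𝓛 ∧ k ∈ HP p 𝓛 ∧ (∀ σ ∈ Nf p 𝓛, h σ = 0) ∧
      (∀ σ ∈ Nf p 𝓛, k σ = 0) ∧ (∀ σ, h (cj σ) = h σ) ∧ (∀ σ, k (cj σ) = k σ) ∧
      ¬ ∃ a : GK s → ZMod p, IsLocallyConstant a ∧ (∀ σ, ∀ τ ∈ Nf p 𝓛, a (σ * τ) = a σ) ∧
        ∀ x ∈ 𝓛, ∀ y ∈ 𝓛, h x * k y = a x + a y - a (x * y)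

/-- **[LG]** (assume E0, F1, G1) a two-cocycle of `Γ` with values in `A(1)` which is trivial on the
decomposition group is trivial.
Proof. `z(δ, n) = z(δ, 1) = 0`, `z(n, δ) = z(1, δ) = 0` for `n ∈ Nf`, so `f` is a homomorphism on
`DDs ∩ Nf` with `f(δ n) = f(δ) + χ(δ) f(n)`. Let `k ≥ 0` and let `N'` be a `TE` on which `χ ≡ 1` modulo
`p^k` and such that `z mod p^k` (coordinates in the basis `b`) is invariant under `N'` in both
variables. The set `(A/p^k) × (G_K/N')` with `(a,g)(a',g') = (a + χ(g) a' - z(g,g'), g g')` is a finite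
group `H`, and `δ ↦ (f δ, δ)` is a homomorphism to it, a `p`-group on `𝓛`; by F1 `f ≡ 0` modulo `p^k` on
`DDs ∩ Nf`. So `f = 0` there, `F(σ) := f(δ)`, `δ ∈ σ Nf ∩ DDs`, is well defined and continuous, and
`z = ∂F`. About 300 lines (`K7/H91/PS/LG` is the case `p = 2`, by another route). -/
def S_LG : Prop :=
  ∀ (p : ℕ) [Fact p.Prime] (s : QB) (d : ℕ), Spl p s d → ∀ (ι₀ : QB →ₐ[ℚ] PadicAlgCl p)
    (𝓛 : Subgroup (GK s)), Lev p 𝓛 ι₀ →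
    ∀ (A : Type) [CommRing A] [IsDomain A] [TopologicalSpace A] [IsTopologicalRing A]
    [Algebra ℤ_[p] A] (r : ℕ) (b : Module.Basis (Fin r) ℤ_[p] A),
    (∀ e, Continuous fun a : A => b.repr a e) → Continuous (fun t : ℤ_[p] => algebraMap ℤ_[p] A t) →
    ∀ χ : GK s → ℤ_[p], IsCyc p χ → ∀ z : GK s → GK s → A,
      Continuous (fun v : GK s × GK s => z v.1 v.2) →
      (∀ σ τ, ∀ n ∈ Nf p 𝓛, z (σ * n) τ = z σ τ) → (∀ σ τ, ∀ n ∈ Nf p 𝓛, z σ (τ * n) = z σ τ) →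
      (∀ x y w, χ x • z y w - z (x * y) w + z x (y * w) - z x y = 0) → z 1 1 = 0 →
      (∃ f : DDs (s := s) ι₀ → A, Continuous f ∧ ∀ δ δ' : DDs (s := s) ι₀,
        z δ δ' = f δ + χ δ • f δ' - f (δ * δ')) →
      ∃ f : GK s → A, Continuous f ∧ ∀ x y, z x y = f x + χ x • f y - f (x * y)

/-- **[TOP]** PORT of `K7/H35/PS/Top`. -/
def S_TOP : Prop :=
  ∀ (p : ℕ) [Fact p.Prime] (A : Type) [CommRing A] [IsDomain A] [IsLocalRing A] [TopologicalSpace A]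
    [IsTopologicalRing A] [Algebra ℤ_[p] A], IsAdic (maximalIdeal A) →
    ∀ (r : ℕ) (b : Module.Basis (Fin r) ℤ_[p] A),
      (p : A) ∈ maximalIdeal A ∧ (p : A) ≠ 0 ∧ Finite (ResidueField A) ∧
      IsAdicComplete (maximalIdeal A) A ∧ IsNoetherianRing A ∧
      (∀ e, Continuous fun a : A => b.repr a e) ∧ Continuous (fun t : ℤ_[p] => algebraMap ℤ_[p] A t)

/-- the `𝓛` of `L = K(μ_p)` -/
def Mu (p : ℕ) (s : QB) : Subgroup (GK s) where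
  carrier := {σ | ∀ ζ : QB, ζ ^ p = 1 → σ ζ = ζ}
  mul_mem' := by
    intro σ τ h h' ζ hζ
    rw [AlgEquiv.mul_apply, h' ζ hζ, h ζ hζ]
  one_mem' := fun ζ _ => rfl
  inv_mem' := by
    intro σ h ζ hζ
    have h1 := congrArg (σ⁻¹ : GK s) (h ζ hζ)
    rw [← AlgEquiv.mul_apply σ⁻¹ σ, inv_mul_cancel, AlgEquiv.one_apply] at h1
    exact h1.symm

/-- **[REG]** (assume D3, C2 or C1 if useful) the example `p = 3`, `K = ℚ(√-2)`, `L = K(μ_3)`.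
Proof of `reg`. `M = K(√-3)`; by Kummer theory `φ` is given by `x`, `x³ = a ∈ M`, and `3 | w(a)` for
all places `w` of `M` that do not divide `3` (`Pool.Agent.Z384.Qd`-type lemmas: elements fixed by the
inertia group have norm an integral power of `q`; `M / ℚ` is ramified at `2`, where the exponent may be
a half integer, but `x³ = a` still gives divisibility by `3`). Let `σ, τ, στ` be the involutions of
`Gal(M/ℚ)`: `a² = N_σ(a) N_τ(a) N_{στ}(a) / N(a)` (`N_σ(a) = a σ(a)` ...), so modulo cubes `a²` is a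
product of elements of `ℚ(√-2)`, `ℚ(√-3)`, `ℚ(√6)` with the same property. These fields have class
number one, with units generated by `-1`, `ζ_6`, `-1` and `5 + 2√6`. So modulo cubes `a²` is in the group
generated by `ζ_3`, `η = √-2 + √-3` (`η² = -5 + 2 √-2 √-3`), `π = 1 + √-2`, `π̄ = 1 - √-2`. In
`M_v = ℚ_3(√-3)` (`√-2 ≡ ± 4` modulo `9`) these four elements are independent modulo cubes:
valuation (`π` or `π̄` is a unit congruent to `± 4` or `± 5`, not `± 1`, modulo `9`), norms to `ℚ_3`,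
cubes of units are `± 1` modulo `9`, `ζ_3 ≡ 1 - λ - λ² - 2 λ³`, `λ = √-3`, modulo `λ⁴ = 9`. So
`a` is a cube in `M` and `φ = 0`. About 600 lines; can be split. -/
def S_REG : Prop :=
  ∀ s : QB, s ^ 2 = -((2 : ℕ) : QB) → ∀ ι₀ : QB →ₐ[ℚ] PadicAlgCl 3, Lev 3 (Mu 3 s) ι₀

end Pool.Agent.L7h48.SG
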