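import Pool.Agent.L7h48.SG.Stm2
import Pool.Agent.L7h60.SG.Kum

/-!
# Project SG, the example: the field `ℚ(√-2, √-3)` in `QB`
-/

set_option autoImplicit false
set_option linter.unusedSectionVars false

namespace Pool.Agent.L7h48.SG

open Pool.Agent.Y715.Gi (QB KK GK)
open Pool.Agent.Y715.Nr Pool.Agent.W237.RK
open Pool.Agent.Y715.Df (Cmp exists_cmp)
open Pool.Agent.Z384 (II DD DDs KK_ex fixK exists_conj norm_gen norm_rat)
open Pool.Agent.L7h60.SG (zc zc_zero kummer zc_inj zc_natCast)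

/-- `‖ι x‖²` is an integral power of `q` for all places that do not divide `3` -/
def RR (x : QB) : Prop := ∀ (q : ℕ) [Fact q.Prime] (ι : QB →ₐ[ℚ] PadicAlgCl q), q ≠ 3 →
  ∃ m : ℤ, ‖ι x‖ ^ 2 = (q : ℝ) ^ m

lemma RR.mul {x y : QB} (hx : RR x) (hy : RR y) : RR (x * y) := by
  intro q _ ι hq
  obtain ⟨m, hm⟩ := hx q ι hq
  obtain ⟨n, hn⟩ := hy q ι hq
  have hq0 : (q : ℝ) ≠ 0 := by exact_mod_cast (Fact.out : q.Prime).ne_zero
  exact ⟨m + n, by rw [map_mul, norm_mul, mul_pow, hm, hn, zpow_add₀ hq0]⟩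

lemma RR.map {x : QB} (hx : RR x) (g : QB ≃ₐ[ℚ] QB) : RR (g x) := by
  intro q _ ι hq
  exact hx q (ι.comp (g : QB →ₐ[ℚ] QB)) hq

lemma RR.nat {n : ℕ} (hn : n ≠ 0) : RR (n : QB) := by
  intro q _ ι _
  have h1 := norm_rat (p := q) (n : ℚ) (by exact_mod_cast hn)
  refine ⟨-padicValRat q n + -padicValRat q n, ?_⟩
  have hq0 : (q : ℝ) ≠ 0 := by exact_mod_cast (Fact.out : q.Prime).ne_zero
  have h2 : (((n : ℚ) : ℚ) : PadicAlgCl q) = ι (n : QB) := by
    rw [map_natCast]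
    push_cast
    rfl
  rw [← h2, h1, pow_two, zpow_add₀ hq0]

variable {s : QB} (hs : s ^ 2 = -((2 : ℕ) : QB))

include hs in
lemma s_irr (r : ℚ) : s ≠ (r : QB) := by
  intro h
  rw [h] at hs
  have h1 : (r ^ 2 : ℚ) = -2 := by
    apply Rat.cast_injective (α := QB)
    rw [Rat.cast_pow, hs]
    push_cast
    rfl
  nlinarith [sq_nonneg r]

lemma sq_ne (q : ℕ) (hq : ¬ IsSquare q) (r : ℚ) : r ^ 2 ≠ q := by
  intro h
  apply hq
  have h1 : IsSquare ((q : ℕ) : ℚ) := ⟨r, by rw [← h, pow_two]⟩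
  rwa [Rat.isSquare_natCast_iff] at h1

/-- irrational elements -/
lemma vl_inj {a b : ℤ} {θ : QB} (hθ : ∀ r : ℚ, θ ≠ (r : QB)) (z : QR a b) (h : vl θ z = 0) :
    z = 0 := by
  unfold vl at h
  have him : z.im = 0 := by
    by_contra hne
    have hne' : (z.im : QB) ≠ 0 := by exact_mod_cast hne
    apply hθ (-(z.re : ℚ) / z.im)
    push_cast
    rw [eq_div_iff hne']
    linear_combination h
  rw [him] at h
  have hre : z.re = 0 := by
    have h2 : (z.re : QB) = 0 := by simpa using h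
    exact_mod_cast h2
  exact QuadraticAlgebra.ext hre him

section

variable {w : QB} (hw : w ^ 2 = -3)

include hw in
lemma w_irr (r : ℚ) : w ≠ (r : QB) := by
  intro h
  rw [h] at hw
  have h1 : (r ^ 2 : ℚ) = -3 := by
    apply Rat.cast_injective (α := QB)
    rw [Rat.cast_pow, hw]
    push_cast
    rfl
  nlinarith [sq_nonneg r]

include hs hw in
lemma w_not_mem : w ∉ KK s := by
  intro h
  obtain ⟨a, b, hab⟩ := KK_ex (d := 2) hs h
  have h1 : (2 * a * b : QB) * s = (-3 - a ^ 2 + 2 * b ^ 2 : QB) := by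
    rw [hab] at hw
    push_cast at hs
    linear_combination hw - (b : QB) ^ 2 * hs
  have hab0 : a * b = 0 := by
    by_contra hne
    have hne' : ((2 * a * b : ℚ) : QB) ≠ 0 := by
      have : (2 * a * b : ℚ) ≠ 0 := by
        intro h0
        apply hne
        linarith
      exact_mod_cast this
    apply s_irr hs ((-3 - a ^ 2 + 2 * b ^ 2) / (2 * a * b))
    rw [Rat.cast_div, eq_div_iff hne']
    push_cast
    linear_combination h1
  have h2 : (-3 - a ^ 2 + 2 * b ^ 2 : ℚ) = 0 := by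
    have h3 : ((2 * (a * b) : ℚ) : QB) * s = ((-3 - a ^ 2 + 2 * b ^ 2 : ℚ) : QB) := by
      push_cast
      linear_combination h1
    rw [hab0] at h3
    have h4 : ((-3 - a ^ 2 + 2 * b ^ 2 : ℚ) : QB) = 0 := by
      rw [← h3]
      push_cast
      ring
    exact_mod_cast h4
  rcases mul_eq_zero.1 hab0 with h5 | h5
  · rw [h5] at h2
    apply sq_ne 6 (by
      rintro ⟨k, hk⟩
      have : k ≤ 2 := by nlinarith
      interval_cases k <;> omega) (2 * b)
    push_cast
    linarith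
  · rw [h5] at h2
    nlinarith [sq_nonneg a]

include hs hw in
lemma exists_tau : ∃ τ : GK s, τ w = -w := by
  by_contra hcon
  push Not at hcon
  apply w_not_mem hs hw
  have h : ∀ σ : GK s, σ w = w := by
    intro σ
    have h1 : (σ w) ^ 2 = w ^ 2 := by rw [← map_pow, hw, map_neg, map_ofNat]
    rcases sq_eq_sq_iff_eq_or_eq_neg.1 h1 with h2 | h2
    · exact h2
    · exact absurd h2 (hcon σ)
  obtain ⟨y, hy⟩ := (InfiniteGalois.mem_bot_iff_fixed (k := KK s) (K := QB) w).2 h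
  rw [← hy]
  exact y.2

include hs hw in
lemma exists_c1 : ∃ c : QB ≃ₐ[ℚ] QB, c s = -s ∧ c w = w := by
  obtain ⟨c, hc⟩ := exists_conj (d := 2) hs two_ne_zero
  obtain ⟨τ, hτ⟩ := exists_tau hs hw
  have h1 : (c w) ^ 2 = w ^ 2 := by rw [← map_pow, hw, map_neg, map_ofNat]
  rcases sq_eq_sq_iff_eq_or_eq_neg.1 h1 with h2 | h2
  · exact ⟨c, hc, h2⟩
  · refine ⟨(τ.restrictScalars ℚ).trans c, ?_, ?_⟩
    · show c (τ s) = -s
      rw [fixK τ (IntermediateField.mem_adjoin_simple_self ℚ s), hc]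
    · show c (τ w) = w
      rw [hτ, map_neg, h2, neg_neg]

end

end Pool.Agent.L7h48.SG
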