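import Pool.Agent.L7h48.SG.Regc

/-!
# Project SG, the example `p = 3`, `K = ℚ(√-2)`, `L = K(μ_3)`
-/

set_option autoImplicit false
set_option linter.unusedSectionVars false

namespace Pool.Agent.L7h48.SG

open Pool.Agent.Y715.Gi (QB KK GK)
open Pool.Agent.Y715.Nr Pool.Agent.W237.RK
open Pool.Agent.Y715.Df (Cmp exists_cmp)
open Pool.Agent.Z384 (II DD DDs KK_ex fixK exists_conj norm_gen norm_rat)
open Pool.Agent.L7h60.SG (zc zc_zero kummer zc_inj zc_natCast)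

/-- `p = 3` splits in `ℚ(√-2)` -/
lemma spl_three {s : QB} (hs : s ^ 2 = -((2 : ℕ) : QB)) : Spl 3 s 2 where
  odd := by norm_num
  pos := by norm_num
  sq := hs
  loc := by
    obtain ⟨t, ht⟩ := exists_t
    exact ⟨t, by rw [ht]; norm_num⟩

lemma isOpen_Mu {s w : QB} (hw : w ^ 2 = -3) : IsOpen (Mu 3 s : Set (GK s)) := by
  have h : (IntermediateField.adjoin (KK s) {w}).fixingSubgroup ≤ Mu 3 s := by
    intro σ hσ
    rw [mem_Mu_iff hw]
    exact (IntermediateField.mem_fixingSubgroup_iff _ _).1 hσ w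
      (IntermediateField.mem_adjoin_simple_self _ w)
  have hfin : FiniteDimensional (KK s) (IntermediateField.adjoin (KK s) {w}) :=
    IntermediateField.adjoin.finiteDimensional (Algebra.IsAlgebraic.isAlgebraic w).isIntegral
  exact Subgroup.isOpen_mono h
    (IntermediateField.fixingSubgroup_isOpen (IntermediateField.adjoin (KK s) {w}))

/-- a common denominator -/
lemma exists_den (r₁ r₂ r₃ r₄ : ℚ) : ∃ n : ℕ, n ≠ 0 ∧ ∃ a₁ a₂ a₃ a₄ : ℤ,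
    (n : ℚ) * r₁ = a₁ ∧ (n : ℚ) * r₂ = a₂ ∧ (n : ℚ) * r₃ = a₃ ∧ (n : ℚ) * r₄ = a₄ := by
  refine ⟨r₁.den * r₂.den * r₃.den * r₄.den, by
    simp [Rat.den_nz], r₁.num * r₂.den * r₃.den * r₄.den, r₁.den * r₂.num * r₃.den * r₄.den,
    r₁.den * r₂.den * r₃.num * r₄.den, r₁.den * r₂.den * r₃.den * r₄.num, ?_, ?_, ?_, ?_⟩
  · push_cast
    have := Rat.mul_den_eq_num r₁
    linear_combination (r₂.den * r₃.den * r₄.den : ℚ) * this
  · push_cast
    have := Rat.mul_den_eq_num r₂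
    linear_combination (r₁.den * r₃.den * r₄.den : ℚ) * this
  · push_cast
    have := Rat.mul_den_eq_num r₃
    linear_combination (r₁.den * r₂.den * r₄.den : ℚ) * this
  · push_cast
    have := Rat.mul_den_eq_num r₄
    linear_combination (r₁.den * r₂.den * r₃.den : ℚ) * this

lemma IF_ex {s w : QB} (hs : s ^ 2 = -((2 : ℕ) : QB)) (hw : w ^ 2 = -3) {a : QB}
    (ha : InF s w a) : ∃ r₁ r₂ r₃ r₄ : ℚ, a = (r₁ + r₂ * s) + (r₃ + r₄ * s) * w := by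
  obtain ⟨τ, hτ⟩ := exists_tau hs hw
  obtain ⟨u, v, huv⟩ := quad (k := KK s) (Ω := QB) w (w_ne hw) (fun σ => by
      have h1 : (σ w) ^ 2 = w ^ 2 := by rw [← map_pow, hw, map_neg, map_ofNat]
      exact sq_eq_sq_iff_eq_or_eq_neg.1 h1) τ hτ a ha
  obtain ⟨r₁, r₂, h1⟩ := KK_ex (d := 2) hs u.2
  obtain ⟨r₃, r₄, h2⟩ := KK_ex (d := 2) hs v.2
  refine ⟨r₁, r₂, r₃, r₄, ?_⟩
  rw [huv]
  have e1 : algebraMap (KK s) QB u = (u : QB) := rfl
  have e2 : algebraMap (KK s) QB v = (v : QB) := rfl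
  rw [e1, e2, h1, h2]

theorem reg_three (hCU : S_CU) (hZ1 : S_Z1) (hZ2 : S_Z2) (hZ3 : S_Z3) (hLO : S_LO) {s w : QB}
    (hs : s ^ 2 = -((2 : ℕ) : QB)) (hw : w ^ 2 = -3) (ι₀ : QB →ₐ[ℚ] PadicAlgCl 3)
    (hunr : ∀ σ : GK s, Ram 3 σ → σ ∈ Mu 3 s) (φ : GK s → ZMod 3) (hφ : φ ∈ HP 3 (Mu 3 s))
    (hφR : ∀ σ, Ram 3 σ → φ σ = 0) (hφD : ∀ σ ∈ DDs ι₀, σ ∈ Mu 3 s → φ σ = 0) : φ = 0 := by
  have hζ : IsPrimitiveRoot ((-1 + w) / 2) 3 := by
    have : Fact (Nat.Prime 3) := ⟨Nat.prime_three⟩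
    rw [IsPrimitiveRoot.iff_orderOf]
    apply orderOf_eq_prime
    · linear_combination ((-3 + w) / 8) * hw
    · intro h
      apply w_irr hw 3
      push_cast
      linear_combination 2 * h
  set ζ : QB := (-1 + w) / 2 with hζd
  obtain ⟨x, hx0, hx⟩ := kummer (K := KK s) (Ω := QB) 3 (Mu 3 s) (isOpen_Mu hw) ζ hζ
    (fun τ hτ => hτ ζ hζ.pow_eq_one) φ hφ
  -- the cube
  have hzc : ∀ a : ZMod 3, (zc ζ a) ^ 3 = 1 := by
    intro a
    unfold zc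
    rw [← pow_mul, mul_comm, pow_mul, hζ.pow_eq_one, one_pow]
  have hxF : InF s w (x ^ 3) := by
    intro σ hσ
    rw [map_pow, hx σ ((mem_Mu_iff hw σ).2 hσ), mul_pow, hzc, one_mul]
  obtain ⟨r₁, r₂, r₃, r₄, hr⟩ := IF_ex hs hw hxF
  obtain ⟨n, hn, a₁, a₂, a₃, a₄, e1, e2, e3, e4⟩ := exists_den r₁ r₂ r₃ r₄
  have hnQ : (n : QB) ≠ 0 := by exact_mod_cast hn
  set X : QB := n * x with hX
  have hX0 : X ≠ 0 := mul_ne_zero hnQ hx0
  have hXs : ∀ σ ∈ Mu 3 s, σ X = zc ζ (φ σ) * X := by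
    intro σ hσ
    rw [hX, map_mul, map_natCast, hx σ hσ]
    ring
  have hXF : InF s w (X ^ 3) := by
    intro σ hσ
    rw [map_pow, hXs σ ((mem_Mu_iff hw σ).2 hσ), mul_pow, hzc, one_mul]
  have hX3 : X ^ 3 = (((n ^ 2 * a₁ : ℤ) : QB) + ((n ^ 2 * a₂ : ℤ) : QB) * s) +
      (((n ^ 2 * a₃ : ℤ) : QB) + ((n ^ 2 * a₄ : ℤ) : QB) * s) * w := by
    have f1 : (a₁ : QB) = n * r₁ := by exact_mod_cast congrArg (fun y : ℚ => (y : QB)) e1.symm
    have f2 : (a₂ : QB) = n * r₂ := by exact_mod_cast congrArg (fun y : ℚ => (y : QB)) e2.symm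
    have f3 : (a₃ : QB) = n * r₃ := by exact_mod_cast congrArg (fun y : ℚ => (y : QB)) e3.symm
    have f4 : (a₄ : QB) = n * r₄ := by exact_mod_cast congrArg (fun y : ℚ => (y : QB)) e4.symm
    push_cast
    rw [hX, mul_pow, hr, f1, f2, f3, f4]
    ring
  -- the places
  have hR : RR X := by
    intro q _ ι hq
    have hS : (ι s) ^ 2 = -((2 : ℕ) : PadicAlgCl q) := by
      rw [← map_pow, hs, map_neg, map_natCast]
    refine norm_gen (p := q) hS ((map_ne_zero ι).2 hX0) (fun τ hτ hτS => ?_)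
    obtain ⟨σ, hσ⟩ := exists_cmp ι τ hτS
    have hRam : Ram 3 σ := ⟨q, inferInstance, ι, hq, τ, hσ, hτ⟩
    rw [hσ, hXs σ (hunr σ hRam), hφR σ hRam, zc_zero, one_mul]
  have hSb := three_norms hs hw hCU hZ1 hZ2 hZ3 hX0 hR _ _ _ _ hX3
  have hXin := local_concl hs hw hLO ι₀ hX0 hXF hSb (fun τ hτ => by
    obtain ⟨t, _, hts⟩ := exists_ts hs ι₀
    obtain ⟨σ, hσ⟩ := exists_cmp ι₀ τ (by rw [hts, AlgEquiv.commutes])
    have h2 : σ w = w := by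
      refine ι₀.injective ?_
      show ι₀ (σ w) = ι₀ w
      rw [← hσ]
      exact hτ
    have h3 : σ ∈ Mu 3 s := (mem_Mu_iff hw σ).2 h2
    rw [hσ, hXs σ h3, hφD σ ⟨τ, hσ⟩ h3, zc_zero, one_mul])
  funext σ
  by_cases hσ : σ ∈ Mu 3 s
  · have h1 := hXs σ hσ
    rw [hXin σ ((mem_Mu_iff hw σ).1 hσ)] at h1
    have h2 : zc ζ (φ σ) = 1 := by
      have := mul_right_cancel₀ hX0 ((one_mul X).trans h1)
      exact this.symm
    apply zc_inj hζ
    rw [h2]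
    exact zc_zero.symm
  · exact hφ.2.2 σ hσ

/-- **REG** -/
theorem s_REG (hD3 : S_D3) (hZ1 : S_Z1) (hZ2 : S_Z2) (hZ3 : S_Z3) (hCU : S_CU) (hLO : S_LO) :
    S_REG := by
  intro s hs ι₀
  obtain ⟨w, hw⟩ : ∃ w : QB, w ^ 2 = -3 := IsAlgClosed.exists_pow_nat_eq (-3) (by norm_num)
  obtain ⟨τ, hτ⟩ := exists_tau hs hw
  have hw0 := w_ne hw
  have hor : ∀ σ : GK s, σ w = w ∨ σ w = -w := by
    intro σ
    have h1 : (σ w) ^ 2 = w ^ 2 := by rw [← map_pow, hw, map_neg, map_ofNat]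
    exact sq_eq_sq_iff_eq_or_eq_neg.1 h1
  have hunr : ∀ σ : GK s, Ram 3 σ → σ ∈ Mu 3 s := by
    rintro σ ⟨q, hq, ι, hq3, hσ⟩ ζ hζ
    refine hD3 3 s q ι hq3 σ hσ ζ 1 ?_ ?_
    · rw [pow_one, hζ]
      exact ⟨one_ne_zero, 0, by simpa using isIntegral_one, by simpa using isIntegral_one⟩
    · rw [pow_one, hζ, map_one]
  refine ⟨isOpen_Mu hw, ?_, ?_, fun σ hσ => hσ, hunr, ?_, ?_⟩
  · constructor
    intro σ hσ g
    intro ζ hζ
    have h1 : (g⁻¹ : GK s) ζ ^ 3 = 1 := by rw [← map_pow, hζ, map_one]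
    rw [AlgEquiv.mul_apply, AlgEquiv.mul_apply, hσ _ h1, ← AlgEquiv.mul_apply, mul_inv_cancel]
    rfl
  · have h2 : (Mu 3 s).index = 2 := by
      rw [Subgroup.index_eq_two_iff]
      refine ⟨τ, fun b => ?_⟩
      rw [mem_Mu_iff hw, mem_Mu_iff hw, AlgEquiv.mul_apply, hτ, map_neg]
      rcases hor b with h | h
      · right
        refine ⟨h, ?_⟩
        rw [h]
        exact fun h' => hw0 (by linear_combination (-1 / 2 : QB) * h')
      · left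
        refine ⟨by rw [h, neg_neg], ?_⟩
        rw [h]
        exact fun h' => hw0 (by linear_combination (-1 / 2 : QB) * h')
    rw [h2]
    norm_num
  · intro g
    rcases hor g with h | h
    · exact ⟨1, Subgroup.one_mem _, by rw [inv_one, one_mul, mem_Mu_iff hw, h]⟩
    · have hW : (ι₀ w) ^ 2 = -3 := by rw [← map_pow, hw, map_neg, map_ofNat]
      obtain ⟨τ₀, hτ₀⟩ := exists_neg_tau hW
      obtain ⟨t, _, hts⟩ := exists_ts hs ι₀
      obtain ⟨δ, hδ⟩ := exists_cmp ι₀ τ₀ (by rw [hts, AlgEquiv.commutes])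
      have h2 : δ w = -w := by
        refine ι₀.injective ?_
        show ι₀ (δ w) = ι₀ (-w)
        rw [← hδ, hτ₀, map_neg]
      have h3 : (δ⁻¹ : GK s) w = -w := by
        have := congrArg (δ⁻¹ : GK s) h2
        rw [← AlgEquiv.mul_apply, inv_mul_cancel, AlgEquiv.one_apply, map_neg] at this
        exact (neg_eq_iff_eq_neg.2 this).symm
      refine ⟨δ, ⟨τ₀, hδ⟩, ?_⟩
      rw [mem_Mu_iff hw, AlgEquiv.mul_apply, h, map_neg, h3, neg_neg]
  · exact fun φ hφ h1 h2 => reg_three hCU hZ1 hZ2 hZ3 hLO hs hw ι₀ hunr φ hφ h1 h2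

end Pool.Agent.L7h48.SG
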