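import Pool.Agent.L7h48.SG.J7
import Pool.Agent.L7h22.SG.Av
import Pool.Agent.L7h22.SG.B2
import Pool.Agent.L7h22.SG.C2
import Pool.Agent.L7h22.SG.D2
import Pool.Agent.L7h22.SG.E2
import Pool.Agent.L7h22.SG.Hei
import Pool.Agent.L7h22.SG.Sho
import Pool.Agent.L7h22.SG.Sht
import Pool.Agent.L7h22.SG.Trf
import Pool.Agent.L7h23.SG.Main
import Pool.Agent.L7h23.SG.Cnt
import Pool.Agent.L7h23.SG.Krs
import Pool.Agent.L7h60.SG.F1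
import Pool.Agent.L7h60.SG.F2
import Pool.Agent.L7h60.SG.H1b
import Pool.Agent.L7h60.SG.Na
import Pool.Agent.L7h60.SG.Nb
import Pool.Agent.L7h60.SG.Ng
import Pool.Agent.L7h79.SG.D1
import Pool.Agent.L7h79.SG.D3
import Pool.Agent.L7h79.SG.E0
import Pool.Agent.L7h79.SG.E1
import Pool.Agent.L7h79.SG.G1
import Pool.Agent.L7h79.SG.G2
import Pool.Agent.L7h79.SG.Lg
import Pool.Agent.L7h79.SG.Top
import Pool.Agent.L7h15.SG.H2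
import Pool.Agent.L7h48.SG.Regd
import Pool.Agent.L7h23.SG.Cu
import Pool.Agent.L7h23.SG.Zq
import Pool.Agent.L7h79.SG.LO
import Pool.Agent.L7h79.SG.Pl

/-!
# Project SG: all the parts
-/

set_option autoImplicit false

namespace Pool.Agent.L7h48.SG

open Pool.Agent.Y715.Gi (QB KK GK)
open Pool.Agent.Z384 (II DD DDs)

theorem f_D2 : S_D2 := Pool.Agent.L7h22.SG.s_D2 Pool.Agent.L7h79.SG.s_D1

theorem f_E2 : S_E2 := Pool.Agent.L7h22.SG.s_E2 Pool.Agent.L7h22.SG.s_C2 f_D2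
  Pool.Agent.L7h79.SG.s_D3 Pool.Agent.L7h79.SG.s_E0 Pool.Agent.L7h79.SG.s_E1

theorem f_MAIN : S_MAIN := Pool.Agent.L7h23.SG.s_MAIN
  (Pool.Agent.L7h23.SG.s_CNT Pool.Agent.L7h22.SG.s_HEI Pool.Agent.L7h22.SG.s_SHO)
  (Pool.Agent.L7h23.SG.s_KRS Pool.Agent.L7h22.SG.s_SHT) Pool.Agent.L7h22.SG.s_TRF
  Pool.Agent.L7h22.SG.s_SHO

theorem f_F1 : S_F1 := Pool.Agent.L7h60.SG.s_F1 Pool.Agent.L7h79.SG.s_E0 f_E2

theorem f_NG : S_NG := Pool.Agent.L7h60.SG.s_NG Pool.Agent.L7h22.SG.s_C2 Pool.Agent.L7h79.SG.s_E0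
  Pool.Agent.L7h79.SG.s_E1 f_E2 Pool.Agent.L7h60.SG.s_NB

theorem f_G1 : S_G1 := Pool.Agent.L7h79.SG.s_G1 Pool.Agent.L7h79.SG.s_D3

theorem f_G2 : S_G2 := Pool.Agent.L7h79.SG.s_G2 Pool.Agent.L7h79.SG.s_E0 f_E2
  Pool.Agent.L7h79.SG.s_D3

theorem f_LG : S_LG := Pool.Agent.L7h79.SG.s_LG Pool.Agent.L7h79.SG.s_E0 f_F1 f_G1

theorem f_F2 : S_F2 := Pool.Agent.L7h60.SG.F2.s_F2 Pool.Agent.L7h79.SG.s_E0
  Pool.Agent.L7h79.SG.s_E1 f_F1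

theorem f_H2 : S_H2 := Pool.Agent.L7h15.SG.s_H2 Pool.Agent.L7h79.SG.s_E0 Pool.Agent.L7h79.SG.s_E1
  Pool.Agent.L7h79.SG.s_D3 f_G1 Pool.Agent.L7h60.SG.s_NA Pool.Agent.L7h60.SG.s_H1

theorem f_DAT : S_DAT := s_DAT Pool.Agent.L7h22.SG.s_B f_MAIN
  Pool.Agent.L7h79.SG.s_E0 f_E2 f_NG f_G1 f_G2 f_H2

theorem f_REG : S_REG := s_REG Pool.Agent.L7h79.SG.s_D3 Pool.Agent.L7h23.SG.s_Z1
  Pool.Agent.L7h23.SG.s_Z2 Pool.Agent.L7h23.SG.s_Z3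
  (Pool.Agent.L7h23.SG.s_CU Pool.Agent.L7h79.SG.Pl.s_PL) Pool.Agent.L7h79.SG.LO.s_LO

end Pool.Agent.L7h48.SG
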