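import Pool.Agent.L7h48.SG.Stm
import Pool.Agent.H76.PS.I6

/-!
# Project SG, assembly: conjugation, extensions of representations by cocycles
-/

set_option autoImplicit false
set_option linter.unusedSectionVars false

namespace Pool.Agent.L7h48.SG

open Pool.Agent.Y715.Gi (QB KK GK)
open Pool.Agent.Y715.Nr Pool.Agent.W237.RK
open Pool.Agent.Y715.Df (Cmp)
open Pool.Agent.Z384 (II DD DDs InI)
open Pool.Agent.H76.PS (isOpen_fix ext_val ext_mem ext_unip ext_cont ext_one em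
  act_em em_inj BC BV scal pair_em dot_tr dot_trF pair_aux dot_sym)
open Matrix IsLocalRing

section conj

variable {s : QB} {c : QB ≃ₐ[ℚ] QB} {cj : GK s → GK s}

lemma IsConj.old (hc : IsConj c) : Pool.Agent.H76.PS.IsConj c := hc

lemma IsConj.invol (hc : IsConj c) (x : QB) : c (c x) = x := hc.old.invol x

lemma cj_mul (hc : IsConj c) (hcj : ∀ σ x, cj σ x = c (σ (c x))) (σ τ : GK s) :
    cj (σ * τ) = cj σ * cj τ := Pool.Agent.H76.PS.cj_mul hc.old hcj σ τ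

lemma cj_cj (hc : IsConj c) (hcj : ∀ σ x, cj σ x = c (σ (c x))) (σ : GK s) : cj (cj σ) = σ :=
  Pool.Agent.H76.PS.cj_cj hc.old hcj σ

/-- the conjugation as a homomorphism -/
noncomputable def cjh (hc : IsConj c) (hcj : ∀ σ x, cj σ x = c (σ (c x))) : GK s →* GK s :=
  MonoidHom.mk' cj (cj_mul hc hcj)

lemma cj_cont (hc : IsConj c) (hcj : ∀ σ x, cj σ x = c (σ (c x))) : Continuous cj :=
  Pool.Agent.H76.PS.cj_cont hc.old hcj

lemma ram_cj (p : ℕ) [Fact p.Prime] (hc : IsConj c) (hcj : ∀ σ x, cj σ x = c (σ (c x))) {σ : GK s}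
    (h : Ram p σ) : Ram p (cj σ) := by
  obtain ⟨q, hq, ι, hqp, hσ⟩ := h
  exact ⟨q, hq, _, hqp, Pool.Agent.H76.PS.II_cj hc.old hcj hσ⟩

variable (p : ℕ) [Fact p.Prime] {𝓛 : Subgroup (GK s)}

lemma te_cj (hc : IsConj c) (hcj : ∀ σ x, cj σ x = c (σ (c x))) (hL : ∀ σ ∈ 𝓛, cj σ ∈ 𝓛)
    {N : Subgroup (GK s)} (hN : TE p 𝓛 N) : TE p 𝓛 (N.comap (cjh hc hcj)) where
  isOpen := hN.isOpen.preimage (cj_cont hc hcj)
  normal := hN.normal.comap _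
  le := by
    intro σ hσ
    have h1 := hL _ (hN.le hσ)
    have h2 : cj (cj σ) = σ := cj_cj hc hcj σ
    rw [← h2]
    exact h1
  index := by
    obtain ⟨a, ha⟩ := hN.index
    have hsurj : Function.Surjective (cjh hc hcj) := fun σ => ⟨cj σ, cj_cj hc hcj σ⟩
    have h1 : 𝓛.comap (cjh hc hcj) = 𝓛 := by
      ext σ
      constructor
      · intro h
        have h2 : cj (cj σ) = σ := cj_cj hc hcj σ
        rw [← h2]
        exact hL _ h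
      · exact fun h => hL σ h
    refine ⟨a, ?_⟩
    have h3 : (N.comap (cjh hc hcj)).relIndex (𝓛.comap (cjh hc hcj)) = N.relIndex 𝓛 := by
      rw [Subgroup.relIndex_comap, Subgroup.map_comap_eq_self_of_surjective hsurj]
    rw [← ha, ← h3, h1]
  unramified σ hσ := hN.unramified _ (ram_cj p hc hcj hσ)

lemma cj_Nf (hc : IsConj c) (hcj : ∀ σ x, cj σ x = c (σ (c x))) (hL : ∀ σ ∈ 𝓛, cj σ ∈ 𝓛)
    {σ : GK s} (hσ : σ ∈ Nf p 𝓛) : cj σ ∈ Nf p 𝓛 := by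
  rw [Nf, Subgroup.mem_sInf] at hσ ⊢
  intro N hN
  exact hσ _ (te_cj p hc hcj hL hN)

/-- the conjugation on the quotient -/
noncomputable def cq (hc : IsConj c) (hcj : ∀ σ x, cj σ x = c (σ (c x)))
    (hL : ∀ σ ∈ 𝓛, cj σ ∈ 𝓛) : Gs p 𝓛 →* Gs p 𝓛 :=
  QuotientGroup.map (Nf p 𝓛) (Nf p 𝓛) (cjh hc hcj) fun _ h => cj_Nf p hc hcj hL h

lemma cq_mk (hc : IsConj c) (hcj : ∀ σ x, cj σ x = c (σ (c x))) (hL : ∀ σ ∈ 𝓛, cj σ ∈ 𝓛)
    (σ : GK s) : cq p hc hcj hL (QuotientGroup.mk σ) = QuotientGroup.mk (cj σ) := rfl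

lemma cq_cont (hc : IsConj c) (hcj : ∀ σ x, cj σ x = c (σ (c x))) (hL : ∀ σ ∈ 𝓛, cj σ ∈ 𝓛) :
    Continuous (cq p hc hcj hL) := by
  refine QuotientGroup.isOpenQuotientMap_mk.isQuotientMap.continuous_iff.2 ?_
  exact QuotientGroup.continuous_mk.comp (cj_cont hc hcj)

lemma cq_cq (hc : IsConj c) (hcj : ∀ σ x, cj σ x = c (σ (c x))) (hL : ∀ σ ∈ 𝓛, cj σ ∈ 𝓛)
    (x : Gs p 𝓛) : cq p hc hcj hL (cq p hc hcj hL x) = x := by
  obtain ⟨σ, rfl⟩ := QuotientGroup.mk_surjective x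
  rw [cq_mk, cq_mk, cj_cj hc hcj]

lemma conj_root (hc : IsConj c) {m : ℕ} {ζ : QB} (hζ : ζ ^ p ^ m = 1) : c ζ = ζ⁻¹ := by
  obtain ⟨j, hj⟩ := hc
  apply j.injective
  rw [hj, map_inv₀]
  have h1 : (j ζ) ^ p ^ m = 1 := by rw [← map_pow, hζ, map_one]
  have h2 : ‖j ζ‖ = 1 := Complex.norm_eq_one_of_pow_eq_one h1
    (pow_ne_zero _ (Fact.out : p.Prime).ne_zero)
  exact (Complex.inv_eq_conj h2).symm

lemma cyc_unique {χ χ' : GK s → ℤ_[p]} (h : IsCyc p χ) (h' : IsCyc p χ') : χ = χ' := by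
  funext σ
  refine PadicInt.ext_of_toZModPow.1 fun m => ?_
  have : NeZero (p ^ m) := ⟨pow_ne_zero _ (Fact.out : p.Prime).ne_zero⟩
  obtain ⟨ζ, hζ⟩ := HasEnoughRootsOfUnity.exists_primitiveRoot QB (p ^ m)
  have h1 := h σ m ζ hζ.pow_eq_one
  have h2 := h' σ m ζ hζ.pow_eq_one
  rw [h1] at h2
  have h3 := hζ.pow_inj (ZMod.val_lt _) (ZMod.val_lt _) h2
  exact ZMod.val_injective _ h3

lemma cyc_cj (hc : IsConj c) (hcj : ∀ σ x, cj σ x = c (σ (c x))) {χ : GK s → ℤ_[p]}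
    (hχ : IsCyc p χ) (σ : GK s) : χ (cj σ) = χ σ := by
  refine congrFun (cyc_unique p (χ := fun σ => χ (cj σ)) (fun σ m ζ hζ => ?_) hχ) σ
  have h1 := hχ (cj σ) m ζ hζ
  have h2 : (ζ⁻¹) ^ p ^ m = 1 := by rw [inv_pow, hζ, inv_one]
  have h3 : cj (cj σ) ζ = σ ζ := by rw [cj_cj hc hcj]
  rw [← h3, hcj, conj_root p hc hζ]
  rw [hχ (cj σ) m _ h2, map_pow, conj_root p hc h2, inv_inv]

end conj

section rp

variable {p : ℕ} [Fact p.Prime] {s : QB} {𝓛 : Subgroup (GK s)} {A : Type} [CommRing A]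
  [IsLocalRing A] [TopologicalSpace A] {n : ℕ}

theorem rp_ext {ρ : GK s →* GL (Fin n) A} (hρ : Rp p 𝓛 ρ)
    {x : GK s → Fin n → A} (hx : Continuous x)
    (hc : ∀ σ τ, x (σ * τ) = x σ + (ρ σ : Matrix (Fin n) (Fin n) A) *ᵥ x τ)
    (hu : ∀ σ : GK s, Ram p σ → x σ = 0) : Rp p 𝓛 (Pool.Agent.H76.PS.ext ρ x hc) where
  cont := ext_cont ρ x hc hρ.cont hx
  unipotent σ hσ := by
    obtain ⟨m, hm⟩ := hρ.unipotent σ hσ
    exact ⟨m + 1, ext_unip ρ x hc σ hm⟩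
  unramified σ hσ := ext_one ρ x hc (hρ.unramified σ hσ) (hu σ hσ)

theorem coc_Nf (hF2 : S_F2) {d : ℕ} (hs : Spl p s d) {ι₀ : QB →ₐ[ℚ] PadicAlgCl p}
    (hL : Lev p 𝓛 ι₀) [IsNoetherianRing A] [IsTopologicalRing A] (hA : IsAdic (maximalIdeal A))
    (hcomp : IsAdicComplete (maximalIdeal A) A) (hfin : Finite (ResidueField A))
    (h2 : (p : A) ∈ maximalIdeal A) {ρ : GK s →* GL (Fin n) A} (hρ : Rp p 𝓛 ρ)
    {x : GK s → Fin n → A} (hx : Continuous x)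
    (hc : ∀ σ τ, x (σ * τ) = x σ + (ρ σ : Matrix (Fin n) (Fin n) A) *ᵥ x τ)
    (hu : ∀ σ : GK s, Ram p σ → x σ = 0) {σ : GK s} (hσ : σ ∈ Nf p 𝓛) : x σ = 0 := by
  have h1 := (hF2 p s d hs ι₀ 𝓛 hL A hA hcomp hfin h2 (n + 1) _ (rp_ext hρ hx hc hu)).1 σ hσ
  have h3 : InI (⊥ : Ideal A) ((Pool.Agent.H76.PS.ext ρ x hc σ : Matrix (Fin (n + 1)) (Fin (n + 1)) A) - 1) := by
    intro i j
    rw [h1, Units.val_one, sub_self]
    exact zero_mem _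
  exact funext fun i => (Submodule.mem_bot A).1 ((ext_mem ρ x hc σ h3).2 i)

end rp

end Pool.Agent.L7h48.SG
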