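import Pool.Agent.L7h48.SG.J2

/-!
# Project SG, assembly: cocycles and orthogonality (port of `H76/PS/I5, I6`)
-/

set_option autoImplicit false
set_option linter.unusedSectionVars false

namespace Pool.Agent.L7h48.SG

open Pool.Agent.Y715.Gi (QB KK GK)
open Pool.Agent.Y715.Nr Pool.Agent.W237.RK
open Pool.Agent.Z384 (II DD DDs InI krull act act_apply act_mul act_emb)
open Pool.Agent.H76.PS (em act_em em_inj BC BV scal dot_trF)
open Matrix IsLocalRing

section glob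

variable {p : ℕ} [Fact p.Prime] {s : QB} {𝓛 : Subgroup (GK s)}
  {A : Type} [CommRing A] [IsDomain A] [IsLocalRing A] [IsNoetherianRing A]
  [TopologicalSpace A] [IsTopologicalRing A]
  {F : Type} [Field F] [Algebra A F] [IsFractionRing A F] {n : ℕ}

/-- global cocycles unramified outside two -/
structure GC (p : ℕ) [Fact p.Prime] (ρ : GK s →* GL (Fin n) A) (z : GK s → Fin n → F) : Prop where
  mul : ∀ σ τ, z (σ * τ) = z σ + act F ρ σ (z τ)
  cont : BV A z
  unr : ∀ σ : GK s, Ram p σ → z σ = 0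

/-- local cocycles -/
structure LC (ρ : GK s →* GL (Fin n) A) (ι₀ : QB →ₐ[ℚ] PadicAlgCl p)
    (l : DDs (s := s) ι₀ → Fin n → F) : Prop where
  mul : ∀ δ δ', l (δ * δ') = l δ + act F ρ (δ : GK s) (l δ')
  cont : BV A l

lemma GC.sum {ρ : GK s →* GL (Fin n) A} {k : ℕ} {x : Fin k → GK s → Fin n → F}
    (hx : ∀ j, GC p ρ (x j)) (u : Fin k → F) : GC p ρ (fun σ => ∑ j, u j • x j σ) where
  mul σ τ := by
    rw [map_sum, ← Finset.sum_add_distrib]
    refine Finset.sum_congr rfl fun i _ => ?_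
    rw [map_smul, ← smul_add, (hx i).mul]
  cont := BV.sum _ _ (fun i => (hx i).cont) u
  unr σ hσ := Finset.sum_eq_zero fun i _ => by rw [(hx i).unr σ hσ, smul_zero]

lemma GC.sub {ρ : GK s →* GL (Fin n) A} {y z : GK s → Fin n → F} (hy : GC p ρ y) (hz : GC p ρ z) :
    GC p ρ (fun σ => y σ - z σ) where
  mul σ τ := by
    rw [hy.mul, hz.mul, map_sub]
    abel
  cont := by
    have := hy.cont.add (hz.cont.smul (-1))
    simpa only [neg_smul, one_smul, ← sub_eq_add_neg] using this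
  unr σ hσ := by rw [hy.unr σ hσ, hz.unr σ hσ, sub_zero]

/-- the localization is injective on the classes unramified outside `p` -/
theorem inj_glob (hE0 : S_E0) (hF2 : S_F2) {d : ℕ} (hs : Spl p s d)
    {ι₀ : QB →ₐ[ℚ] PadicAlgCl p} (hL : Lev p 𝓛 ι₀)
    (hA : IsAdic (maximalIdeal A)) (hcomp : IsAdicComplete (maximalIdeal A) A)
    (hfin : Finite (ResidueField A)) (h2 : (p : A) ∈ maximalIdeal A)
    {ρ : GK s →* GL (Fin n) A} (hρ : Rp p 𝓛 ρ)
    {c : GK s → Fin n → F} (hc : GC p ρ c) {v : Fin n → F}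
    (hv : ∀ δ ∈ DDs (s := s) ι₀, c δ = act F ρ δ v - v) (σ : GK s) : c σ = act F ρ σ v - v := by
  classical
  have hρN := (hF2 p s d hs ι₀ 𝓛 hL A hA hcomp hfin h2 n ρ hρ).1
  have hcN : ∀ σ ∈ Nf p 𝓛, c σ = 0 := by
    obtain ⟨a, b, ha, hb, hab⟩ := hc.cont
    have hb1 : ∀ σ, em F (b σ) = algebraMap A F a • c σ := fun σ => funext fun i => (hab σ i).symm
    have hemadd : ∀ x y : Fin n → A, em F (x + y) = em F x + em F y := fun x y => by
      funext i
      exact map_add _ _ _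
    have hcoc : ∀ σ τ, b (σ * τ) = b σ + ((ρ σ : Matrix (Fin n) (Fin n) A) *ᵥ b τ) := by
      intro σ τ
      apply em_inj (F := F)
      rw [hemadd, ← act_em, hb1, hb1, hb1, hc.mul, smul_add, map_smul]
    intro σ hσ
    have h3 := coc_Nf hF2 hs hL hA hcomp hfin h2 hρ hb hcoc (fun τ hτ => by
      apply em_inj (F := F)
      rw [hb1, hc.unr τ hτ, smul_zero]
      funext i
      exact (map_zero _).symm) hσ
    have h4 := hb1 σ
    rw [h3] at h4
    have h5 : em F (0 : Fin n → A) = 0 := by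
      funext i
      exact map_zero _
    rw [h5] at h4
    exact (smul_eq_zero.1 h4.symm).resolve_left ha
  obtain ⟨δ, hδ, hδσ⟩ := (hE0 p s d hs ι₀ 𝓛 hL).2.2.2.2.2.2.2.2.2.2.2 σ
  have e1 : σ = δ * (δ⁻¹ * σ) := by group
  have h6 : act F ρ σ v = act F ρ δ v := by
    conv_lhs => rw [e1]
    rw [act_apply, act_apply, map_mul, hρN _ hδσ, mul_one]
  rw [h6, ← hv δ hδ]
  conv_lhs => rw [e1]
  rw [hc.mul, hcN _ hδσ, map_zero, add_zero]

end glob

section orth

variable {p : ℕ} [Fact p.Prime] {s : QB} {𝓛 : Subgroup (GK s)} {A : Type} [CommRing A] [IsDomain A] [IsLocalRing A] [IsNoetherianRing A]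
  [TopologicalSpace A] [IsTopologicalRing A] [Algebra ℤ_[p] A]
  {F : Type} [Field F] [Algebra A F] [IsFractionRing A F] {n : ℕ}

variable (A F) in
/-- the value of the character in `F` -/
noncomputable def chF (χ : GK s → ℤ_[p]) (σ : GK s) : F := algebraMap A F (algebraMap ℤ_[p] A (χ σ))

/-- the cup product of `l` and of the conjugate of `z` is trivial on the decomposition group -/
def Orth (J : Matrix (Fin n) (Fin n) F) (ρ : GK s →* GL (Fin n) A) (χ : GK s → ℤ_[p])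
    (cj : GK s → GK s) (ι₀ : QB →ₐ[ℚ] PadicAlgCl p) (l : DDs (s := s) ι₀ → Fin n → F)
    (z : GK s → Fin n → F) : Prop :=
  ∃ f : DDs (s := s) ι₀ → F, BC A f ∧ ∀ δ δ' : DDs (s := s) ι₀,
    l δ ⬝ᵥ (J *ᵥ act F ρ (cj δ) (z (cj δ'))) = f δ + chF A F χ δ * f δ' - f (δ * δ')

variable {J : Matrix (Fin n) (Fin n) F} {ρ : GK s →* GL (Fin n) A} {χ : GK s → ℤ_[p]}
    {cj : GK s → GK s} {ι₀ : QB →ₐ[ℚ] PadicAlgCl p} {l : DDs (s := s) ι₀ → Fin n → F}

lemma Orth.add {z z' : GK s → Fin n → F} (h : Orth J ρ χ cj ι₀ l z) (h' : Orth J ρ χ cj ι₀ l z') :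
    Orth J ρ χ cj ι₀ l (fun σ => z σ + z' σ) := by
  obtain ⟨f, hf, h1⟩ := h
  obtain ⟨g, hg, h2⟩ := h'
  refine ⟨fun x => f x + g x, hf.add hg, fun δ δ' => ?_⟩
  rw [map_add, Matrix.mulVec_add, dotProduct_add, h1, h2]
  ring

lemma Orth.smul {z : GK s → Fin n → F} (h : Orth J ρ χ cj ι₀ l z) (a : F) :
    Orth J ρ χ cj ι₀ l (fun σ => a • z σ) := by
  obtain ⟨f, hf, h1⟩ := h
  refine ⟨fun x => a * f x, hf.smul a, fun δ δ' => ?_⟩
  rw [map_smul, Matrix.mulVec_smul, dotProduct_smul, h1, smul_eq_mul]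
  ring

lemma orth_smul_iff {z : GK s → Fin n → F} {a : F} (ha : a ≠ 0) :
    Orth J ρ χ cj ι₀ l (fun σ => a • z σ) ↔ Orth J ρ χ cj ι₀ l z := by
  refine ⟨fun h => ?_, fun h => h.smul a⟩
  have h1 := h.smul a⁻¹
  have h2 : (fun σ => a⁻¹ • a • z σ) = z := by
    funext σ
    rw [inv_smul_smul₀ ha]
  rwa [h2] at h1

lemma pair_em {J' : Matrix (Fin n) (Fin n) A} {q : A}
    (hJ' : ∀ i j, algebraMap A F (J' i j) = algebraMap A F q * J i j) (u w : Fin n → A) :
    algebraMap A F (u ⬝ᵥ (J' *ᵥ w)) = algebraMap A F q * (em F u ⬝ᵥ (J *ᵥ em F w)) := by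
  simp only [dotProduct, mulVec, map_sum, map_mul, Pool.Agent.H76.PS.em, hJ', Finset.mul_sum]
  refine Finset.sum_congr rfl fun i _ => Finset.sum_congr rfl fun j _ => ?_
  ring

lemma pairF (hJ : ∀ σ, ((ρ σ : Matrix (Fin n) (Fin n) A).map (algebraMap A F))ᵀ * J *
      ((ρ (cj σ) : Matrix (Fin n) (Fin n) A).map (algebraMap A F)) = chF A F χ σ • J)
    (σ : GK s) (u w : Fin n → F) :
    (act F ρ σ u) ⬝ᵥ (J *ᵥ act F ρ (cj σ) w) = chF A F χ σ * (u ⬝ᵥ (J *ᵥ w)) := by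
  rw [act_apply, act_apply, dot_trF, Matrix.mulVec_mulVec, Matrix.mulVec_mulVec, hJ,
    Matrix.smul_mulVec, dotProduct_smul, smul_eq_mul]

lemma Orth.cob (hJ : ∀ σ, ((ρ σ : Matrix (Fin n) (Fin n) A).map (algebraMap A F))ᵀ * J *
      ((ρ (cj σ) : Matrix (Fin n) (Fin n) A).map (algebraMap A F)) = chF A F χ σ • J)
    (hρc : ∀ i j, Continuous fun σ => (ρ σ : Matrix (Fin n) (Fin n) A) i j)
    (hcc : Continuous cj) (hcm : ∀ σ τ, cj (σ * τ) = cj σ * cj τ) (hl : LC ρ ι₀ l) (v : Fin n → F) :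
    Orth J ρ χ cj ι₀ l (fun σ => act F ρ σ v - v) := by
  refine ⟨fun δ => -(l δ ⬝ᵥ (J *ᵥ act F ρ (cj δ) v)), ?_, fun δ δ' => ?_⟩
  · obtain ⟨a, b, ha, hb, hab⟩ := hl.cont
    obtain ⟨q, hq, J', hJ'⟩ := scal (A := A) (fun i : Fin n × Fin n => J i.1 i.2)
    obtain ⟨q', hq', v', hv'⟩ := scal (A := A) v
    refine ⟨a * q * q', fun δ => -(b δ ⬝ᵥ ((Matrix.of fun i j => J' (i, j)) *ᵥ
      ((ρ (cj δ) : Matrix (Fin n) (Fin n) A) *ᵥ v'))), ?_, ?_, fun δ => ?_⟩
    · rw [map_mul, map_mul]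
      exact mul_ne_zero (mul_ne_zero ha hq) hq'
    · have h3 : Continuous fun v : DDs (s := s) ι₀ => (ρ (cj v) : Matrix (Fin n) (Fin n) A) :=
        continuous_matrix fun a c => (hρc a c).comp (hcc.comp continuous_subtype_val)
      exact (hb.dotProduct (continuous_const.matrix_mulVec
        (h3.matrix_mulVec continuous_const))).neg
    · rw [map_neg, pair_em (J := J) (q := q) (fun i j => by
        rw [Matrix.of_apply]
        exact hJ' (i, j)), ← act_em]
      have e1 : em F (b δ) = algebraMap A F a • l δ := by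
        funext i
        exact (hab δ i).symm
      have e2 : em F v' = algebraMap A F q' • v := by
        funext i
        exact hv' i
      rw [e1, e2, map_smul, Matrix.mulVec_smul, dotProduct_smul, smul_dotProduct, map_mul, map_mul,
        smul_eq_mul, smul_eq_mul]
      ring
  · have e1 : act F ρ (cj ((δ * δ' : DDs (s := s) ι₀) : GK s)) v =
        act F ρ (cj δ) (act F ρ (cj δ') v) := by
      rw [Subgroup.coe_mul, hcm, act_mul]
    beta_reduce
    rw [hl.mul, e1, map_sub, Matrix.mulVec_sub, dotProduct_sub, add_dotProduct, pairF hJ]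
    ring

/-- the cup products are invariant cocycles -/
lemma za_cpr {J' : Matrix (Fin n) (Fin n) A} (hρ : Rp p 𝓛 ρ) (hρN : ∀ σ ∈ Nf p 𝓛, ρ σ = 1)
    (hJρ : ∀ σ, (ρ σ : Matrix (Fin n) (Fin n) A)ᵀ * J' * (ρ (cj σ) : Matrix _ _ A) = χ σ • J')
    (hcc : Continuous cj) (hcm : ∀ σ τ, cj (σ * τ) = cj σ * cj τ) (hcn : ∀ σ ∈ Nf p 𝓛, cj σ ∈ Nf p 𝓛)
    {x y : GK s → Fin n → A} (hxc : Continuous x) (hyc : Continuous y)
    (hx : ∀ σ τ, x (σ * τ) = x σ + (ρ σ : Matrix (Fin n) (Fin n) A) *ᵥ x τ)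
    (hy : ∀ σ τ, y (σ * τ) = y σ + (ρ σ : Matrix (Fin n) (Fin n) A) *ᵥ y τ)
    (hxn : ∀ σ ∈ Nf p 𝓛, x σ = 0) (hyn : ∀ σ ∈ Nf p 𝓛, y σ = 0) (m : A) :
    ZA 𝓛 χ (fun g h => m * cpr J' ρ cj x y g h) := by
  refine ⟨?_, fun σ τ n hn => ?_, fun σ τ n hn => ?_, fun g h k => ?_⟩
  · have h3 : Continuous fun v : GK s × GK s => (ρ (cj v.1) : Matrix (Fin n) (Fin n) A) :=
      continuous_matrix fun a c => (hρ.cont a c).comp (hcc.comp continuous_fst)
    have h4 : Continuous fun v : GK s × GK s => y (cj v.2) := hyc.comp (hcc.comp continuous_snd)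
    have h5 : Continuous fun v : GK s × GK s => x v.1 := hxc.comp continuous_fst
    exact continuous_const.mul (h5.dotProduct (continuous_const.matrix_mulVec (h3.matrix_mulVec h4)))
  · unfold cpr
    rw [hx, hxn n hn, Matrix.mulVec_zero, add_zero, hcm, map_mul, hρN _ (hcn n hn),
      mul_one]
  · unfold cpr
    rw [hcm, hy, hyn _ (hcn n hn), Matrix.mulVec_zero, add_zero]
  · have h3 := congrArg (fun t => m * t) (cpr_coc hJρ hcm hx hy g h k)
    simp only [mul_zero, mul_sub, mul_add, mul_smul_comm] at h3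
    exact h3

/-- local and global triviality -/
lemma orth_int (hLG : S_LG) {d : ℕ} (hs : Spl p s d) (hL : Lev p 𝓛 ι₀) {r : ℕ}
    (b : Module.Basis (Fin r) ℤ_[p] A) (hb : ∀ e, Continuous fun a : A => b.repr a e)
    (hsm : Continuous fun t : ℤ_[p] => algebraMap ℤ_[p] A t) (hχ : IsCyc p χ)
    {J' : Matrix (Fin n) (Fin n) A} {q : A} (hq : algebraMap A F q ≠ 0)
    (hJ' : ∀ i j, algebraMap A F (J' i j) = algebraMap A F q * J i j)
    {x z : GK s → Fin n → A} (hz : ∀ m : A, ZA 𝓛 χ (fun g h => m * cpr J' ρ cj x z g h))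
    (hx1 : x 1 = 0) {a : A} (ha : algebraMap A F a ≠ 0)
    (hl : ∀ δ : DDs (s := s) ι₀, em F (x δ) = algebraMap A F a • l δ) :
    Orth J ρ χ cj ι₀ l (fun σ => em F (z σ)) ↔
      ∃ m : A, m ≠ 0 ∧ (fun g h => m * cpr J' ρ cj x z g h) ∈ BA ⊤ A χ := by
  have hinj := IsFractionRing.injective A F
  have key : ∀ δ δ' : DDs (s := s) ι₀, algebraMap A F (cpr J' ρ cj x z δ δ') =
      algebraMap A F (a * q) * (l δ ⬝ᵥ (J *ᵥ act F ρ (cj δ) (em F (z (cj δ'))))) := by
    intro δ δ'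
    unfold cpr
    rw [pair_em hJ', hl, ← act_em, smul_dotProduct, map_mul, smul_eq_mul]
    ring
  have haq : algebraMap A F (a * q) ≠ 0 := by
    rw [map_mul]
    exact mul_ne_zero ha hq
  constructor
  · rintro ⟨f, ⟨m, f', hm, hf', hmf⟩, hf⟩
    have hm0 : m ≠ 0 := fun h => hm (by rw [h, map_zero])
    have key2 := hLG p s d hs ι₀ 𝓛 hL A r b hb hsm χ hχ _ (hz m).cont (hz m).inv1 (hz m).inv2
      (hz m).coc ?_ ⟨fun δ => (a * q) * f' δ, continuous_const.mul hf', fun δ δ' => hinj ?_⟩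
    · obtain ⟨f1, hf1, h1⟩ := key2
      exact ⟨m, hm0, f1, hf1, fun x _ y _ => h1 x y⟩
    · unfold cpr
      rw [hx1, zero_dotProduct, mul_zero]
    · rw [map_mul, key, hf, Algebra.smul_def]
      simp only [map_sub, map_add]
      rw [map_mul (algebraMap A F) (a * q) (f' δ), map_mul (algebraMap A F) (a * q) (f' (δ * δ')),
        map_mul (algebraMap A F) (algebraMap ℤ_[p] A (χ δ)),
        map_mul (algebraMap A F) (a * q) (f' δ'), ← hmf, ← hmf, ← hmf]
      unfold chF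
      ring
  · rintro ⟨m, hm, f, hf, hfz⟩
    have hm' : algebraMap A F m ≠ 0 := (map_ne_zero_iff _ hinj).2 hm
    have hne : algebraMap A F (m * (a * q)) ≠ 0 := by
      rw [map_mul]
      exact mul_ne_zero hm' haq
    refine ⟨fun δ => (algebraMap A F (m * (a * q)))⁻¹ * algebraMap A F (f δ),
      ⟨m * (a * q), fun δ => f δ, hne, hf.comp continuous_subtype_val, fun δ => ?_⟩, fun δ δ' => ?_⟩
    · rw [mul_inv_cancel_left₀ hne]
    · have h1 := congrArg (algebraMap A F) (hfz δ trivial δ' trivial)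
      beta_reduce at h1
      rw [map_mul, key, Algebra.smul_def] at h1
      simp only [map_sub, map_add] at h1
      rw [map_mul (algebraMap A F) (algebraMap ℤ_[p] A (χ δ))] at h1
      apply mul_left_cancel₀ hne
      have e3 : ∀ t : F, algebraMap A F (m * (a * q)) * ((algebraMap A F (m * (a * q)))⁻¹ * t) = t :=
        fun t => mul_inv_cancel_left₀ hne t
      have e4 : algebraMap A F (m * (a * q)) * (chF A F χ δ *
          ((algebraMap A F (m * (a * q)))⁻¹ * algebraMap A F (f δ'))) =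
          chF A F χ δ * algebraMap A F (f δ') := by
        rw [mul_left_comm, e3]
      rw [mul_sub, mul_add, e3, e4, e3, map_mul, mul_assoc, h1]
      rfl

end orth

end Pool.Agent.L7h48.SG
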