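import Pool.Agent.L7h48.SG.J3

/-!
# Project SG, assembly: from `𝓛` to `G_K`, the statement of the data
-/

set_option autoImplicit false
set_option linter.unusedSectionVars false

namespace Pool.Agent.L7h48.SG

open Pool.Agent.Y715.Gi (QB KK GK)
open Pool.Agent.Y715.Nr Pool.Agent.W237.RK
open Pool.Agent.Z384 (II DD DDs InI krull act act_apply act_mul act_emb)
open Pool.Agent.H76.PS (em act_em em_inj BC BV scal dot_trF)
open Matrix IsLocalRing

/-- the basic class on `𝓛` -/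
def S_DAT : Prop :=
  ∀ (p : ℕ) [Fact p.Prime] (s : QB) (d : ℕ), Spl p s d → ∀ (ι₀ : QB →ₐ[ℚ] PadicAlgCl p)
    (𝓛 : Subgroup (GK s)), Lev p 𝓛 ι₀ → ∀ χ : GK s → ℤ_[p], IsCyc p χ →
    ∀ c : QB ≃ₐ[ℚ] QB, IsConj c → ∀ cj : GK s → GK s, (∀ σ x, cj σ x = c (σ (c x))) →
    (∀ σ ∈ 𝓛, cj σ ∈ 𝓛) → ∃ z₀ : GK s → GK s → ℤ_[p], Dat 𝓛 χ cj z₀

section

variable {p : ℕ} [Fact p.Prime] {s : QB} {𝓛 : Subgroup (GK s)}
  {A : Type} [CommRing A] [IsDomain A] [IsLocalRing A] [IsNoetherianRing A]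
  [TopologicalSpace A] [IsTopologicalRing A] [Algebra ℤ_[p] A]

lemma index_unit {m : ℕ} (h : ¬ p ∣ m) : (m : A) ≠ 0 := by
  have h1 : IsUnit ((m : ℕ) : ℤ_[p]) := by
    rw [PadicInt.isUnit_iff]
    by_contra hcon
    have h2 : ‖((m : ℤ) : ℤ_[p])‖ < 1 := lt_of_le_of_ne (PadicInt.norm_le_one _)
      (by rw [Int.cast_natCast]; exact hcon)
    rw [PadicInt.norm_int_lt_one_iff_dvd] at h2
    exact h (by exact_mod_cast h2)
  have h3 := (h1.map (algebraMap ℤ_[p] A)).ne_zero
  rwa [map_natCast] at h3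

/-- averaging -/
lemma glob_iff (hAV : S_AV) {ι₀ : QB →ₐ[ℚ] PadicAlgCl p} (hL : Lev p 𝓛 ι₀)
    (hsm : Continuous fun t : ℤ_[p] => algebraMap ℤ_[p] A t) {χ : GK s → ℤ_[p]} (hχ : IsChar p χ)
    {z : GK s → GK s → A} (hz : ZA 𝓛 χ z) :
    (∃ m : A, m ≠ 0 ∧ (fun g h => m * z g h) ∈ BA ⊤ A χ) ↔
      ∃ m : A, m ≠ 0 ∧ (fun g h => m * z g h) ∈ BA 𝓛 A χ := by
  constructor
  · rintro ⟨m, hm, f, hf, hfz⟩
    exact ⟨m, hm, f, hf, fun x _ y _ => hfz x trivial y trivial⟩
  · rintro ⟨m, hm, f, hf, hfz⟩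
    have hfi : 𝓛.FiniteIndex := ⟨fun h => hL.cop (by rw [h]; exact dvd_zero p)⟩
    obtain ⟨F, hF, hFz⟩ := hAV (GK s) A (fun g v => χ g • v) (fun g v w => smul_add _ _ _)
      (fun v => by rw [hχ.one, one_smul]) (fun g h v => by rw [hχ.mul, mul_smul]) (by
        have h1 : (fun q : GK s × A => χ q.1 • q.2) = fun q => algebraMap ℤ_[p] A (χ q.1) * q.2 :=
          funext fun q => Algebra.smul_def _ _
        rw [h1]
        exact (hsm.comp (hχ.cont.comp continuous_fst)).mul continuous_snd) 𝓛 hL.isOpen hL.normal hfi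
      (fun x y => m * z x y) (continuous_const.mul hz.cont) (fun x y w => by
        have h2 := congrArg (fun t => m * t) (hz.coc x y w)
        simp only [mul_zero, mul_sub, mul_add, mul_smul_comm] at h2
        exact h2) ⟨f, hf, hfz⟩
    refine ⟨(𝓛.index : A) * m, mul_ne_zero (index_unit (p := p) hL.cop) hm, F, hF,
      fun x _ y _ => ?_⟩
    rw [← hFz, nsmul_eq_mul]
    exact mul_assoc _ _ _

end

/-- the rank of a skew-symmetric matrix is even (copy of `K7.H91.PS.stEv`) -/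
theorem ev_skew : ∀ (F : Type) [Field F], (2 : F) ≠ 0 → ∀ (k : ℕ) (C : Matrix (Fin k) (Fin k) F), Cᵀ = -C →
    Even (k - Module.finrank F (LinearMap.ker C.mulVecLin)) := by
  classical
  intro F _ h2 k C hC
  obtain ⟨W, hW⟩ := Submodule.exists_isCompl (LinearMap.ker C.mulVecLin)
  have hfr : Module.finrank F (LinearMap.ker C.mulVecLin) + Module.finrank F W = k := by
    rw [Submodule.finrank_add_eq_of_isCompl hW, Module.finrank_fin_fun]
  have hk : k - Module.finrank F (LinearMap.ker C.mulVecLin) = Module.finrank F W := by omega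
  rw [hk]
  set m := Module.finrank F W with hm
  let w := Module.finBasis F W
  have hskew : ∀ x y : Fin k → F, x ⬝ᵥ (C *ᵥ y) = -(y ⬝ᵥ (C *ᵥ x)) := by
    intro x y
    rw [Matrix.dotProduct_mulVec, ← Matrix.mulVec_transpose, hC, Matrix.neg_mulVec,
      neg_dotProduct, dotProduct_comm]
  let M : Matrix (Fin m) (Fin m) F :=
    Matrix.of fun i j => ((w i : W) : Fin k → F) ⬝ᵥ (C *ᵥ ((w j : W) : Fin k → F))
  have hMT : Mᵀ = -M := by
    ext i j
    show ((w j : W) : Fin k → F) ⬝ᵥ (C *ᵥ ((w i : W) : Fin k → F)) =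
      -(((w i : W) : Fin k → F) ⬝ᵥ (C *ᵥ ((w j : W) : Fin k → F)))
    exact hskew _ _
  have hdet : M.det ≠ 0 := by
    intro h0
    obtain ⟨v, hv, hMv⟩ := Matrix.exists_mulVec_eq_zero_iff.2 h0
    set x : W := ∑ j, v j • w j with hx
    have h1 : ∀ i, ((w i : W) : Fin k → F) ⬝ᵥ (C *ᵥ (x : Fin k → F)) = 0 := by
      intro i
      have h3 := congrFun hMv i
      rw [Pi.zero_apply] at h3
      rw [← h3, hx]
      simp only [AddSubmonoidClass.coe_finsetSum, Submodule.coe_smul]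
      rw [Matrix.mulVec_sum, dotProduct_sum]
      show _ = ∑ j, M i j * v j
      refine Finset.sum_congr rfl fun j _ => ?_
      rw [Matrix.mulVec_smul, dotProduct_smul, smul_eq_mul, mul_comm]
      rfl
    have h4 : ∀ y : W, (y : Fin k → F) ⬝ᵥ (C *ᵥ (x : Fin k → F)) = 0 := by
      intro y
      rw [← w.sum_repr y]
      simp only [AddSubmonoidClass.coe_finsetSum, Submodule.coe_smul]
      rw [sum_dotProduct]
      refine Finset.sum_eq_zero fun i _ => ?_
      rw [smul_dotProduct, h1, smul_zero]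
    have h5 : ∀ y : Fin k → F, y ⬝ᵥ (C *ᵥ (x : Fin k → F)) = 0 := by
      intro y
      have h6 : y ∈ LinearMap.ker C.mulVecLin ⊔ W := by
        rw [hW.sup_eq_top]
        trivial
      obtain ⟨u, hu, y', hy', rfl⟩ := Submodule.mem_sup.1 h6
      rw [add_dotProduct, h4 ⟨y', hy'⟩, add_zero, hskew]
      have h7 : C *ᵥ u = 0 := hu
      rw [h7, dotProduct_zero, neg_zero]
    have h8 : C *ᵥ (x : Fin k → F) = 0 := by
      ext i
      have := h5 (Pi.single i 1)
      rw [single_one_dotProduct] at this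
      exact this
    have h9 : (x : Fin k → F) ∈ LinearMap.ker C.mulVecLin := h8
    have h10 : (x : Fin k → F) = 0 := by
      have h11 : (x : Fin k → F) ∈ LinearMap.ker C.mulVecLin ⊓ W := ⟨h9, x.2⟩
      rw [hW.inf_eq_bot] at h11
      exact h11
    have h12 : x = 0 := Subtype.ext h10
    apply hv
    have h13 := (Fintype.linearIndependent_iff.1 w.linearIndependent) v (by rw [← hx]; exact h12)
    funext j
    exact h13 j
  by_contra hodd
  rw [Nat.not_even_iff_odd] at hodd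
  have h1 : M.det = -M.det := by
    conv_lhs => rw [← Matrix.det_transpose, hMT, Matrix.det_neg, Fintype.card_fin, hodd.neg_one_pow]
    ring
  have h3 : (2 : F) * M.det = 0 := by
    have : M.det + M.det = 0 := by
      nth_rewrite 1 [h1]
      ring
    rw [two_mul]
    exact this
  rcases mul_eq_zero.1 h3 with h4 | h4
  · exact h2 h4
  · exact hdet h4

end Pool.Agent.L7h48.SG
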