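import Pool.Agent.L7h48.SG.J4

/-!
# Project SG, assembly: the parity of the Selmer group (port of `H76/PS/I7`)
-/

set_option autoImplicit false
set_option linter.unusedSectionVars false

namespace Pool.Agent.L7h48.SG

open Pool.Agent.Y715.Gi (QB KK GK)
open Pool.Agent.Y715.Nr Pool.Agent.W237.RK
open Pool.Agent.Z384 (II DD DDs InI krull act act_apply act_mul act_emb)
open Pool.Agent.H76.PS (em act_em em_inj BC BV scal dot_trF)
open Matrix IsLocalRing

/-- the Selmer group: `L` (spanned by the `l i`) at `v` and the orthogonal complement of `L` at the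
conjugate place -/
structure Sel {p : ℕ} [Fact p.Prime] {s : QB} {A : Type} [CommRing A] [IsDomain A] [IsLocalRing A]
    [TopologicalSpace A] [IsTopologicalRing A] [Algebra ℤ_[p] A]
    {F : Type} [Field F] [Algebra A F] {n : ℕ} [IsNoetherianRing A] [IsFractionRing A F]
    (J : Matrix (Fin n) (Fin n) F) (ρ : GK s →* GL (Fin n) A) (χ : GK s → ℤ_[p])
    (cj : GK s → GK s) (ι₀ : QB →ₐ[ℚ] PadicAlgCl p) {k : ℕ}
    (l : Fin k → DDs (s := s) ι₀ → Fin n → F) (y : GK s → Fin n → F) : Prop where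
  coc : GC p ρ y
  loc : ∃ (a : Fin k → F) (v : Fin n → F), ∀ δ : DDs (s := s) ι₀,
    y δ = ∑ i, a i • l i δ + (act F ρ (δ : GK s) v - v)
  orth : ∀ i, Orth J ρ χ cj ι₀ (l i) y

/-- **Parity of the Selmer group.** -/
theorem parity (hE0 : S_E0) (hF2 : S_F2) (hLG : S_LG) (hTop : S_TOP) (hAV : S_AV) (hDat : S_DAT)
    {p : ℕ} [Fact p.Prime] {s : QB} {d : ℕ} (hs : Spl p s d) {𝓛 : Subgroup (GK s)}
    {ι₀ : QB →ₐ[ℚ] PadicAlgCl p} (hL : Lev p 𝓛 ι₀) {χ : GK s → ℤ_[p]} (hχ : IsCyc p χ)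
    {c : QB ≃ₐ[ℚ] QB} (hc : IsConj c) {cj : GK s → GK s} (hcj : ∀ σ x, cj σ x = c (σ (c x)))
    (hcL : ∀ σ ∈ 𝓛, cj σ ∈ 𝓛) (hχc : IsChar p χ)
    {A : Type} [CommRing A] [IsDomain A] [IsLocalRing A] [IsNoetherianRing A]
    [TopologicalSpace A] [IsTopologicalRing A] [Algebra ℤ_[p] A] [Module.Finite ℤ_[p] A]
    [Module.Free ℤ_[p] A] (hA : IsAdic (maximalIdeal A))
    {F : Type} [Field F] [Algebra A F] [IsFractionRing A F] {n : ℕ}
    {ρ : GK s →* GL (Fin n) A} (hρ : Rp p 𝓛 ρ) {J : Matrix (Fin n) (Fin n) F} (hJs : J.IsSymm)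
    (hJ : ∀ σ, ((ρ σ : Matrix (Fin n) (Fin n) A).map (algebraMap A F))ᵀ * J *
      ((ρ (cj σ) : Matrix (Fin n) (Fin n) A).map (algebraMap A F)) = chF A F χ σ • J)
    {k : ℕ} (l : Fin k → DDs (s := s) ι₀ → Fin n → F)
    (hl : ∀ i, LC ρ ι₀ (l i))
    (hind : ∀ a : Fin k → F, (∃ v : Fin n → F, ∀ δ : DDs (s := s) ι₀,
      ∑ i, a i • l i δ = act F ρ (δ : GK s) v - v) → a = 0) :
    ∃ r ≤ k, Even (k - r) ∧ ∃ z : Fin r → GK s → Fin n → F, (∀ t, Sel J ρ χ cj ι₀ l (z t)) ∧
      (∀ a : Fin r → F, (∃ v : Fin n → F, ∀ σ, ∑ t, a t • z t σ = act F ρ σ v - v) → a = 0) ∧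
      ∀ y, Sel J ρ χ cj ι₀ l y → ∃ (a : Fin r → F) (v : Fin n → F),
        ∀ σ, y σ = ∑ t, a t • z t σ + (act F ρ σ v - v) := by
  classical
  have hinj := IsFractionRing.injective A F
  set B := Module.finBasis ℤ_[p] A with hBdef
  obtain ⟨h2m, h20, hfin, hcomp, -, hb, hsm⟩ := hTop p A hA _ B
  have h2A : (2 : A) ≠ 0 := by
    have h1 := index_unit (p := p) (A := A) (m := 2) (fun h => hs.odd
      ((Nat.prime_dvd_prime_iff_eq (Fact.out : p.Prime) Nat.prime_two).1 h))
    exact_mod_cast h1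
  have h2F : (2 : F) ≠ 0 := by
    have := (map_ne_zero_iff _ hinj).2 h2A
    rwa [map_ofNat] at this
  obtain ⟨z₀, hD⟩ := hDat p s d hs ι₀ 𝓛 hL χ hχ c hc cj hcj hcL
  have hρN := (hF2 p s d hs ι₀ 𝓛 hL A hA hcomp hfin h2m n ρ hρ).1
  have hcc := cj_cont hc hcj
  have hcm := cj_mul hc hcj
  have hci := cj_cj hc hcj
  have hcn : ∀ σ ∈ Nf p 𝓛, cj σ ∈ Nf p 𝓛 := fun σ hσ => cj_Nf p hc hcj hcL hσ
  -- scaling of the pairing
  obtain ⟨q, hq, J₁, hJ₁⟩ := scal (A := A) (fun i : Fin n × Fin n => J i.1 i.2)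
  set J' : Matrix (Fin n) (Fin n) A := Matrix.of fun i j => J₁ (i, j) with hJ'def
  have hJ' : ∀ i j, algebraMap A F (J' i j) = algebraMap A F q * J i j := fun i j => hJ₁ (i, j)
  have hJ's : J'.IsSymm := by
    ext i j
    rw [Matrix.transpose_apply]
    apply hinj
    rw [hJ', hJ', hJs.apply]
  have hJm : J'.map (algebraMap A F) = algebraMap A F q • J := by
    ext i j
    rw [Matrix.map_apply, hJ', Matrix.smul_apply, smul_eq_mul]
  have hJ'ρ : ∀ σ, (ρ σ : Matrix (Fin n) (Fin n) A)ᵀ * J' * (ρ (cj σ) : Matrix _ _ A) = χ σ • J' := by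
    intro σ
    have h1 : ((ρ σ : Matrix (Fin n) (Fin n) A)ᵀ * J' * (ρ (cj σ) : Matrix _ _ A)).map
        (algebraMap A F) = (χ σ • J').map (algebraMap A F) := by
      rw [Matrix.map_mul, Matrix.map_mul, Matrix.transpose_map, hJm, Matrix.mul_smul,
        Matrix.smul_mul, hJ]
      ext i j
      have e3 : algebraMap A F ((χ σ • J') i j) =
          algebraMap A F (algebraMap ℤ_[p] A (χ σ)) * (algebraMap A F q * J i j) := by
        rw [Matrix.smul_apply, Algebra.smul_def, map_mul, hJ']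
      rw [Matrix.map_apply, e3, Matrix.smul_apply, Matrix.smul_apply, smul_eq_mul, smul_eq_mul]
      unfold chF
      ring
    ext i j
    apply hinj
    exact congrFun (congrFun h1 i) j
  -- the extensions of the local cocycles
  choose a b ha hbc hab using fun i => (hl i).cont
  have hem : ∀ i δ, em F (b i δ) = algebraMap A F (a i) • l i δ := fun i δ =>
    funext fun j => (hab i δ j).symm
  have hbcoc : ∀ i (δ δ' : DDs (s := s) ι₀), b i (δ * δ') = b i δ +
        (ρ (δ : GK s) : Matrix (Fin n) (Fin n) A) *ᵥ b i δ' := by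
    intro i δ δ'
    apply em_inj (F := F)
    have hemadd : ∀ x y : Fin n → A, em F (x + y) = em F x + em F y := fun x y => by
      funext i
      exact map_add _ _ _
    rw [hemadd, ← act_em, hem, hem, hem, (hl i).mul, smul_add, map_smul]
  choose x hxc hx hxn hxl using fun i => (hF2 p s d hs ι₀ 𝓛 hL A hA hcomp hfin h2m n ρ hρ).2 (b i)
    (hbc i) (hbcoc i)
  have hram : ∀ σ : GK s, Ram p σ → σ ∈ Nf p 𝓛 := by
    intro σ hσ
    rw [Nf, Subgroup.mem_sInf]
    exact fun N hN => hN.unramified σ hσ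
  have hx1 : ∀ i, x i 1 = 0 := fun i => hxn i 1 (one_mem _)
  have hxe : ∀ i (δ : DDs (s := s) ι₀), em F (x i δ) = algebraMap A F (a i) • l i δ := by
    intro i δ
    rw [hxl, hem]
  obtain ⟨C, hC, hCv⟩ := form_exists B hb hsm hD h20 hρ.cont
    hρN hJ's hJ'ρ hcc hcm hci hcn hxc hx hxn
  -- the cocycles with values in `F ^ n`
  set X : Fin k → GK s → Fin n → F := fun j σ => em F (x j σ) with hX
  have hXG : ∀ j, GC p ρ (X j) := by
    intro j
    refine ⟨fun σ τ => ?_, ⟨1, x j, by simp, hxc j, fun g i => by rw [map_one, one_mul]; rfl⟩,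
      fun σ hσ => ?_⟩
    · rw [hX]
      beta_reduce
      rw [hx, act_em]
      funext i
      exact map_add _ _ _
    · rw [hX]
      beta_reduce
      rw [hxn j σ (hram σ hσ)]
      funext i
      exact map_zero _
  have hXl : ∀ j (δ : DDs (s := s) ι₀), X j δ = algebraMap A F (a j) • l j δ := hxe
  set CF : Matrix (Fin k) (Fin k) F := C.map (algebraMap A F) with hCF
  have hCFs : CFᵀ = -CF := by
    ext i j
    rw [Matrix.transpose_apply, hCF, Matrix.map_apply, Matrix.neg_apply, Matrix.map_apply,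
      ← map_neg]
    congr 1
    exact congrFun (congrFun hC i) j
  -- orthogonality of the combinations
  have hkey : ∀ (u : Fin k → F) (i : Fin k),
      Orth J ρ χ cj ι₀ (l i) (fun σ => ∑ j, u j • X j σ) ↔ (CF *ᵥ u) i = 0 := by
    intro u i
    obtain ⟨q', hq', v', hv'⟩ := scal (A := A) u
    rw [← orth_smul_iff hq']
    have e1 : (fun σ => algebraMap A F q' • ∑ j, u j • X j σ) =
        fun σ => em F ((fun σ => ∑ j, v' j • x j σ) σ) := by
      funext σ t
      show (algebraMap A F q' • ∑ j, u j • X j σ) t = algebraMap A F ((∑ j, v' j • x j σ) t)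
      rw [Pi.smul_apply, Finset.sum_apply, Finset.sum_apply, map_sum, smul_eq_mul, Finset.mul_sum]
      refine Finset.sum_congr rfl fun j _ => ?_
      rw [Pi.smul_apply, Pi.smul_apply, smul_eq_mul, smul_eq_mul, map_mul, hv', mul_assoc]
      rfl
    rw [e1]
    have hzc : Continuous fun σ => ∑ j, v' j • x j σ :=
      continuous_finsetSum _ fun j _ => (hxc j).const_smul (v' j)
    have hzm : ∀ σ τ, (fun σ => ∑ j, v' j • x j σ) (σ * τ) = (fun σ => ∑ j, v' j • x j σ) σ +
        (ρ σ : Matrix (Fin n) (Fin n) A) *ᵥ (fun σ => ∑ j, v' j • x j σ) τ := by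
      intro σ τ
      beta_reduce
      rw [Matrix.mulVec_sum, ← Finset.sum_add_distrib]
      refine Finset.sum_congr rfl fun j _ => ?_
      rw [Matrix.mulVec_smul, ← smul_add, hx]
    have hzn : ∀ σ ∈ Nf p 𝓛, (fun σ => ∑ j, v' j • x j σ) σ = 0 := by
      intro σ hσ
      exact Finset.sum_eq_zero fun j _ => by rw [hxn j σ hσ, smul_zero]
    have hZA := fun m => za_cpr (χ := χ) hρ hρN hJ'ρ hcc hcm hcn (hxc i) hzc (hx i) hzm (hxn i) hzn m
    rw [orth_int hLG hs hL B hb hsm hχ hq hJ' hZA (hx1 i) (ha i) (hxe i),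
      glob_iff hAV hL hsm hχc (by simpa only [one_mul] using hZA 1), hCv v' i]
    have e2 : algebraMap A F ((C *ᵥ v') i) = algebraMap A F q' * (CF *ᵥ u) i := by
      simp only [mulVec, dotProduct, map_sum, map_mul, hv', hCF, Matrix.map_apply, Finset.mul_sum]
      refine Finset.sum_congr rfl fun j _ => ?_
      ring
    constructor
    · intro h
      rw [h, map_zero] at e2
      exact (mul_eq_zero.1 e2.symm).resolve_left hq'
    · intro h
      rw [h, mul_zero] at e2
      exact (map_eq_zero_iff _ hinj).1 e2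
  have hcob : ∀ (v : Fin n → F) (i : Fin k), Orth J ρ χ cj ι₀ (l i) (fun σ => act F ρ σ v - v) :=
    fun v i => Orth.cob hJ hρ.cont hcc hcm (hl i) v
  have ha' : ∀ j, algebraMap A F (a j) ≠ 0 := ha
  -- every element of the Selmer group is a combination and a coboundary
  have hspan : ∀ y, Sel J ρ χ cj ι₀ l y → ∃ (u : Fin k → F) (v : Fin n → F), CF *ᵥ u = 0 ∧
      ∀ σ, y σ = ∑ j, u j • X j σ + (act F ρ σ v - v) := by
    intro y hy
    obtain ⟨e, v, hev⟩ := hy.loc
    set u : Fin k → F := fun j => e j * (algebraMap A F (a j))⁻¹ with hu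
    have h1 : GC p ρ (fun σ => y σ - ∑ j, u j • X j σ) := hy.coc.sub (GC.sum hXG u)
    have h2 : ∀ σ, y σ - ∑ j, u j • X j σ = act F ρ σ v - v := by
      refine inj_glob hE0 hF2 hs hL hA hcomp hfin h2m hρ h1 fun δ hδ => ?_
      have h3 := hev ⟨δ, hδ⟩
      have h4 : ∑ j, u j • X j δ = ∑ i, e i • l i ⟨δ, hδ⟩ := by
        refine Finset.sum_congr rfl fun j _ => ?_
        have h5 := hXl j ⟨δ, hδ⟩
        rw [show X j δ = X j ((⟨δ, hδ⟩ : DDs (s := s) ι₀) : GK s) from rfl, h5, smul_smul, hu]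
        beta_reduce
        rw [inv_mul_cancel_right₀ (ha' j)]
      show y δ - ∑ j, u j • X j δ = act F ρ δ v - v
      rw [h4, show y δ = y ((⟨δ, hδ⟩ : DDs (s := s) ι₀) : GK s) from rfl, h3, add_sub_cancel_left]
    refine ⟨u, v, funext fun i => ?_, fun σ => by rw [← h2]; abel⟩
    rw [Pi.zero_apply, ← hkey u i]
    have h3 := (hy.orth i).add ((hcob v i).smul (-1))
    have h4 : (fun σ => y σ + (-1 : F) • (act F ρ σ v - v)) = fun σ => ∑ j, u j • X j σ := by
      funext σ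
      rw [← h2]
      rw [neg_smul, one_smul]
      abel
    rwa [h4] at h3
  have hsel : ∀ u : Fin k → F, CF *ᵥ u = 0 → Sel J ρ χ cj ι₀ l (fun σ => ∑ j, u j • X j σ) := by
    intro u hu
    refine ⟨GC.sum hXG u, ⟨fun j => u j * algebraMap A F (a j), 0, fun δ => ?_⟩, fun i =>
      (hkey u i).2 (congrFun hu i)⟩
    rw [map_zero, sub_zero, add_zero]
    refine Finset.sum_congr rfl fun j _ => ?_
    rw [hXl, smul_smul]
  -- the kernel
  set Kr := LinearMap.ker CF.mulVecLin with hKr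
  have hKm : ∀ u : Fin k → F, u ∈ Kr ↔ CF *ᵥ u = 0 := fun u => by
    rw [hKr, LinearMap.mem_ker, Matrix.mulVecLin_apply]
  let E := Module.finBasis F Kr
  refine ⟨Module.finrank F Kr, ?_, ev_skew F h2F k CF hCFs, fun t σ => ∑ j, (E t : Fin k → F) j • X j σ,
    fun t => hsel _ ((hKm _).1 (E t).2), fun e he => ?_, fun y hy => ?_⟩
  · have := Submodule.finrank_le Kr
    rwa [Module.finrank_fin_fun] at this
  · obtain ⟨v, hv⟩ := he
    have h1 : ∀ σ, ∑ t, e t • ∑ j, (E t : Fin k → F) j • X j σ =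
        ∑ j, ((∑ t, e t • (E t : Fin k → F)) j) • X j σ := by
      intro σ
      simp only [Finset.smul_sum, Finset.sum_apply, Pi.smul_apply, smul_eq_mul, Finset.sum_smul,
        smul_smul]
      exact Finset.sum_comm
    have h2 := hind (fun j => (∑ t, e t • (E t : Fin k → F)) j * algebraMap A F (a j)) ⟨v, fun δ => by
      rw [← hv δ, h1]
      refine Finset.sum_congr rfl fun j _ => ?_
      rw [hXl, smul_smul]⟩
    have h3 : (∑ t, e t • (E t : Fin k → F)) = 0 := by
      funext j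
      exact (mul_eq_zero.1 (congrFun h2 j)).resolve_right (ha' j)
    have h4 : ∑ t, e t • E t = 0 := by
      apply Subtype.ext
      rw [Submodule.coe_sum]
      simpa using h3
    exact funext fun t => Fintype.linearIndependent_iff.1 E.linearIndependent e h4 t
  · obtain ⟨u, v, hu, huv⟩ := hspan y hy
    refine ⟨fun t => E.repr ⟨u, (hKm u).2 hu⟩ t, v, fun σ => ?_⟩
    rw [huv]
    congr 1
    have h1 := E.sum_repr ⟨u, (hKm u).2 hu⟩
    have h2 : u = ∑ t, E.repr ⟨u, (hKm u).2 hu⟩ t • (E t : Fin k → F) := by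
      have := congrArg Subtype.val h1
      rw [Submodule.coe_sum] at this
      exact this.symm
    have h3 : ∀ e : Fin (Module.finrank F Kr) → F, ∑ t, e t • ∑ j, (E t : Fin k → F) j • X j σ =
        ∑ j, ((∑ t, e t • (E t : Fin k → F)) j) • X j σ := by
      intro e
      simp only [Finset.smul_sum, Finset.sum_apply, Pi.smul_apply, smul_eq_mul, Finset.sum_smul,
        smul_smul]
      exact Finset.sum_comm
    rw [h3, ← h2]

end Pool.Agent.L7h48.SG
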