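import Pool.Agent.L7h48.SG.J4

/-!
# Project SG, assembly: the class of the `ℤ_p`-valued cochains
-/

set_option autoImplicit false
set_option linter.unusedSectionVars false

namespace Pool.Agent.L7h48.SG

open Pool.Agent.Y715.Gi (QB KK GK)
open Pool.Agent.Y715.Nr Pool.Agent.W237.RK
open Pool.Agent.Z384 (II DD DDs InI)
open Matrix IsLocalRing

section ez

variable {G : Type} [Group G] [TopologicalSpace G] [IsTopologicalGroup G] {P : Subgroup G}

open Classical in
/-- extension by zero -/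
noncomputable def ez {X : Type} [Zero X] (f : P → X) (g : G) : X := if h : g ∈ P then f ⟨g, h⟩ else 0

lemma ez_mem {X : Type} [Zero X] (f : P → X) {g : G} (h : g ∈ P) : ez f g = f ⟨g, h⟩ := by
  unfold ez
  rw [dif_pos h]

lemma ez_coe {X : Type} [Zero X] (f : P → X) (g : P) : ez f (g : G) = f g := ez_mem f g.2

lemma ez_not {X : Type} [Zero X] (f : P → X) {g : G} (h : g ∉ P) : ez f g = 0 := by
  unfold ez
  rw [dif_neg h]

lemma ez_cont {X : Type} [Zero X] [TopologicalSpace X] (hP : IsOpen (P : Set G)) {f : P → X}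
    (hf : Continuous f) : Continuous (ez f) := by
  have hc : IsClosed (P : Set G) := Subgroup.isClosed_of_isOpen _ hP
  rw [continuous_iff_continuousAt]
  intro g
  by_cases hg : g ∈ P
  · have h1 : ContinuousOn (ez f) (P : Set G) := by
      rw [continuousOn_iff_continuous_restrict]
      have : (P : Set G).domRestrict (ez f) = f := by
        funext x
        exact ez_mem f x.2
      rw [this]
      exact hf
    exact h1.continuousAt (hP.mem_nhds hg)
  · have h2 : (ez f) =ᶠ[nhds g] fun _ => 0 := by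
      filter_upwards [hc.isOpen_compl.mem_nhds hg] with x hx
      exact ez_not f hx
    exact (continuousAt_const (y := (0 : X))).congr h2.symm

lemma ez_lc {X : Type} [Zero X] (hP : IsOpen (P : Set G)) {f : P → X}
    (hf : IsLocallyConstant f) : IsLocallyConstant (ez f) := by
  letI : TopologicalSpace X := ⊥
  haveI : DiscreteTopology X := ⟨rfl⟩
  exact (IsLocallyConstant.iff_continuous _).2 (ez_cont hP ((IsLocallyConstant.iff_continuous _).1 hf))

open Classical in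
/-- extension by zero, two variables -/
noncomputable def ez2 {X : Type} [Zero X] (f : P → P → X) (g h : G) : X :=
  if hg : g ∈ P ∧ h ∈ P then f ⟨g, hg.1⟩ ⟨h, hg.2⟩ else 0

lemma ez2_mem {X : Type} [Zero X] (f : P → P → X) {g h : G} (hg : g ∈ P) (hh : h ∈ P) :
    ez2 f g h = f ⟨g, hg⟩ ⟨h, hh⟩ := by
  unfold ez2
  rw [dif_pos ⟨hg, hh⟩]

lemma ez2_cont {X : Type} [Zero X] [TopologicalSpace X] (hP : IsOpen (P : Set G)) {f : P → P → X}
    (hf : Continuous fun v : P × P => f v.1 v.2) : Continuous fun v : G × G => ez2 f v.1 v.2 := by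
  have hc : IsClosed (P : Set G) := Subgroup.isClosed_of_isOpen _ hP
  rw [continuous_iff_continuousAt]
  rintro ⟨g, h⟩
  by_cases hg : g ∈ P ∧ h ∈ P
  · have h1 : ContinuousOn (fun v : G × G => ez2 f v.1 v.2) ((P : Set G) ×ˢ (P : Set G)) := by
      rw [continuousOn_iff_continuous_restrict]
      have : ((P : Set G) ×ˢ (P : Set G)).domRestrict (fun v : G × G => ez2 f v.1 v.2) =
          (fun v : P × P => f v.1 v.2) ∘ fun x => (⟨x.1.1, x.2.1⟩, ⟨x.1.2, x.2.2⟩) := by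
        funext x
        exact ez2_mem f x.2.1 x.2.2
      rw [this]
      refine hf.comp ?_
      fun_prop
    exact h1.continuousAt ((hP.prod hP).mem_nhds hg)
  · have h2 : (fun v : G × G => ez2 f v.1 v.2) =ᶠ[nhds (g, h)] fun _ => 0 := by
      filter_upwards [(hc.prod hc).isOpen_compl.mem_nhds (show (g, h) ∈ _ from hg)] with x hx
      unfold ez2
      exact dif_neg hx
    exact (continuousAt_const (y := (0 : X))).congr h2.symm

lemma ez2_lc {X : Type} [Zero X] (hP : IsOpen (P : Set G)) {f : P → P → X}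
    (hf : IsLocallyConstant fun v : P × P => f v.1 v.2) :
    IsLocallyConstant fun v : G × G => ez2 f v.1 v.2 := by
  letI : TopologicalSpace X := ⊥
  haveI : DiscreteTopology X := ⟨rfl⟩
  exact (IsLocallyConstant.iff_continuous _).2 (ez2_cont hP ((IsLocallyConstant.iff_continuous _).1 hf))

variable {p : ℕ} [Fact p.Prime]

lemma isZ_ez2 (hP : IsOpen (P : Set G)) {e : P → P → ZMod p} (he : IsZ p (⊤ : Subgroup P) e) :
    IsZ p P (ez2 e) := by
  refine ⟨ez2_lc hP he.1, fun x hx y hy z hz => ?_⟩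
  rw [ez2_mem e hy hz, ez2_mem e (mul_mem hx hy) hz, ez2_mem e hx (mul_mem hy hz), ez2_mem e hx hy]
  exact he.2 ⟨x, hx⟩ trivial ⟨y, hy⟩ trivial ⟨z, hz⟩ trivial

lemma isB_of_ez2 {e : P → P → ZMod p} (he : IsB p P (ez2 e)) : IsB p (⊤ : Subgroup P) e := by
  obtain ⟨a, ha, h⟩ := he
  refine ⟨fun x => a x, ha.comp_continuous continuous_subtype_val, fun x _ y _ => ?_⟩
  have h1 := h x x.2 y y.2
  rw [ez2_mem e x.2 y.2] at h1
  exact h1

lemma isB_ez2 (hP : IsOpen (P : Set G)) {e : P → P → ZMod p} (he : IsB p (⊤ : Subgroup P) e) :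
    IsB p P (ez2 e) := by
  obtain ⟨a, ha, h⟩ := he
  refine ⟨ez a, ez_lc hP ha, fun x hx y hy => ?_⟩
  rw [ez2_mem e hx hy, ez_mem a hx, ez_mem a hy, ez_mem a (mul_mem hx hy)]
  exact h ⟨x, hx⟩ trivial ⟨y, hy⟩ trivial

end ez

section dat

variable {p : ℕ} [Fact p.Prime] {s : QB} {𝓛 : Subgroup (GK s)}

/-- descent of a function of one variable to the quotient -/
lemma descend1 {X : Type} [TopologicalSpace X] {z : GK s → X} (hz : Continuous z)
    (h1 : ∀ σ, ∀ n ∈ Nf p 𝓛, z (σ * n) = z σ) :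
    ∃ z' : Gs p 𝓛 → X, Continuous z' ∧ ∀ σ, z' (QuotientGroup.mk σ) = z σ := by
  refine ⟨fun x => Quotient.liftOn' x z fun σ σ' hσ => ?_, ?_, fun σ => rfl⟩
  · rw [QuotientGroup.leftRel_apply] at hσ
    have e1 : σ' = σ * (σ⁻¹ * σ') := by group
    rw [e1, h1 _ _ hσ]
  · exact (QuotientGroup.isOpenQuotientMap_mk (N := Nf p 𝓛)).isQuotientMap.continuous_iff.2 hz

/-- descent of a function of two variables to the quotient -/
lemma descend2 {X : Type} [TopologicalSpace X] {z : GK s → GK s → X}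
    (hz : Continuous fun v : GK s × GK s => z v.1 v.2)
    (h1 : ∀ σ τ, ∀ n ∈ Nf p 𝓛, z (σ * n) τ = z σ τ)
    (h2 : ∀ σ τ, ∀ n ∈ Nf p 𝓛, z σ (τ * n) = z σ τ) :
    ∃ z' : Gs p 𝓛 → Gs p 𝓛 → X, Continuous (fun v : Gs p 𝓛 × Gs p 𝓛 => z' v.1 v.2) ∧
      ∀ σ τ, z' (QuotientGroup.mk σ) (QuotientGroup.mk τ) = z σ τ := by
  have hh : ∀ σ σ' τ τ' : GK s, (QuotientGroup.leftRel (Nf p 𝓛)) σ σ' →
      (QuotientGroup.leftRel (Nf p 𝓛)) τ τ' → z σ τ = z σ' τ' := by
    intro σ σ' τ τ' hσ hτ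
    rw [QuotientGroup.leftRel_apply] at hσ hτ
    have e1 : σ' = σ * (σ⁻¹ * σ') := by group
    have e2 : τ' = τ * (τ⁻¹ * τ') := by group
    rw [e1, e2, h1 _ _ _ hσ, h2 _ _ _ hτ]
  refine ⟨fun x y => Quotient.liftOn₂' x y z fun σ τ σ' τ' hσ hτ => hh σ σ' τ τ' hσ hτ, ?_,
    fun σ τ => rfl⟩
  have h3 := (QuotientGroup.isOpenQuotientMap_mk (N := Nf p 𝓛)).prodMap
    (QuotientGroup.isOpenQuotientMap_mk (N := Nf p 𝓛))
  exact h3.isQuotientMap.continuous_iff.2 hz

/-- a bounded function -/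
lemma exists_scale {G : Type} [TopologicalSpace G] [CompactSpace G] {f : G → ℚ_[p]}
    (hf : Continuous f) : ∃ (N : ℕ) (g : G → ℤ_[p]), Continuous g ∧
      ∀ x, (g x : ℚ_[p]) = (p : ℚ_[p]) ^ N * f x := by
  have hp1 : (1 : ℝ) < p := by exact_mod_cast (Fact.out : p.Prime).one_lt
  obtain ⟨C, hC⟩ : ∃ C, ∀ x, ‖f x‖ ≤ C := by
    obtain ⟨C, hC⟩ := (isCompact_range hf).isBounded.exists_norm_le
    exact ⟨C, fun x => hC _ ⟨x, rfl⟩⟩
  obtain ⟨N, hN⟩ : ∃ N : ℕ, C ≤ (p : ℝ) ^ N := by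
    obtain ⟨N, hN⟩ := pow_unbounded_of_one_lt C hp1
    exact ⟨N, hN.le⟩
  have h1 : ∀ x, ‖(p : ℚ_[p]) ^ N * f x‖ ≤ 1 := by
    intro x
    rw [norm_mul, norm_pow, Padic.norm_p, inv_pow]
    rw [inv_mul_le_iff₀ (by positivity), mul_one]
    exact (hC x).trans hN
  refine ⟨N, fun x => ⟨(p : ℚ_[p]) ^ N * f x, h1 x⟩, ?_, fun x => rfl⟩
  exact Continuous.subtype_mk (continuous_const.mul hf) _

end dat

end Pool.Agent.L7h48.SG
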