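import Pool.Agent.L7h48.SG.J6

/-!
# Project SG, assembly: the existence of the basic class
-/

set_option autoImplicit false
set_option linter.unusedSectionVars false

namespace Pool.Agent.L7h48.SG

open Pool.Agent.Y715.Gi (QB KK GK)
open Pool.Agent.Y715.Nr Pool.Agent.W237.RK
open Pool.Agent.Z384 (II DD DDs InI)
open Matrix IsLocalRing

theorem s_DAT (hB : S_B) (hM : S_MAIN) (hE0 : S_E0) (hE2 : S_E2) (hNG : S_NG) (hG1 : S_G1)
    (hG2 : S_G2) (hH2 : S_H2) : S_DAT := by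
  classical
  intro p _ s d hs ι₀ 𝓛 hL χ hχ c hc cj hcj hcL
  obtain ⟨hcomp, hT2, hNL, hPo, hPn, hPi, hPm, hpow, -, -, -, -⟩ := hE0 p s d hs ι₀ 𝓛 hL
  have hPc : IsClosed (Pg p 𝓛 : Set (Gs p 𝓛)) := Subgroup.isClosed_of_isOpen _ hPo
  have hcP : CompactSpace (Pg p 𝓛) := isCompact_iff_compactSpace.1 hPc.isCompact
  have hmk : Function.Surjective (QuotientGroup.mk : GK s → Gs p 𝓛) := QuotientGroup.mk_surjective
  have hDem : Dem p (Pg p 𝓛) := ⟨(hE2 p s d hs ι₀ 𝓛 hL).1, hNG p s d hs ι₀ 𝓛 hL, hpow⟩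
  obtain ⟨A1, -⟩ := hM p hs.odd (Gs p 𝓛) (Pg p 𝓛) hPo hDem
  obtain ⟨hχc, hχL⟩ := hG1 p s χ hχ
  obtain ⟨hχ1, hχN⟩ := hχL ι₀ 𝓛 hL
  -- the character of the quotient
  obtain ⟨χ', hχ'c, hχ'⟩ := descend1 (p := p) (𝓛 := 𝓛) hχc.cont (fun σ n hn => by
    rw [hχc.mul, hχN n hn, mul_one])
  have hχ'C : IsChar p (fun x : Pg p 𝓛 => χ' x) := by
    refine ⟨hχ'c.comp continuous_subtype_val, ?_, ?_⟩
    · have := hχ' 1
      rw [hχc.one] at this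
      exact this
    · rintro ⟨x, hx⟩ ⟨y, hy⟩
      obtain ⟨σ, rfl⟩ := hmk x
      obtain ⟨τ, rfl⟩ := hmk y
      show χ' (QuotientGroup.mk σ * QuotientGroup.mk τ) = _
      rw [← QuotientGroup.mk_mul, hχ', hχc.mul, hχ', hχ']
  -- the conjugation of `P`
  have hcm : ∀ x ∈ Pg p 𝓛, cq p hc hcj hcL x ∈ Pg p 𝓛 := by
    intro x hx
    obtain ⟨σ, rfl⟩ := hmk x
    rw [cq_mk, hPm]
    exact hcL σ ((hPm σ).1 hx)
  let c' : Pg p 𝓛 → Pg p 𝓛 := fun x => ⟨cq p hc hcj hcL x, hcm x x.2⟩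
  have hc'c : Continuous c' := Continuous.subtype_mk ((cq_cont p hc hcj hcL).comp
    continuous_subtype_val) _
  -- the class
  obtain ⟨h, k, hh, hk, hhN, hkN, hhc, hkc, hhk⟩ := hH2 p s d hs ι₀ 𝓛 hL χ hχ c hc cj hcj hcL
  have hdesc : ∀ φ ∈ HP p 𝓛, (∀ σ ∈ Nf p 𝓛, φ σ = 0) → ∃ φ' : Gs p 𝓛 → ZMod p,
      IsLocallyConstant φ' ∧ (∀ σ, φ' (QuotientGroup.mk σ) = φ σ) := by
    intro φ hφ hφN
    obtain ⟨φ', h1, h2⟩ := descend1 (p := p) (𝓛 := 𝓛) hφ.1.continuous (fun σ n hn => by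
      by_cases hσ : σ ∈ 𝓛
      · rw [hφ.2.1 σ hσ n (hNL hn), hφN n hn, add_zero]
      · rw [hφ.2.2 σ hσ, hφ.2.2 _ (fun h => hσ (by
          have := mul_mem h (inv_mem (hNL hn))
          rwa [mul_inv_cancel_right] at this))])
    exact ⟨φ', (IsLocallyConstant.iff_continuous _).2 h1, h2⟩
  obtain ⟨h', hh'l, hh'⟩ := hdesc h hh hhN
  obtain ⟨k', hk'l, hk'⟩ := hdesc k hk hkN
  have hadd : ∀ (φ : GK s → ZMod p) (φ' : Gs p 𝓛 → ZMod p), φ ∈ HP p 𝓛 →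
      (∀ σ, φ' (QuotientGroup.mk σ) = φ σ) → ∀ x y : Pg p 𝓛,
      φ' ((x * y : Pg p 𝓛) : Gs p 𝓛) = φ' x + φ' y := by
    rintro φ φ' hφ h1 ⟨x, hx⟩ ⟨y, hy⟩
    obtain ⟨σ, rfl⟩ := hmk x
    obtain ⟨τ, rfl⟩ := hmk y
    show φ' (QuotientGroup.mk σ * QuotientGroup.mk τ) = _
    rw [← QuotientGroup.mk_mul, h1, h1, h1]
    exact hφ.2.1 σ ((hPm σ).1 hx) τ ((hPm τ).1 hy)
  set w : Pg p 𝓛 → Pg p 𝓛 → ZMod p := fun x y => h' x * k' y with hw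
  have hwZ : IsZ p (⊤ : Subgroup (Pg p 𝓛)) w := by
    refine ⟨?_, fun x _ y _ z _ => ?_⟩
    · have h1 : IsLocallyConstant fun v : Pg p 𝓛 × Pg p 𝓛 => h' v.1 :=
        hh'l.comp_continuous (continuous_subtype_val.comp continuous_fst)
      have h2 : IsLocallyConstant fun v : Pg p 𝓛 × Pg p 𝓛 => k' v.2 :=
        hk'l.comp_continuous (continuous_subtype_val.comp continuous_snd)
      exact h1.mul h2
    · simp only [hw]
      rw [hadd h h' hh hh' x y, hadd k k' hk hk' y z]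
      ring
  have hwB : ¬ IsB p (⊤ : Subgroup (Pg p 𝓛)) w := by
    rintro ⟨a, ha, hab⟩
    refine hhk ⟨fun σ => ez a (QuotientGroup.mk σ), (ez_lc hPo ha).comp_continuous
      QuotientGroup.continuous_mk, fun σ τ hτ => ?_, fun x hx y hy => ?_⟩
    · have e1 : (QuotientGroup.mk (σ * τ) : Gs p 𝓛) = QuotientGroup.mk σ :=
        (QuotientGroup.eq.2 (by rwa [inv_mul_cancel_left])).symm
      beta_reduce
      rw [e1]
    · have h3 := hab ⟨QuotientGroup.mk x, (hPm x).2 hx⟩ trivial ⟨QuotientGroup.mk y, (hPm y).2 hy⟩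
        trivial
      have h4 : w ⟨QuotientGroup.mk x, (hPm x).2 hx⟩ ⟨QuotientGroup.mk y, (hPm y).2 hy⟩ =
          h x * k y := by
        show h' _ * k' _ = _
        rw [hh', hk']
      rw [h4] at h3
      beta_reduce
      rw [ez_mem a ((hPm x).2 hx), ez_mem a ((hPm y).2 hy), ez_mem a ((hPm (x * y)).2 (mul_mem hx hy)),
        h3]
      rfl
  obtain ⟨⟨z₀, hz₀, hgen⟩, hinv⟩ := hB p hs.odd (Pg p 𝓛) (fun x => χ' x) hχ'C (fun x => by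
      obtain ⟨x, hx⟩ := x
      obtain ⟨σ, rfl⟩ := hmk x
      show PadicInt.toZMod (χ' (QuotientGroup.mk σ)) = 1
      rw [hχ']
      exact hχ1 σ ((hPm σ).1 hx)) (fun e₁ e₂ h1 h2 h3 => by
      obtain ⟨a, ha⟩ := A1 (ez2 e₁) (ez2 e₂) (isZ_ez2 hPo h1) (isZ_ez2 hPo h2)
        (fun h4 => h3 (isB_of_ez2 h4))
      refine ⟨a, isB_of_ez2 ?_⟩
      obtain ⟨f, hf, hff⟩ := ha
      refine ⟨f, hf, fun x hx y hy => ?_⟩
      have h9 := hff x hx y hy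
      beta_reduce at h9
      rw [ez2_mem _ hx hy, ez2_mem _ hx hy] at h9
      rw [ez2_mem _ hx hy]
      exact h9) (fun φ hφ => by
      obtain ⟨κ, hκ, hκm, hκφ, hκN⟩ := hG2 p s d hs ι₀ 𝓛 hL χ hχ
        (fun σ => ez φ (QuotientGroup.mk σ : Gs p 𝓛)) ⟨(ez_lc hPo hφ.1).comp_continuous
          QuotientGroup.continuous_mk, fun x hx y hy => by
          beta_reduce
          rw [ez_mem φ ((hPm x).2 hx), ez_mem φ ((hPm y).2 hy), ez_mem φ ((hPm (x * y)).2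
            (mul_mem hx hy))]
          exact hφ.2.1 ⟨QuotientGroup.mk x, (hPm x).2 hx⟩ trivial
            ⟨QuotientGroup.mk y, (hPm y).2 hy⟩ trivial, fun x hx => ez_not φ (fun h => hx
            ((hPm x).1 h))⟩ (fun σ hσ => by
          have e1 : (QuotientGroup.mk σ : Gs p 𝓛) = 1 := (QuotientGroup.eq_one_iff σ).2 hσ
          beta_reduce
          rw [e1, ez_mem φ (one_mem _)]
          have h5 := hφ.2.1 (1 : Pg p 𝓛) trivial 1 trivial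
          rw [mul_one] at h5
          exact left_eq_add.1 h5)
      obtain ⟨κ', hκ'c, hκ'⟩ := descend1 hκ hκN
      refine ⟨fun x => κ' x, hκ'c.comp continuous_subtype_val, ?_, ?_⟩
      · rintro ⟨x, hx⟩ ⟨y, hy⟩
        obtain ⟨σ, rfl⟩ := hmk x
        obtain ⟨τ, rfl⟩ := hmk y
        show κ' (QuotientGroup.mk σ * QuotientGroup.mk τ) = κ' (QuotientGroup.mk σ) +
          χ' (QuotientGroup.mk σ) * κ' (QuotientGroup.mk τ)
        rw [← QuotientGroup.mk_mul, hκ', hκ', hκ', hχ']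
        exact hκm σ ((hPm σ).1 hx) τ ((hPm τ).1 hy)
      · rintro ⟨x, hx⟩
        obtain ⟨σ, rfl⟩ := hmk x
        show PadicInt.toZMod (κ' (QuotientGroup.mk σ)) = _
        rw [hκ', hκφ σ ((hPm σ).1 hx), ez_mem φ hx]) c' hc'c (fun x y => Subtype.ext
        (map_mul (cq p hc hcj hcL) _ _)) (fun x => Subtype.ext (cq_cq p hc hcj hcL _)) (fun x => by
      obtain ⟨x, hx⟩ := x
      obtain ⟨σ, rfl⟩ := hmk x
      show χ' (cq p hc hcj hcL (QuotientGroup.mk σ)) = χ' (QuotientGroup.mk σ)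
      rw [cq_mk, hχ', hχ', cyc_cj p hc hcj hχ]) ⟨w, hwZ, hwB, fun _ => 0, IsLocallyConstant.const 0,
      fun x _ y _ => by
        obtain ⟨x, hx⟩ := x
        obtain ⟨y, hy⟩ := y
        obtain ⟨σ, rfl⟩ := hmk x
        obtain ⟨τ, rfl⟩ := hmk y
        show h' (cq p hc hcj hcL (QuotientGroup.mk σ)) * k' (cq p hc hcj hcL (QuotientGroup.mk τ)) -
          h' (QuotientGroup.mk σ) * k' (QuotientGroup.mk τ) = _
        rw [cq_mk, cq_mk, hh', hh', hk', hk', hhc, hkc]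
        ring⟩
  have hdes : ∀ z : GK s → GK s → ℤ_[p], Continuous (fun v : GK s × GK s => z v.1 v.2) →
    (∀ σ τ, ∀ n ∈ Nf p 𝓛, z (σ * n) τ = z σ τ) → (∀ σ τ, ∀ n ∈ Nf p 𝓛, z σ (τ * n) = z σ τ) →
    (∀ x y w, χ x * z y w - z (x * y) w + z x (y * w) - z x y = 0) →
      ∃ z' ∈ Zp p (fun x : Pg p 𝓛 => χ' x), ∀ σ (hσ : (QuotientGroup.mk σ : Gs p 𝓛) ∈ Pg p 𝓛) τ
        (hτ : (QuotientGroup.mk τ : Gs p 𝓛) ∈ Pg p 𝓛), z' ⟨_, hσ⟩ ⟨_, hτ⟩ = z σ τ := by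
    intro z h1 h2 h3 h4
    obtain ⟨z', hz'c, hz'⟩ := descend2 h1 h2 h3
    refine ⟨fun x y => z' x y, ⟨?_, ?_⟩, fun σ hσ τ hτ => hz' σ τ⟩
    · exact hz'c.comp ((continuous_subtype_val.comp continuous_fst).prodMk
        (continuous_subtype_val.comp continuous_snd))
    · rintro ⟨x, hx⟩ ⟨y, hy⟩ ⟨w, hw⟩
      obtain ⟨σ, rfl⟩ := hmk x
      obtain ⟨τ, rfl⟩ := hmk y
      obtain ⟨υ, rfl⟩ := hmk w
      show χ' (QuotientGroup.mk σ) * z' (QuotientGroup.mk τ) (QuotientGroup.mk υ) -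
        z' (QuotientGroup.mk σ * QuotientGroup.mk τ) (QuotientGroup.mk υ) +
        z' (QuotientGroup.mk σ) (QuotientGroup.mk τ * QuotientGroup.mk υ) -
        z' (QuotientGroup.mk σ) (QuotientGroup.mk τ) = 0
      rw [← QuotientGroup.mk_mul, ← QuotientGroup.mk_mul, hz', hz', hz', hz', hχ', h4]
  have hscale : ∀ {f : Pg p 𝓛 → ℚ_[p]}, Continuous f → ∃ (N : ℕ) (g : GK s → ℤ_[p]), Continuous g ∧
      ∀ σ (hσ : (QuotientGroup.mk σ : Gs p 𝓛) ∈ Pg p 𝓛), (g σ : ℚ_[p]) = (p : ℚ_[p]) ^ N * f ⟨_, hσ⟩ := by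
    intro f hf
    obtain ⟨N, g, hg, hgf⟩ := exists_scale hf
    refine ⟨N, fun σ => ez g (QuotientGroup.mk σ), (ez_cont hPo hg).comp
      QuotientGroup.continuous_mk, fun σ hσ => ?_⟩
    beta_reduce
    rw [ez_mem g hσ, hgf]
  have hpc : ((p : ℤ_[p]) : ℚ_[p]) = (p : ℚ_[p]) := by push_cast; rfl
  refine ⟨fun σ τ => ez2 z₀ (QuotientGroup.mk σ : Gs p 𝓛) (QuotientGroup.mk τ), ?_, ?_⟩
  · intro z h1 h2 h3 h4
    obtain ⟨z', hz', hzz⟩ := hdes z h1 h2 h3 h4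
    obtain ⟨a, f, hf, hfz⟩ := hgen z' hz'
    obtain ⟨N, g, hg, hgf⟩ := hscale hf
    obtain ⟨M, hM⟩ : ∃ M : ℕ, ‖(p : ℚ_[p]) ^ M * a‖ ≤ 1 := by
      obtain ⟨M, g', -, hg'⟩ := exists_scale (G := Unit) (f := fun _ => a) continuous_const
      exact ⟨M, by rw [← hg' ()]; exact (g' ()).2⟩
    obtain ⟨aM, haM⟩ : ∃ aM : ℤ_[p], (aM : ℚ_[p]) = (p : ℚ_[p]) ^ M * a := ⟨⟨_, hM⟩, rfl⟩
    refine ⟨N + M, (p : ℤ_[p]) ^ N * aM, fun σ => (p : ℤ_[p]) ^ M * g σ,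
      continuous_const.mul hg, fun x hx y hy => ?_⟩
    have hx' := (hPm x).2 hx
    have hy' := (hPm y).2 hy
    have hxy' := (hPm (x * y)).2 (mul_mem hx hy)
    apply PadicInt.ext
    have h5 := hfz ⟨_, hx'⟩ ⟨_, hy'⟩
    beta_reduce at h5
    rw [hzz, hχ'] at h5
    beta_reduce
    rw [ez2_mem z₀ hx' hy']
    simp only [PadicInt.coe_add, PadicInt.coe_sub, PadicInt.coe_mul, PadicInt.coe_pow, hpc]
    rw [hgf x hx', hgf y hy', hgf (x * y) hxy']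
    have h6 : f (⟨_, hx'⟩ * ⟨_, hy'⟩) = f ⟨_, hxy'⟩ := rfl
    rw [h6] at h5
    rw [pow_add, haM]
    linear_combination (p : ℚ_[p]) ^ N * (p : ℚ_[p]) ^ M * h5
  · intro z h1 h2 h3 h4
    obtain ⟨z', hz', hzz⟩ := hdes z h1 h2 h3 h4
    obtain ⟨f, hf, hfz⟩ := hinv z' hz'
    obtain ⟨N, g, hg, hgf⟩ := hscale hf
    refine ⟨N, g, hg, fun x hx y hy => ?_⟩
    have hx' := (hPm x).2 hx
    have hy' := (hPm y).2 hy
    have hxy' := (hPm (x * y)).2 (mul_mem hx hy)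
    apply PadicInt.ext
    have h5 := hfz ⟨_, hx'⟩ ⟨_, hy'⟩
    have h7 : z' (c' ⟨_, hx'⟩) (c' ⟨_, hy'⟩) = z (cj x) (cj y) := hzz (cj x) (hcm _ hx') (cj y)
      (hcm _ hy')
    beta_reduce at h5
    rw [h7, hzz, hχ'] at h5
    simp only [PadicInt.coe_add, PadicInt.coe_sub, PadicInt.coe_mul, PadicInt.coe_pow, hpc]
    rw [hgf x hx', hgf y hy', hgf (x * y) hxy']
    have h6 : f (⟨_, hx'⟩ * ⟨_, hy'⟩) = f ⟨_, hxy'⟩ := rfl
    rw [h6] at h5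
    linear_combination (p : ℚ_[p]) ^ N * h5

end Pool.Agent.L7h48.SG
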