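import Pool.Agent.L7h48.SG.J5

/-!
# Project SG, assembly: the localization is surjective
-/

set_option autoImplicit false
set_option linter.unusedSectionVars false

namespace Pool.Agent.L7h48.SG

open Pool.Agent.Y715.Gi (QB KK GK)
open Pool.Agent.Y715.Nr Pool.Agent.W237.RK
open Pool.Agent.Z384 (II DD DDs InI krull act act_apply act_mul act_emb)
open Pool.Agent.H76.PS (em act_em em_inj BC BV scal dot_trF)
open Matrix IsLocalRing

section glob

variable {p : ℕ} [Fact p.Prime] {s : QB} {𝓛 : Subgroup (GK s)}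
  {A : Type} [CommRing A] [IsDomain A] [IsLocalRing A] [IsNoetherianRing A]
  [TopologicalSpace A] [IsTopologicalRing A]
  {F : Type} [Field F] [Algebra A F] [IsFractionRing A F] {n : ℕ}

/-- the localization is surjective -/
theorem surj_glob (hF2 : S_F2) {d : ℕ} (hs : Spl p s d)
    {ι₀ : QB →ₐ[ℚ] PadicAlgCl p} (hL : Lev p 𝓛 ι₀)
    (hA : IsAdic (maximalIdeal A)) (hcomp : IsAdicComplete (maximalIdeal A) A)
    (hfin : Finite (ResidueField A)) (h2 : (p : A) ∈ maximalIdeal A)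
    {ρ : GK s →* GL (Fin n) A} (hρ : Rp p 𝓛 ρ)
    {l : DDs (s := s) ι₀ → Fin n → F} (hl : LC ρ ι₀ l) :
    ∃ z : GK s → Fin n → F, GC p ρ z ∧ ∀ δ : DDs (s := s) ι₀, z δ = l δ := by
  classical
  obtain ⟨a, b, ha, hbc, hab⟩ := hl.cont
  have hem : ∀ δ, em F (b δ) = algebraMap A F a • l δ := fun δ => funext fun j => (hab δ j).symm
  have hemadd : ∀ x y : Fin n → A, em F (x + y) = em F x + em F y := fun x y => by
    funext i
    exact map_add _ _ _
  have hbcoc : ∀ (δ δ' : DDs (s := s) ι₀), b (δ * δ') = b δ +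
        (ρ (δ : GK s) : Matrix (Fin n) (Fin n) A) *ᵥ b δ' := by
    intro δ δ'
    apply em_inj (F := F)
    rw [hemadd, ← act_em, hem, hem, hem, hl.mul, smul_add, map_smul]
  obtain ⟨x, hxc, hx, hxn, hxl⟩ := (hF2 p s d hs ι₀ 𝓛 hL A hA hcomp hfin h2 n ρ hρ).2 b hbc hbcoc
  have hram : ∀ σ : GK s, Ram p σ → σ ∈ Nf p 𝓛 := by
    intro σ hσ
    rw [Nf, Subgroup.mem_sInf]
    exact fun N hN => hN.unramified σ hσ
  refine ⟨fun σ => (algebraMap A F a)⁻¹ • em F (x σ), ⟨fun σ τ => ?_, ⟨a, x, ha, hxc,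
    fun σ i => ?_⟩, fun σ hσ => ?_⟩, fun δ => ?_⟩
  · beta_reduce
    rw [hx, hemadd, smul_add, map_smul, act_em]
  · show algebraMap A F a * ((algebraMap A F a)⁻¹ * algebraMap A F (x σ i)) = _
    rw [mul_inv_cancel_left₀ ha]
  · beta_reduce
    rw [hxn σ (hram σ hσ)]
    have h5 : em F (0 : Fin n → A) = 0 := by
      funext i
      exact map_zero _
    rw [h5, smul_zero]
  · beta_reduce
    rw [hxl, hem, smul_smul, inv_mul_cancel₀ ha, one_smul]

end glob

end Pool.Agent.L7h48.SG
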