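import Mathlib
import Pool.Agent.L7h48.SG.Stm
import Pool.Agent.L7h60.SG.Kum
import Pool.Agent.L7h22.SG.Bas
set_option autoImplicit false
set_option linter.unusedSectionVars false

namespace Pool.Agent.L7h48.SG

open Pool.Agent.L7h60.SG (Kr mem_Kr isOpen_Kr)

section
variable {p : ℕ} [Fact p.Prime] {G : Type} [Group G] [TopologicalSpace G] [IsTopologicalGroup G]

/-- a nonzero homomorphism gives a subgroup of index `p` -/
lemma hom_to_sub {U : Subgroup G} (hU : IsOpen (U : Set G)) {φ : G → ZMod p} (hφ : φ ∈ HP p U)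
    (hne : φ ≠ 0) : ∃ N : Subgroup G, IsOpen (N : Set G) ∧ N ≤ U ∧ (N.subgroupOf U).Normal ∧
      N.relIndex U = p ∧ ∀ x ∈ U, φ x = 0 → x ∈ N := by
  let f : U →* Multiplicative (ZMod p) :=
    { toFun := fun x => Multiplicative.ofAdd (φ x)
      map_one' := by
        show Multiplicative.ofAdd (φ ((1 : U) : G)) = 1
        rw [Subgroup.coe_one, Pool.Agent.L7h60.SG.HP.one p hφ]
        rfl
      map_mul' := fun x y => by
        show Multiplicative.ofAdd (φ ((x : G) * y)) = _
        rw [hφ.2.1 x x.2 y y.2]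
        rfl }
  have hker : (Kr p hφ).subgroupOf U = f.ker := by
    ext x
    rw [Subgroup.mem_subgroupOf, mem_Kr, MonoidHom.mem_ker]
    constructor
    · rintro ⟨_, h⟩
      show Multiplicative.ofAdd (φ x) = 1
      rw [h]
      rfl
    · intro h
      exact ⟨x.2, h⟩
  refine ⟨Kr p hφ, isOpen_Kr p hU hφ, fun x hx => hx.1, ?_, ?_, fun x hx h => ⟨hx, h⟩⟩
  · rw [hker]
    exact MonoidHom.normal_ker f
  · rw [Subgroup.relIndex, hker, Subgroup.index_ker]
    have h1 : f.range ≠ ⊥ := by
      intro h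
      apply hne
      funext x
      by_cases hx : x ∈ U
      · have h2 : f ⟨x, hx⟩ ∈ f.range := ⟨_, rfl⟩
        rw [h, Subgroup.mem_bot] at h2
        exact h2
      · exact hφ.2.2 x hx
    have h2 : Nat.card f.range ∣ p := by
      have := Subgroup.card_subgroup_dvd_card f.range
      have h3 : Nat.card (Multiplicative (ZMod p)) = p := by
        rw [Nat.card_congr Multiplicative.toAdd, Nat.card_zmod]
      rwa [h3] at this
    rcases (Nat.dvd_prime (Fact.out : p.Prime)).1 h2 with h3 | h3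
    · exact absurd (Subgroup.card_eq_one.1 h3) h1
    · exact h3

/-- a subgroup of index `p` gives a nonzero homomorphism -/
lemma sub_to_hom {U : Subgroup G} (hU : IsOpen (U : Set G)) {N : Subgroup G}
    (hN : IsOpen (N : Set G)) (hNn : (N.subgroupOf U).Normal) (hNi : N.relIndex U = p) :
    ∃ φ ∈ HP p U, φ ≠ 0 ∧ ∀ x ∈ N, φ x = 0 := by
  classical
  have hp : p.Prime := Fact.out
  have hcard : Nat.card (U ⧸ N.subgroupOf U) = p := hNi
  have hfin : Finite (U ⧸ N.subgroupOf U) := Nat.finite_of_card_ne_zero (by rw [hcard]; exact hp.ne_zero)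
  have hcyc : IsCyclic (U ⧸ N.subgroupOf U) := isCyclic_of_prime_card hcard
  have hcyc2 : IsCyclic (Multiplicative (ZMod p)) := inferInstance
  have e : (U ⧸ N.subgroupOf U) ≃* Multiplicative (ZMod p) := by
    refine mulEquivOfCyclicCardEq ?_
    rw [hcard, Nat.card_congr Multiplicative.toAdd, Nat.card_zmod]
  let g : U →* Multiplicative (ZMod p) := (e : _ →* _).comp (QuotientGroup.mk' (N.subgroupOf U))
  have hg : ∀ x : U, g x = 1 ↔ (x : G) ∈ N := by
    intro x
    show e (QuotientGroup.mk' (N.subgroupOf U) x) = 1 ↔ _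
    rw [map_eq_one_iff e e.injective, QuotientGroup.mk'_apply, QuotientGroup.eq_one_iff,
      Subgroup.mem_subgroupOf]
  let φ : G → ZMod p := fun x => if h : x ∈ U then Multiplicative.toAdd (g ⟨x, h⟩) else 0
  have hφU : ∀ x (h : x ∈ U), φ x = Multiplicative.toAdd (g ⟨x, h⟩) := fun x h => dif_pos h
  have hφm : ∀ x ∈ U, ∀ y ∈ U, φ (x * y) = φ x + φ y := by
    intro x hx y hy
    rw [hφU _ (U.mul_mem hx hy), hφU x hx, hφU y hy, ← toAdd_mul, ← map_mul]
    rfl
  have hφN : ∀ x ∈ N, φ x = 0 := by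
    intro x hx
    by_cases h : x ∈ U
    · rw [hφU x h, (hg ⟨x, h⟩).2 hx]
      rfl
    · exact dif_neg h
  refine ⟨φ, ⟨?_, hφm, fun x hx => dif_neg hx⟩, ?_, hφN⟩
  · -- locally constant
    rw [IsLocallyConstant.iff_exists_open]
    intro x
    refine ⟨(fun y => x * y) '' ((N : Set G) ∩ U), ?_, ⟨1, ⟨N.one_mem, U.one_mem⟩, mul_one x⟩, ?_⟩
    · exact (Homeomorph.mulLeft x).isOpenMap _ (hN.inter hU)
    · rintro _ ⟨y, ⟨hy, hy'⟩, rfl⟩
      by_cases h : x ∈ U
      · show φ (x * y) = φ x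
        rw [hφm x h y hy', hφN y hy, add_zero]
      · show φ (x * y) = φ x
        have h1 : x * y ∉ U := fun h2 => h ((U.mul_mem_cancel_right hy').1 h2)
        have e1 : φ (x * y) = 0 := dif_neg h1
        have e2 : φ x = 0 := dif_neg h
        rw [e1, e2]
  · intro h0
    have h1 : N.subgroupOf U = ⊤ := by
      ext x
      refine ⟨fun _ => trivial, fun _ => ?_⟩
      rw [Subgroup.mem_subgroupOf, ← hg]
      have h2 := hφU x x.2
      rw [h0] at h2
      exact h2.symm
    rw [Subgroup.relIndex, h1, Subgroup.index_top] at hNi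
    exact hp.one_lt.ne hNi

end

end Pool.Agent.L7h48.SG
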