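import Pool.Agent.L7h48.SG.Rega

/-!
# Project SG, the example: elements modulo cubes
-/

set_option autoImplicit false
set_option linter.unusedSectionVars false

namespace Pool.Agent.L7h48.SG

open Pool.Agent.Y715.Gi (QB KK GK)
open Pool.Agent.Y715.Nr Pool.Agent.W237.RK
open Pool.Agent.Y715.Df (Cmp exists_cmp)
open Pool.Agent.Z384 (II DD DDs KK_ex fixK exists_conj norm_gen norm_rat)
open Pool.Agent.L7h60.SG (zc zc_zero kummer zc_inj zc_natCast)

/-- elements fixed by the stabilizer of a square root -/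
lemma quad {k Ω : Type*} [Field k] [Field Ω] [CharZero Ω] [Algebra k Ω] [IsGalois k Ω] (w : Ω)
    (hw0 : w ≠ 0) (hor : ∀ σ : Ω ≃ₐ[k] Ω, σ w = w ∨ σ w = -w) (τ : Ω ≃ₐ[k] Ω) (hτ : τ w = -w)
    (a : Ω) (ha : ∀ σ : Ω ≃ₐ[k] Ω, σ w = w → σ a = a) :
    ∃ u v : k, a = algebraMap k Ω u + algebraMap k Ω v * w := by
  have hττ : τ (τ a) = a := by
    have := ha (τ * τ) (by rw [AlgEquiv.mul_apply, hτ, map_neg, hτ, neg_neg])
    rwa [AlgEquiv.mul_apply] at this
  have h1 : ∀ σ : Ω ≃ₐ[k] Ω, (σ w = w ∧ σ a = a ∧ σ (τ a) = τ a) ∨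
      (σ w = -w ∧ σ a = τ a ∧ σ (τ a) = a) := by
    intro σ
    rcases hor σ with h | h
    · left
      refine ⟨h, ha σ h, ?_⟩
      have e10 : (τ⁻¹ : Ω ≃ₐ[k] Ω) w = -w := by
        have := congrArg (τ⁻¹ : Ω ≃ₐ[k] Ω) hτ
        rw [← AlgEquiv.mul_apply, inv_mul_cancel, AlgEquiv.one_apply, map_neg] at this
        exact (neg_eq_iff_eq_neg.2 this).symm
      have e := ha (τ⁻¹ * σ * τ) (by
        rw [AlgEquiv.mul_apply, AlgEquiv.mul_apply, hτ, map_neg, h, map_neg, e10, neg_neg])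
      have e2 := congrArg τ e
      rw [← AlgEquiv.mul_apply] at e2
      have e3 : τ * (τ⁻¹ * σ * τ) = σ * τ := by group
      rw [e3] at e2
      exact e2
    · right
      refine ⟨h, ?_, ?_⟩
      · have e := ha (τ⁻¹ * σ) (by
          rw [AlgEquiv.mul_apply, h, map_neg]
          have := congrArg (τ⁻¹ : Ω ≃ₐ[k] Ω) hτ
          rw [← AlgEquiv.mul_apply, inv_mul_cancel, AlgEquiv.one_apply, map_neg] at this
          exact this.symm)
        have e2 := congrArg τ e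
        rw [← AlgEquiv.mul_apply, mul_inv_cancel_left] at e2
        exact e2
      · have e := ha (σ * τ) (by rw [AlgEquiv.mul_apply, hτ, map_neg, h, neg_neg])
        rwa [AlgEquiv.mul_apply] at e
  have h2 : (2 : Ω) ≠ 0 := two_ne_zero
  obtain ⟨u, hu⟩ := (InfiniteGalois.mem_bot_iff_fixed (k := k) (K := Ω) ((a + τ a) / 2)).2 (by
    intro σ
    rw [map_div₀, map_add, map_ofNat]
    rcases h1 σ with ⟨_, h4, h5⟩ | ⟨_, h4, h5⟩
    · rw [h4, h5]
    · rw [h4, h5, add_comm])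
  obtain ⟨v, hv⟩ := (InfiniteGalois.mem_bot_iff_fixed (k := k) (K := Ω) ((a - τ a) / (2 * w))).2 (by
    intro σ
    rw [map_div₀, map_sub, map_mul, map_ofNat]
    rcases h1 σ with ⟨h3, h4, h5⟩ | ⟨h3, h4, h5⟩
    · rw [h3, h4, h5]
    · rw [h3, h4, h5]
      field_simp
      ring)
  refine ⟨u, v, ?_⟩
  have hu' : algebraMap k Ω u = (a + τ a) / 2 := hu
  have hv' : algebraMap k Ω v = (a - τ a) / (2 * w) := hv
  rw [hu', hv']
  field_simp
  ring

section

variable {s w : QB} (hs : s ^ 2 = -((2 : ℕ) : QB)) (hw : w ^ 2 = -3)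

/-- `x` is in the field `ℚ(s, w)` -/
def InF (s w x : QB) : Prop := ∀ σ : GK s, σ w = w → σ x = x

lemma InF.mul {x y : QB} (hx : InF s w x) (hy : InF s w y) : InF s w (x * y) := by
  intro σ h
  rw [map_mul, hx σ h, hy σ h]

lemma InF.inv {x : QB} (hx : InF s w x) : InF s w x⁻¹ := by
  intro σ h
  rw [map_inv₀, hx σ h]

lemma InF.add {x y : QB} (hx : InF s w x) (hy : InF s w y) : InF s w (x + y) := by
  intro σ h
  rw [map_add, hx σ h, hy σ h]

lemma InF.sub {x y : QB} (hx : InF s w x) (hy : InF s w y) : InF s w (x - y) := by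
  intro σ h
  rw [map_sub, hx σ h, hy σ h]

lemma InF.pow {x : QB} (hx : InF s w x) (n : ℕ) : InF s w (x ^ n) := by
  intro σ h
  rw [map_pow, hx σ h]

lemma InF.zpow {x : QB} (hx : InF s w x) (n : ℤ) : InF s w (x ^ n) := by
  intro σ h
  rw [map_zpow₀, hx σ h]

lemma InF.int (n : ℤ) : InF s w (n : QB) := fun σ _ => map_intCast σ n

lemma InF.s0 : InF s w s := fun σ _ => fixK σ (IntermediateField.mem_adjoin_simple_self ℚ s)

lemma InF.w0 : InF s w w := fun _ h => h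

lemma InF.vl {a b : ℤ} {θ : QB} (hθ : InF s w θ) (z : QR a b) : InF s w (vl θ z) :=
  (InF.int z.re).add ((InF.int z.im).mul hθ)

/-- modulo cubes, `x` is a product of powers of `1 + s`, `1 - s`, `ζ`, `s + w` -/
def Sb (s w x : QB) : Prop := ∃ (i j l m : ℤ) (C : QB), C ≠ 0 ∧ InF s w C ∧
  x = (1 + s) ^ i * (1 - s) ^ j * ((-1 + w) / 2) ^ l * (s + w) ^ m * C ^ 3

include hs hw in
lemma ne_zeros : (1 + s) ≠ 0 ∧ (1 - s) ≠ 0 ∧ ((-1 + w) / 2) ≠ 0 ∧ (s + w) ≠ 0 := by
  have hs' : s ^ 2 = -2 := by rw [hs]; push_cast; rfl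
  refine ⟨?_, ?_, ?_, ?_⟩
  · intro h
    have : (1 + s) * (1 - s) = 3 := by linear_combination -hs'
    rw [h, zero_mul] at this
    norm_num at this
  · intro h
    have : (1 + s) * (1 - s) = 3 := by linear_combination -hs'
    rw [h, mul_zero] at this
    norm_num at this
  · intro h
    have : ((-1 + w) / 2) * ((-1 - w) / 2) = 1 := by linear_combination -hw / 4
    rw [h, zero_mul] at this
    norm_num at this
  · intro h
    have : (s + w) * (s - w) = 1 := by linear_combination hs' - hw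
    rw [h, zero_mul] at this
    norm_num at this

include hs hw in
lemma Sb.mul {x y : QB} (hx : Sb s w x) (hy : Sb s w y) : Sb s w (x * y) := by
  obtain ⟨h1, h2, h3, h4⟩ := ne_zeros hs hw
  obtain ⟨i, j, l, m, C, hC, hCF, e⟩ := hx
  obtain ⟨i', j', l', m', C', hC', hCF', e'⟩ := hy
  refine ⟨i + i', j + j', l + l', m + m', C * C', mul_ne_zero hC hC', hCF.mul hCF', ?_⟩
  rw [e, e', zpow_add₀ h1, zpow_add₀ h2, zpow_add₀ h3, zpow_add₀ h4]
  ring

lemma Sb.inv {x : QB} (hx : Sb s w x) : Sb s w x⁻¹ := by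
  obtain ⟨i, j, l, m, C, hC, hCF, e⟩ := hx
  refine ⟨-i, -j, -l, -m, C⁻¹, inv_ne_zero hC, hCF.inv, ?_⟩
  rw [e]
  simp only [mul_inv, zpow_neg, inv_pow]

lemma Sb.cube {C : QB} (hC : C ≠ 0) (hCF : InF s w C) : Sb s w (C ^ 3) :=
  ⟨0, 0, 0, 0, C, hC, hCF, by simp⟩

lemma Sb.one : Sb s w 1 := by
  have := Sb.cube (s := s) (w := w) one_ne_zero (by simpa using InF.int (s := s) (w := w) 1)
  simpa using this

include hs hw in
lemma Sb.pow {x : QB} (hx : Sb s w x) (n : ℕ) : Sb s w (x ^ n) := by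
  induction n with
  | zero => rw [pow_zero]; exact Sb.one
  | succ n ih => rw [pow_succ]; exact Sb.mul hs hw ih hx

lemma Sb.neg_one : Sb s w (-1) := by
  have := Sb.cube (s := s) (w := w) (neg_ne_zero.2 one_ne_zero) (C := -1)
    (by simpa using InF.int (s := s) (w := w) (-1))
  norm_num at this
  exact this

lemma Sb.a : Sb s w (1 + s) :=
  ⟨1, 0, 0, 0, 1, one_ne_zero, by simpa using InF.int (s := s) (w := w) 1, by simp⟩

lemma Sb.b : Sb s w (1 - s) :=
  ⟨0, 1, 0, 0, 1, one_ne_zero, by simpa using InF.int (s := s) (w := w) 1, by simp⟩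

lemma Sb.c : Sb s w ((-1 + w) / 2) :=
  ⟨0, 0, 1, 0, 1, one_ne_zero, by simpa using InF.int (s := s) (w := w) 1, by simp⟩

lemma Sb.d : Sb s w (s + w) :=
  ⟨0, 0, 0, 1, 1, one_ne_zero, by simpa using InF.int (s := s) (w := w) 1, by simp⟩

include hs hw in
lemma Sb.three : Sb s w 3 := by
  have e : (3 : QB) = (1 + s) * (1 - s) := by
    have hs' : s ^ 2 = -2 := by rw [hs]; push_cast; rfl
    linear_combination hs'
  rw [e]
  exact Sb.mul hs hw Sb.a Sb.b

include hw in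
lemma w_ne : w ≠ 0 := by
  rintro rfl
  norm_num at hw

include hs hw in
lemma Sb.w0 : Sb s w w := by
  have e : w = -1 * 3⁻¹ * w ^ 3 := by
    field_simp
    linear_combination w * hw
  have h := Sb.mul hs hw (Sb.mul hs hw Sb.neg_one (Sb.inv (Sb.three hs hw)))
    (Sb.cube (w_ne hw) InF.w0)
  rwa [← e] at h

include hs hw in
lemma Sb.f : Sb s w (5 - 2 * (s * w)) := by
  have e : (5 - 2 * (s * w) : QB) = -1 * (s + w) ^ 2 := by
    have hs' : s ^ 2 = -2 := by rw [hs]; push_cast; rfl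
    linear_combination hs' + hw
  rw [e]
  exact Sb.mul hs hw Sb.neg_one (Sb.pow hs hw Sb.d 2)

include hs hw in
lemma Sb.e : Sb s w (5 + 2 * (s * w)) := by
  have e : (5 + 2 * (s * w) : QB) = (5 - 2 * (s * w))⁻¹ := by
    have hs' : s ^ 2 = -2 := by rw [hs]; push_cast; rfl
    apply eq_inv_of_mul_eq_one_left
    linear_combination (-4 * w ^ 2) * hs' + 8 * hw
  rw [e]
  exact Sb.inv (Sb.f hs hw)

include hs hw in
lemma Sb.g : Sb s w (3 + s * w) := by
  have hs' : s ^ 2 = -2 := by rw [hs]; push_cast; rfl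
  have h0 : (3 + s * w) ≠ 0 := by
    intro h
    have : (3 + s * w) * (3 - s * w) = 3 := by linear_combination (-w ^ 2) * hs' + 2 * hw
    rw [h, zero_mul] at this
    norm_num at this
  have e : (3 + s * w : QB) = (3 * (5 + 2 * (s * w)))⁻¹ * (3 + s * w) ^ 3 := by
    have e1 : (3 + s * w) ^ 2 = 3 * (5 + 2 * (s * w)) := by
      linear_combination (w ^ 2) * hs' - 2 * hw
    rw [← e1]
    field_simp
  have h3 : InF s w (3 + s * w) := by
    have := (InF.int (s := s) (w := w) 3).add (InF.s0.mul InF.w0)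
    simpa using this
  rw [e]
  exact Sb.mul hs hw (Sb.inv (Sb.mul hs hw (Sb.three hs hw) (Sb.e hs hw))) (Sb.cube h0 h3)

end

/-! ## values -/

lemma vl_mul {a b : ℤ} {θ : QB} (hθ : θ ^ 2 = a + b * θ) (x y : QR a b) :
    vl θ (x * y) = vl θ x * vl θ y := by
  unfold vl
  rw [QuadraticAlgebra.re_mul, QuadraticAlgebra.im_mul]
  push_cast
  linear_combination (-(x.im * y.im : QB)) * hθ

lemma vl_one {a b : ℤ} (θ : QB) : vl θ (1 : QR a b) = 1 := by
  unfold vl
  rw [QuadraticAlgebra.re_one, QuadraticAlgebra.im_one]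
  push_cast
  ring

lemma vl_neg {a b : ℤ} (θ : QB) (x : QR a b) : vl θ (-x) = -vl θ x := by
  unfold vl
  rw [QuadraticAlgebra.re_neg, QuadraticAlgebra.im_neg]
  push_cast
  ring

lemma vl_pow {a b : ℤ} {θ : QB} (hθ : θ ^ 2 = a + b * θ) (x : QR a b) (n : ℕ) :
    vl θ (x ^ n) = vl θ x ^ n := by
  induction n with
  | zero => rw [pow_zero, pow_zero, vl_one]
  | succ n ih => rw [pow_succ, pow_succ, vl_mul hθ, ih]

end Pool.Agent.L7h48.SG
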