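import Pool.Agent.L7h48.SG.Regb

/-!
# Project SG, the example: cubes and the local condition
-/

set_option autoImplicit false
set_option linter.unusedSectionVars false

namespace Pool.Agent.L7h48.SG

open Pool.Agent.Y715.Gi (QB KK GK)
open Pool.Agent.Y715.Nr Pool.Agent.W237.RK
open Pool.Agent.Y715.Df (Cmp exists_cmp)
open Pool.Agent.Z384 (II DD DDs KK_ex fixK exists_conj norm_gen norm_rat)
open Pool.Agent.L7h60.SG (zc zc_zero kummer zc_inj zc_natCast)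

section

variable {s w : QB} (hs : s ^ 2 = -((2 : ℕ) : QB)) (hw : w ^ 2 = -3)

include hs in
lemma hs2 : s ^ 2 = -2 := by rw [hs]; push_cast; rfl

include hs hw in
lemma sbA1 (hCU : S_CU) (hZ : S_Z1) (z : QR (-2) 0) (hz : z ≠ 0) (Y : QB) (hY : Y ^ 3 = vl s z)
    (hR : RR Y) : Sb s w (vl s z) := by
  obtain ⟨hD, hP, hU⟩ := hZ
  have hs' := hs2 hs
  have hθ : s ^ 2 = ((-2 : ℤ) : QB) + ((0 : ℤ) : QB) * s := by rw [hs']; push_cast; ring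
  obtain ⟨c1, hc1, _⟩ := exists_c1 hs hw
  obtain ⟨u, T, c, hu, hT, hc, hπ, e⟩ := hCU (-2) 0 hD hP s c1 hθ (by rw [hc1]; push_cast; ring)
    (fun z h => vl_inj (s_irr hs) z h) z Y hz hY hR
  obtain ⟨ε, i, j, hε, e2⟩ := hU u T hu hT hπ
  rw [e, e2, vl_mul hθ, vl_mul hθ, vl_mul hθ, vl_pow hθ, vl_pow hθ, vl_pow hθ]
  have e3 : vl s (⟨1, 1⟩ : QR (-2) 0) = 1 + s := by unfold vl; push_cast; ring
  have e4 : vl s (⟨1, -1⟩ : QR (-2) 0) = 1 - s := by unfold vl; push_cast; ring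
  rw [e3, e4]
  have h0 : vl s c ≠ 0 := fun h => hc (vl_inj (s_irr hs) c h)
  refine Sb.mul hs hw (Sb.mul hs hw (Sb.mul hs hw ?_ (Sb.pow hs hw Sb.a i)) (Sb.pow hs hw Sb.b j))
    (Sb.cube h0 (InF.vl InF.s0 c))
  rcases hε with h | h
  · rw [h, vl_one]; exact Sb.one
  · rw [h, vl_neg, vl_one]; exact Sb.neg_one

include hs hw in
lemma sbA2 (hCU : S_CU) (hZ : S_Z2) (z : QR (-1) (-1)) (hz : z ≠ 0) (Y : QB)
    (hY : Y ^ 3 = vl ((-1 + w) / 2) z) (hR : RR Y) : Sb s w (vl ((-1 + w) / 2) z) := by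
  obtain ⟨hD, hP, hU⟩ := hZ
  set θ : QB := (-1 + w) / 2 with hθd
  have hθ : θ ^ 2 = ((-1 : ℤ) : QB) + ((-1 : ℤ) : QB) * θ := by
    push_cast
    rw [hθd]
    linear_combination hw / 4
  obtain ⟨τ, hτ⟩ := exists_tau hs hw
  have hirr : ∀ r : ℚ, θ ≠ (r : QB) := by
    intro r h
    apply w_irr hw (2 * r + 1)
    push_cast
    rw [← h, hθd]
    ring
  have hF : InF s w θ := by
    intro σ h
    rw [hθd, map_div₀, map_add, map_neg, map_one, h, map_ofNat]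
  obtain ⟨u, T, c, hu, hT, hc, hπ, e⟩ := hCU (-1) (-1) hD hP θ (τ.restrictScalars ℚ) hθ (by
      show τ θ = _
      rw [hθd, map_div₀, map_add, map_neg, map_one, hτ, map_ofNat]
      push_cast
      ring)
    (fun z h => vl_inj hirr z h) z Y hz hY hR
  obtain ⟨ε, l, k, hε, e2⟩ := hU u T hu hT hπ
  rw [e, e2, vl_mul hθ, vl_mul hθ, vl_mul hθ, vl_pow hθ, vl_pow hθ, vl_pow hθ]
  have e3 : vl θ (⟨0, 1⟩ : QR (-1) (-1)) = (-1 + w) / 2 := by unfold vl; rw [hθd]; push_cast; ring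
  have e4 : vl θ (⟨1, 2⟩ : QR (-1) (-1)) = w := by unfold vl; rw [hθd]; push_cast; ring
  rw [e3, e4]
  have h0 : vl θ c ≠ 0 := fun h => hc (vl_inj hirr c h)
  refine Sb.mul hs hw (Sb.mul hs hw (Sb.mul hs hw ?_ (Sb.pow hs hw Sb.c l))
    (Sb.pow hs hw (Sb.w0 hs hw) k)) (Sb.cube h0 (InF.vl hF c))
  rcases hε with h | h
  · rw [h, vl_one]; exact Sb.one
  · rw [h, vl_neg, vl_one]; exact Sb.neg_one

include hs hw in
lemma sw_irr (r : ℚ) : s * w ≠ (r : QB) := by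
  intro h
  have h1 : (s * w) ^ 2 = 6 := by
    rw [mul_pow, hw, hs2 hs]
    norm_num
  rw [h] at h1
  have h2 : (r ^ 2 : ℚ) = (6 : ℕ) := by
    apply Rat.cast_injective (α := QB)
    push_cast
    exact h1
  refine sq_ne 6 ?_ r h2
  rintro ⟨k, hk⟩
  have : k ≤ 2 := by nlinarith
  interval_cases k <;> omega

include hs hw in
lemma sbA3 (hCU : S_CU) (hZ : S_Z3) (z : QR 6 0) (hz : z ≠ 0) (Y : QB)
    (hY : Y ^ 3 = vl (s * w) z) (hR : RR Y) : Sb s w (vl (s * w) z) := by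
  obtain ⟨hD, hP, hU⟩ := hZ
  have hθ : (s * w) ^ 2 = ((6 : ℤ) : QB) + ((0 : ℤ) : QB) * (s * w) := by
    rw [mul_pow, hw, hs2 hs]
    push_cast
    ring
  obtain ⟨τ, hτ⟩ := exists_tau hs hw
  have hirr := sw_irr hs hw
  have hF : InF s w (s * w) := InF.s0.mul InF.w0
  obtain ⟨u, T, c, hu, hT, hc, hπ, e⟩ := hCU 6 0 hD hP (s * w) (τ.restrictScalars ℚ) hθ (by
      show τ (s * w) = _
      rw [map_mul, hτ, fixK τ (IntermediateField.mem_adjoin_simple_self ℚ s)]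
      push_cast
      ring)
    (fun z h => vl_inj hirr z h) z Y hz hY hR
  obtain ⟨ε, m, n, hε, e2⟩ := hU u T hu hT hπ
  have hc0 : vl (s * w) c ≠ 0 := fun h => hc (vl_inj hirr c h)
  have e3 : vl (s * w) (⟨5, 2⟩ : QR 6 0) = 5 + 2 * (s * w) := by unfold vl; push_cast; ring
  have e3' : vl (s * w) (⟨5, -2⟩ : QR 6 0) = 5 - 2 * (s * w) := by unfold vl; push_cast; ring
  have e4 : vl (s * w) (⟨3, 1⟩ : QR 6 0) = 3 + s * w := by unfold vl; push_cast; ring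
  have hε' : Sb s w (vl (s * w) ε) := by
    rcases hε with h | h
    · rw [h, vl_one]; exact Sb.one
    · rw [h, vl_neg, vl_one]; exact Sb.neg_one
  rcases e2 with e2 | e2
  · rw [e, e2, vl_mul hθ, vl_mul hθ, vl_mul hθ, vl_pow hθ, vl_pow hθ, vl_pow hθ, e3, e4]
    exact Sb.mul hs hw (Sb.mul hs hw (Sb.mul hs hw hε' (Sb.pow hs hw (Sb.e hs hw) m))
      (Sb.pow hs hw (Sb.g hs hw) n)) (Sb.cube hc0 (InF.vl hF c))
  · rw [e, e2, vl_mul hθ, vl_mul hθ, vl_mul hθ, vl_pow hθ, vl_pow hθ, vl_pow hθ, e3', e4]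
    exact Sb.mul hs hw (Sb.mul hs hw (Sb.mul hs hw hε' (Sb.pow hs hw (Sb.f hs hw) m))
      (Sb.pow hs hw (Sb.g hs hw) n)) (Sb.cube hc0 (InF.vl hF c))

include hs hw in
/-- the square of an element whose cube roots are unramified outside `3` -/
lemma three_norms (hCU : S_CU) (hZ1 : S_Z1) (hZ2 : S_Z2) (hZ3 : S_Z3) {X : QB} (hX0 : X ≠ 0)
    (hR : RR X) (a₁ a₂ a₃ a₄ : ℤ) (hX : X ^ 3 = (a₁ + a₂ * s) + (a₃ + a₄ * s) * w) :
    Sb s w ((X ^ 3) ^ 2) := by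
  have hs' := hs2 hs
  obtain ⟨τ, hτ⟩ := exists_tau hs hw
  obtain ⟨c, hcs, hcw⟩ := exists_c1 hs hw
  have hτs : τ s = s := fixK τ (IntermediateField.mem_adjoin_simple_self ℚ s)
  have hτX : (τ X) ^ 3 = (a₁ + a₂ * s) - (a₃ + a₄ * s) * w := by
    rw [← map_pow, hX]
    simp only [map_add, map_mul, map_intCast, hτ, hτs]
    ring
  have hcX : (c X) ^ 3 = (a₁ - a₂ * s) + (a₃ - a₄ * s) * w := by
    rw [← map_pow, hX]
    simp only [map_add, map_mul, map_intCast, hcs, hcw]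
    ring
  have hcτX : (c (τ X)) ^ 3 = (a₁ - a₂ * s) - (a₃ - a₄ * s) * w := by
    rw [← map_pow, hτX]
    simp only [map_add, map_sub, map_mul, map_intCast, hcs, hcw]
    ring
  have hRτ : RR (τ X) := hR.map (τ.restrictScalars ℚ)
  have hRc : RR (c X) := hR.map c
  have hRcτ : RR (c (τ X)) := hRτ.map c
  have hτ0 : τ X ≠ 0 := (map_ne_zero τ).2 hX0
  have hc0 : c X ≠ 0 := (map_ne_zero c).2 hX0
  have hcτ0 : c (τ X) ≠ 0 := (map_ne_zero c).2 hτ0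
  -- the three norms
  have e1 : (c X * c (τ X)) ^ 3 = vl s (⟨a₁ ^ 2 - 2 * a₂ ^ 2 + 3 * (a₃ ^ 2 - 2 * a₄ ^ 2),
      -(2 * a₁ * a₂ + 6 * a₃ * a₄)⟩ : QR (-2) 0) := by
    rw [mul_pow, hcX, hcτX]
    unfold vl
    push_cast
    linear_combination ((a₂ : QB) ^ 2 - (a₄ : QB) ^ 2 * w ^ 2) * hs' + (-(a₃ : QB) ^ 2 +
      2 * a₃ * a₄ * s + 2 * (a₄ : QB) ^ 2) * hw
  have e2 : (X * c X) ^ 3 = vl ((-1 + w) / 2) (⟨(a₁ ^ 2 - 3 * a₃ ^ 2 + 2 * a₂ ^ 2 - 6 * a₄ ^ 2) +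
      (2 * a₁ * a₃ + 4 * a₂ * a₄), 2 * (2 * a₁ * a₃ + 4 * a₂ * a₄)⟩ : QR (-1) (-1)) := by
    rw [mul_pow, hX, hcX]
    unfold vl
    push_cast
    linear_combination (-((a₂ : QB) + a₄ * w) ^ 2) * hs' + ((a₃ : QB) ^ 2 +
      2 * (a₄ : QB) ^ 2) * hw
  have e3 : (X * c (τ X)) ^ 3 = vl (s * w) (⟨a₁ ^ 2 + 6 * a₄ ^ 2 + 2 * a₂ ^ 2 + 3 * a₃ ^ 2,
      2 * a₁ * a₄ - 2 * a₂ * a₃⟩ : QR 6 0) := by
    rw [mul_pow, hX, hcτX]
    unfold vl
    push_cast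
    linear_combination (-(a₂ : QB) ^ 2 + (a₄ : QB) ^ 2 * w ^ 2) * hs' + (-(a₃ : QB) ^ 2 -
      2 * (a₄ : QB) ^ 2) * hw
  have hz : ∀ {a b : ℤ} {θ : QB} (z : QR a b) (Y : QB), Y ≠ 0 → Y ^ 3 = vl θ z → z ≠ 0 := by
    rintro a b θ z Y hY h rfl
    apply hY
    have h1 : vl θ (0 : QR a b) = 0 := by
      unfold vl
      rw [QuadraticAlgebra.re_zero, QuadraticAlgebra.im_zero]
      push_cast
      ring
    rw [h1] at h
    exact (pow_eq_zero_iff (by norm_num)).1 h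
  have g1 := sbA1 hs hw hCU hZ1 _ (hz _ _ (mul_ne_zero hc0 hcτ0) e1) _ e1 (hRc.mul hRcτ)
  have g2 := sbA2 hs hw hCU hZ2 _ (hz _ _ (mul_ne_zero hX0 hc0) e2) _ e2 (hR.mul hRc)
  have g3 := sbA3 hs hw hCU hZ3 _ (hz _ _ (mul_ne_zero hX0 hcτ0) e3) _ e3 (hR.mul hRcτ)
  rw [← e1] at g1
  rw [← e2] at g2
  rw [← e3] at g3
  have e4 : (X ^ 3) ^ 2 = (X * c X) ^ 3 * (X * c (τ X)) ^ 3 * ((c X * c (τ X)) ^ 3)⁻¹ := by
    field_simp
  rw [e4]
  exact Sb.mul hs hw (Sb.mul hs hw g2 g3) (Sb.inv g1)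

end

/-! ## the local condition -/

lemma neg_three_not_sq (r : ℚ_[3]) : r ^ 2 ≠ -3 := by
  intro h
  have hr : r ≠ 0 := by
    rintro rfl
    norm_num at h
  have h1 : ‖r‖ ^ 2 = (3 : ℝ)⁻¹ := by
    rw [← norm_pow, h, norm_neg]
    have := Padic.norm_p (p := 3)
    push_cast at this
    exact this
  rw [Padic.norm_eq_zpow_neg_valuation hr, ← zpow_natCast, ← zpow_mul] at h1
  have h2 : ((3 : ℕ) : ℝ) ^ (-r.valuation * ((2 : ℕ) : ℤ)) = ((3 : ℕ) : ℝ) ^ (-1 : ℤ) := by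
    rw [h1, zpow_neg_one]
    norm_num
  have h3 := zpow_right_injective₀ (a := ((3 : ℕ) : ℝ)) (by norm_num) (by norm_num) h2
  push_cast at h3
  omega

lemma exists_t : ∃ t : ℚ_[3], t ^ 2 = -2 := by
  have e1 : ‖((3 : ℕ) : ℤ_[3])‖ < 1 := by
    rw [PadicInt.norm_p]
    norm_num
  have e2 : ‖((2 : ℕ) : ℤ_[3])‖ = 1 := by
    rw [PadicInt.norm_natCast_eq_one_iff]
    decide
  have h := hensels_lemma (p := 3) (F := (Polynomial.X ^ 2 + Polynomial.C 2 : Polynomial ℤ_[3]))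
    (a := 1) (by
      have h1 : Polynomial.aeval (1 : ℤ_[3]) (Polynomial.X ^ 2 + Polynomial.C 2 : Polynomial ℤ_[3])
          = ((3 : ℕ) : ℤ_[3]) := by
        simp
        norm_num
      have h2 : Polynomial.aeval (1 : ℤ_[3]) (Polynomial.derivative
          (Polynomial.X ^ 2 + Polynomial.C 2 : Polynomial ℤ_[3])) = ((2 : ℕ) : ℤ_[3]) := by
        simp
        norm_num
      rw [h1, h2, e2]
      linarith)
  obtain ⟨z, hz, _⟩ := h
  refine ⟨(z : ℚ_[3]), ?_⟩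
  have h3 : z ^ 2 + 2 = 0 := by simpa using hz
  have h4 : z ^ 2 = -2 := by linear_combination h3
  exact_mod_cast congrArg (fun y : ℤ_[3] => (y : ℚ_[3])) h4

lemma exists_neg_tau {W : PadicAlgCl 3} (hW : W ^ 2 = -3) : ∃ τ : Au 3, τ W = -W := by
  by_contra hcon
  push Not at hcon
  have h : ∀ τ : Au 3, τ W = W := by
    intro τ
    have h1 : (τ W) ^ 2 = W ^ 2 := by rw [← map_pow, hW, map_neg, map_ofNat]
    rcases sq_eq_sq_iff_eq_or_eq_neg.1 h1 with h2 | h2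
    · exact h2
    · exact absurd h2 (hcon τ)
  obtain ⟨r, hr⟩ := (InfiniteGalois.mem_bot_iff_fixed (k := ℚ_[3]) (K := PadicAlgCl 3) W).2 h
  have hr' : algebraMap ℚ_[3] (PadicAlgCl 3) r = W := hr
  apply neg_three_not_sq r
  apply (algebraMap ℚ_[3] (PadicAlgCl 3)).injective
  rw [map_pow, hr', hW, map_neg, map_ofNat]

/-- the cube roots of unity -/
lemma root_or {Ω : Type*} [Field Ω] [CharZero Ω] {w ζ : Ω} (hw : w ^ 2 = -3) (h : ζ ^ 3 = 1) :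
    ζ = 1 ∨ 2 * ζ + 1 = w ∨ 2 * ζ + 1 = -w := by
  have h1 : (ζ - 1) * (ζ ^ 2 + ζ + 1) = 0 := by linear_combination h
  rcases mul_eq_zero.1 h1 with h2 | h2
  · left; linear_combination h2
  · right
    have h3 : (2 * ζ + 1) ^ 2 = w ^ 2 := by rw [hw]; linear_combination 4 * h2
    exact sq_eq_sq_iff_eq_or_eq_neg.1 h3

section

variable {s w : QB} (hs : s ^ 2 = -((2 : ℕ) : QB)) (hw : w ^ 2 = -3)

include hw in
lemma root_fix {ζ : QB} (h : ζ ^ 3 = 1) : InF s w ζ := by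
  intro σ hσ
  rcases root_or hw h with h1 | h1 | h1
  · rw [h1, map_one]
  · have h2 : ζ = (w - 1) / 2 := by rw [← h1]; ring
    rw [h2, map_div₀, map_sub, map_one, map_ofNat, hσ]
  · have h2 : ζ = (-w - 1) / 2 := by rw [← h1]; ring
    rw [h2, map_div₀, map_sub, map_neg, map_one, map_ofNat, hσ]

include hw in
lemma mem_Mu_iff (σ : GK s) : σ ∈ Mu 3 s ↔ σ w = w := by
  constructor
  · intro h
    have h1 : σ ((-1 + w) / 2) = (-1 + w) / 2 := by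
      apply h
      linear_combination ((-3 + w) / 8) * hw
    rw [map_div₀, map_add, map_neg, map_one, map_ofNat] at h1
    linear_combination 2 * h1
  · intro h ζ hζ
    exact root_fix hw hζ σ h

include hs in
/-- `ι₀ s` is in `ℚ_3` -/
lemma exists_ts (ι₀ : QB →ₐ[ℚ] PadicAlgCl 3) : ∃ t : ℚ_[3], t ^ 2 = -2 ∧
    ι₀ s = algebraMap ℚ_[3] (PadicAlgCl 3) t := by
  obtain ⟨t, ht⟩ := exists_t
  have h1 : (ι₀ s) ^ 2 = (algebraMap ℚ_[3] (PadicAlgCl 3) t) ^ 2 := by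
    rw [← map_pow, hs2 hs, ← map_pow, ht, map_neg, map_neg, map_ofNat, map_ofNat]
  rcases sq_eq_sq_iff_eq_or_eq_neg.1 h1 with h2 | h2
  · exact ⟨t, ht, h2⟩
  · exact ⟨-t, by rw [neg_sq, ht], by rw [h2, map_neg]⟩

include hs hw in
lemma local_concl (hLO : S_LO) (ι₀ : QB →ₐ[ℚ] PadicAlgCl 3) {X : QB} (hX0 : X ≠ 0)
    (hXF : InF s w (X ^ 3)) (hSb : Sb s w ((X ^ 3) ^ 2))
    (hloc : ∀ τ : Au 3, τ (ι₀ w) = ι₀ w → τ (ι₀ X) = ι₀ X) : InF s w X := by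
  obtain ⟨i, j, l, m, C, hC, hCF, e⟩ := hSb
  obtain ⟨t, ht, hts⟩ := exists_ts hs ι₀
  have hW : (ι₀ w) ^ 2 = -3 := by rw [← map_pow, hw, map_neg, map_ofNat]
  have hW0 : ι₀ w ≠ 0 := (map_ne_zero ι₀).2 (w_ne hw)
  obtain ⟨τ₀, hτ₀⟩ := exists_neg_tau hW
  obtain ⟨u, v, huv⟩ := quad (k := ℚ_[3]) (Ω := PadicAlgCl 3) (ι₀ w) hW0 (fun σ => by
      have h1 : (σ (ι₀ w)) ^ 2 = (ι₀ w) ^ 2 := by rw [← map_pow, hW, map_neg, map_ofNat]
      exact sq_eq_sq_iff_eq_or_eq_neg.1 h1) τ₀ hτ₀ (ι₀ (X ^ 2 / C)) (fun τ hτ => by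
      have h1 : τ (ι₀ s) = ι₀ s := by rw [hts, AlgEquiv.commutes]
      obtain ⟨σ, hσ⟩ := exists_cmp ι₀ τ h1
      have h2 : σ w = w := by
        refine ι₀.injective ?_
        show ι₀ (σ w) = ι₀ w
        rw [← hσ]
        exact hτ
      have h3 : τ (ι₀ C) = ι₀ C := by rw [hσ, hCF σ h2]
      rw [map_div₀, map_pow, map_div₀, map_pow, h3, hloc τ hτ])
  obtain ⟨h1, h2, h3, h4⟩ := ne_zeros hs hw
  have key := hLO t u v (ι₀ w) ht hW i j l m (by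
    have e1 : ((u : PadicAlgCl 3) + (v : PadicAlgCl 3) * ι₀ w) = ι₀ (X ^ 2 / C) := huv.symm
    have e2 : (1 + (t : PadicAlgCl 3)) = ι₀ (1 + s) := by rw [map_add, map_one, hts]
    have e3 : (1 - (t : PadicAlgCl 3)) = ι₀ (1 - s) := by rw [map_sub, map_one, hts]
    have e4 : ((-1 + ι₀ w) / 2) = ι₀ ((-1 + w) / 2) := by
      rw [map_div₀, map_add, map_neg, map_one, map_ofNat]
    have e5 : ((t : PadicAlgCl 3) + ι₀ w) = ι₀ (s + w) := by rw [map_add, hts]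
    rw [e1, e2, e3, e4, e5, ← map_pow, ← map_zpow₀, ← map_zpow₀, ← map_zpow₀, ← map_zpow₀,
      ← map_mul, ← map_mul, ← map_mul]
    congr 1
    rw [div_pow, div_eq_iff (pow_ne_zero 3 hC), ← e]
    ring)
  obtain ⟨⟨i', hi⟩, ⟨j', hj⟩, ⟨l', hl⟩, ⟨m', hm⟩⟩ := key
  set B := (1 + s) ^ i' * (1 - s) ^ j' * ((-1 + w) / 2) ^ l' * (s + w) ^ m' * C with hB
  have hB0 : B ≠ 0 := by
    rw [hB]
    exact mul_ne_zero (mul_ne_zero (mul_ne_zero (mul_ne_zero (zpow_ne_zero _ h1)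
      (zpow_ne_zero _ h2)) (zpow_ne_zero _ h3)) (zpow_ne_zero _ h4)) hC
  have hone : InF s w 1 := by simpa using InF.int (s := s) (w := w) 1
  have hBF : InF s w B := by
    rw [hB]
    refine ((((InF.zpow (hone.add InF.s0) i').mul (InF.zpow (hone.sub InF.s0) j')).mul
      (InF.zpow ?_ l')).mul (InF.zpow (InF.s0.add InF.w0) m')).mul hCF
    intro σ h
    rw [map_div₀, map_add, map_neg, map_one, h, map_ofNat]
  have hcube : (X ^ 2 / B) ^ 3 = 1 := by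
    rw [div_pow, div_eq_one_iff_eq (pow_ne_zero 3 hB0)]
    have e3 : (X ^ 2) ^ 3 = (X ^ 3) ^ 2 := by ring
    rw [e3, e, hB, hi, hj, hl, hm]
    simp only [mul_pow, zpow_mul', zpow_ofNat]
  have hX2 : InF s w (X ^ 2) := by
    have := (root_fix (s := s) hw hcube).mul hBF
    rwa [div_mul_cancel₀ _ hB0] at this
  have hfin : X = X ^ 3 * (X ^ 2)⁻¹ := by field_simp
  rw [hfin]
  exact hXF.mul hX2.inv

end

end Pool.Agent.L7h48.SG
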