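import Mathlib
import Pool.Agent.L7h48.SG.Stm

/-!
# Project SG: the example `p = 3`, `K = ℚ(√-2)`, `L = K(μ_3)`: the parts of REG

`R = QuadraticAlgebra ℤ a b`, `ω² = a + b ω`, is embedded in `QB` by `θ`, `θ² = a + b θ`.
`(a, b) = (-2, 0)`, `(-1, -1)`, `(6, 0)`.
-/

set_option autoImplicit false

namespace Pool.Agent.L7h48.SG

open Pool.Agent.Y715.Gi (QB KK GK)
open Pool.Agent.Y715.Nr Pool.Agent.W237.RK

/-- the ring `ℤ[θ]` -/
abbrev QR (a b : ℤ) : Type := QuadraticAlgebra ℤ a b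

/-- the value of an element of `ℤ[θ]` -/
noncomputable def vl {a b : ℤ} (θ : QB) (z : QR a b) : QB := (z.re : QB) + (z.im : QB) * θ

/-- **[Z1]** `ℤ[√-2]` is a principal ideal domain (Euclidean: `1/4 + 2/4 < 1`), its units are `± 1`, and
the prime elements that divide `3 = (1 + √-2)(1 - √-2)` are associated to `1 ± √-2` (norm `3`).
Mathlib only. About 150 lines. -/
def S_Z1 : Prop :=
  IsDomain (QR (-2) 0) ∧ IsPrincipalIdealRing (QR (-2) 0) ∧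
  ∀ u T : QR (-2) 0, IsUnit u → T ≠ 0 → (∀ π : QR (-2) 0, Prime π → π ∣ T → π ∣ 3) →
    ∃ (e : QR (-2) 0) (i j : ℕ), (e = 1 ∨ e = -1) ∧ u * T = e * ⟨1, 1⟩ ^ i * ⟨1, -1⟩ ^ j

/-- **[Z2]** `ℤ[ω]`, `ω² = -1 - ω`, is a principal ideal domain, its units are `± ω^l`, and the prime
elements that divide `3 = -ω²(1 + 2 ω)²...` (`(1 + 2ω)² = -3`) are associated to `1 + 2 ω`.
Mathlib only. About 150 lines. -/
def S_Z2 : Prop :=
  IsDomain (QR (-1) (-1)) ∧ IsPrincipalIdealRing (QR (-1) (-1)) ∧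
  ∀ u T : QR (-1) (-1), IsUnit u → T ≠ 0 → (∀ π : QR (-1) (-1), Prime π → π ∣ T → π ∣ 3) →
    ∃ (e : QR (-1) (-1)) (l k : ℕ), (e = 1 ∨ e = -1) ∧ u * T = e * ⟨0, 1⟩ ^ l * ⟨1, 2⟩ ^ k

/-- **[Z3]** `ℤ[√6]` is a principal ideal domain, its units are `± ε^n`, `ε = 5 + 2√6` (Pell equation;
no unit of norm `-1`), and the prime elements that divide `3` are associated to `3 + √6`
(`(3 + √6)² = 3 ε`).
Euclidean: let `x, y ∈ [0, 1/2]` be rational (up to signs and integers). If `6 y² < 1` use `(x, y)`: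
`-1 < x² - 6y² < 1`. Otherwise `1 < 6 y² ≤ 3/2` (`6 y² = 1` is impossible), use `1 - x` if
`(1 - x)² > 6 y² - 1`, and `1 + x` if `(1 + x)² < 6 y² + 1`; if both fail then `4 x ≥ 2`, `x = 1/2`,
`6 y² = 5/4`, impossible. Mathlib only. About 300 lines. -/
def S_Z3 : Prop :=
  IsDomain (QR 6 0) ∧ IsPrincipalIdealRing (QR 6 0) ∧
  ∀ u T : QR 6 0, IsUnit u → T ≠ 0 → (∀ π : QR 6 0, Prime π → π ∣ T → π ∣ 3) →
    ∃ (e : QR 6 0) (m n : ℕ), (e = 1 ∨ e = -1) ∧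
      (u * T = e * ⟨5, 2⟩ ^ m * ⟨3, 1⟩ ^ n ∨ u * T = e * ⟨5, -2⟩ ^ m * ⟨3, 1⟩ ^ n)

/-- **[PL]** places of `ℚ(θ)`. `π` is a prime element that does not divide `3`; there are a prime number
`q ≠ 3` and an embedding `ι` of `QB` in `PadicAlgCl q` such that `ι π` has positive valuation, the
elements prime to `π` have valuation zero, and `‖ι π‖²` is `q⁻¹` or `q⁻²`.
Proof. `π` divides its norm, so a prime number `q`, `N π = ± q` or `± q²`. In the second case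
`q ~ π`, any `ι` works. In the first case `π π̄ = ± q`; one of `‖ι π‖, ‖ι π̄‖` is `< 1`, replace `ι` by
`ι ∘ g` if necessary; if `π ~ π̄` then `‖ι π‖² = q⁻¹`, otherwise `‖ι π̄‖ = 1`, `‖ι π‖ = q⁻¹`. If `π ∤ y`
then `α π + β y = 1`, so `‖ι y‖ = 1`; elements of `R` are integral, `‖ι y‖ ≤ 1`. About 150 lines. -/
def S_PL : Prop :=
  ∀ (a b : ℤ), IsDomain (QR a b) → IsPrincipalIdealRing (QR a b) → ∀ (θ : QB) (g : QB ≃ₐ[ℚ] QB),
    θ ^ 2 = a + b * θ → g θ = b - θ → (∀ z : QR a b, vl θ z = 0 → z = 0) →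
    ∀ π : QR a b, Prime π → ¬ π ∣ 3 →
      ∃ (q : ℕ) (_ : Fact q.Prime) (ι : QB →ₐ[ℚ] PadicAlgCl q), q ≠ 3 ∧ ‖ι (vl θ π)‖ < 1 ∧
        (∀ y : QR a b, ¬ π ∣ y → ‖ι (vl θ y)‖ = 1) ∧
        (‖ι (vl θ π)‖ ^ 2 = (q : ℝ) ^ (-1 : ℤ) ∨ ‖ι (vl θ π)‖ ^ 2 = (q : ℝ) ^ (-2 : ℤ))

/-- **[CU]** (assume PL) if `z = x³`, `x ∈ QB`, and `‖ι x‖²` is an integral power of `q` for all places
`ι` at all prime numbers `q ≠ 3`, then `z = u T c³`, `u` a unit, `T` a product of primes that divide `3`.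
Proof. Strong induction on `|N z|`: if a prime `π ∤ 3` divides `z`, `z = π^e z'`, `π ∤ z'`, then
`q^{3m} = ‖ι x‖^6 = ‖ι z‖² = (‖ι π‖²)^e` is `q^{-e}` or `q^{-2e}`, so `3 ∣ e`; replace `z` by
`z / π³` and `x` by `x / π` (the hypothesis holds for `π` too: show instead that it is kept, or work
with multiplicities: all multiplicities of the primes not dividing `3` are divisible by `3`).
About 150 lines. -/
def S_CU : Prop :=
  ∀ (a b : ℤ), IsDomain (QR a b) → IsPrincipalIdealRing (QR a b) → ∀ (θ : QB) (g : QB ≃ₐ[ℚ] QB),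
    θ ^ 2 = a + b * θ → g θ = b - θ → (∀ z : QR a b, vl θ z = 0 → z = 0) →
    ∀ (z : QR a b) (x : QB), z ≠ 0 → x ^ 3 = vl θ z →
      (∀ (q : ℕ) [Fact q.Prime] (ι : QB →ₐ[ℚ] PadicAlgCl q), q ≠ 3 →
        ∃ m : ℤ, ‖ι x‖ ^ 2 = (q : ℝ) ^ m) →
      ∃ u T c : QR a b, IsUnit u ∧ T ≠ 0 ∧ c ≠ 0 ∧
        (∀ π : QR a b, Prime π → π ∣ T → π ∣ 3) ∧ z = u * T * c ^ 3

/-- **[LO]** the local computation in `ℚ_3(√-3)`: `1 + t`, `1 - t`, `(-1+W)/2`, `t + W` are independent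
modulo cubes (`t² = -2`, `W² = -3`).
Proof. `W ∉ ℚ_3`; the conjugation `u + v W ↦ u - v W` maps `t + W` to `t - W = (t + W)⁻¹`... (as
`(t+W)(t-W) = t² + 3 = 1`), `ω = (-1+W)/2` to `ω⁻¹`. Norms: `(y ȳ)³ = (1+t)^{2i} (1-t)^{2j}` in `ℚ_3`;
`(1+t)(1-t) = 3`, one of the factors is a unit congruent to `5` modulo `9` (`t ≡ ± 4` modulo `9`, so
`1 + t ≡ 5` or `1 - t ≡ 5`), the other has valuation one: `3 ∣ i, j` (cubes of units are `± 1`
modulo `9`, `5` has order `6`). Then `y'³ = ω^l (t+W)^m` with `y' = u + v W`, `u` a unit, `v` an integer,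
`y'³ = A + B W`, `A ≡ u³ ≡ ± 1`, `B = 3 v (u² - v²) ≡ 0` modulo `9`, and `ω = 4 + 5 W`, `t + W`,
`t = ± 4`, in `(ℤ/9)[W]`: only `l ≡ m ≡ 0` modulo `3` is possible (finite check: nine cases; the
element `ω^l (t+W)^m` only depends on `l, m` modulo `3` up to cubes). About 250 lines. -/
def S_LO : Prop :=
  ∀ (t u v : ℚ_[3]) (W : PadicAlgCl 3), t ^ 2 = -2 → W ^ 2 = -3 → ∀ i j l m : ℤ,
    ((u : PadicAlgCl 3) + (v : PadicAlgCl 3) * W) ^ 3 =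
      (1 + (t : PadicAlgCl 3)) ^ i * (1 - (t : PadicAlgCl 3)) ^ j * ((-1 + W) / 2) ^ l *
        ((t : PadicAlgCl 3) + W) ^ m →
    3 ∣ i ∧ 3 ∣ j ∧ 3 ∣ l ∧ 3 ∣ m

end Pool.Agent.L7h48.SG
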